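import Mathlib
import Pool.Agent.helper67.ND.Defs
import Pool.Agent.helper14.ND_E1

/-!
# The initial form method: algebraic part

`a` are positive weights, `f0` is weighted homogeneous of weight `N`, `G` is a linear functional on
polynomials with `G (∂ᵢ φ) = G (φ ∂ᵢ f0)`, and `g` has only monomials of weight `> N`.
-/

set_option autoImplicit false

namespace Pool.Agent.helper67.IF

open MvPolynomial
open Pool.Agent.helper67.ND Pool.Agent.helper14.CND

variable {n : ℕ}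

/-- All monomials have weight at least `w`. -/
def Ge (a : Fin n → ℕ) (w : ℕ) (φ : MvPolynomial (Fin n) ℂ) : Prop :=
  ∀ m ∈ φ.support, w ≤ Finsupp.weight a m

/-- The component of weight `w`. -/
noncomputable abbrev cmp (a : Fin n → ℕ) (w : ℕ) :
    MvPolynomial (Fin n) ℂ →ₗ[ℂ] MvPolynomial (Fin n) ℂ :=
  weightedHomogeneousComponent a w

variable {a : Fin n → ℕ}

lemma Ge.mono {w w' : ℕ} {φ : MvPolynomial (Fin n) ℂ} (h : Ge a w φ) (hw : w' ≤ w) : Ge a w' φ :=
  fun m hm => hw.trans (h m hm)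

lemma Ge.zero (φ : MvPolynomial (Fin n) ℂ) : Ge a 0 φ := fun _ _ => Nat.zero_le _

lemma Ge.mul {w w' : ℕ} {φ ψ : MvPolynomial (Fin n) ℂ} (h : Ge a w φ) (h' : Ge a w' ψ) :
    Ge a (w + w') (φ * ψ) := by
  classical
  intro m hm
  obtain ⟨p, hp, q, hq, rfl⟩ := Finset.mem_add.1 (support_mul φ ψ hm)
  rw [map_add]
  exact Nat.add_le_add (h p hp) (h' q hq)

lemma Ge.pow {w : ℕ} {φ : MvPolynomial (Fin n) ℂ} (h : Ge a w φ) (k : ℕ) :
    Ge a (k * w) (φ ^ k) := by
  induction k with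
  | zero => rw [zero_mul]; exact Ge.zero _
  | succ k ih =>
    rw [pow_succ, Nat.succ_mul]
    exact ih.mul h

lemma Ge.add {w : ℕ} {φ ψ : MvPolynomial (Fin n) ℂ} (h : Ge a w φ) (h' : Ge a w ψ) :
    Ge a w (φ + ψ) := by
  classical
  intro m hm
  rcases Finset.mem_union.1 (support_add hm) with h1 | h1
  · exact h m h1
  · exact h' m h1

lemma Ge.of_homog {w : ℕ} {φ : MvPolynomial (Fin n) ℂ} (h : φ.IsWeightedHomogeneous a w) :
    Ge a w φ := fun m hm => (h (mem_support_iff.1 hm)).ge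

lemma Ge.cmp_eq_zero {w w' : ℕ} {φ : MvPolynomial (Fin n) ℂ} (h : Ge a w φ) (hw : w' < w) :
    cmp a w' φ = 0 := by
  refine weightedHomogeneousComponent_eq_zero' _ _ fun m hm => ?_
  have := h m hm
  omega

lemma cmp_monomial (w : ℕ) (m : Fin n →₀ ℕ) (c : ℂ) :
    cmp a w (monomial m c) = if Finsupp.weight a m = w then monomial m c else 0 := by
  classical
  ext p
  rw [coeff_weightedHomogeneousComponent]
  by_cases hp : m = p
  · subst hp
    split_ifs <;> simp
  · split_ifs <;> simp [coeff_monomial, hp]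

lemma cmp_mul_homog (u v : ℕ) (φ ψ : MvPolynomial (Fin n) ℂ)
    (hψ : ψ.IsWeightedHomogeneous a v) : cmp a (u + v) (φ * ψ) = cmp a u φ * ψ := by
  induction φ using MvPolynomial.induction_on' with
  | monomial m c =>
    have h1 : ((monomial m c : MvPolynomial (Fin n) ℂ) * ψ).IsWeightedHomogeneous a
        (Finsupp.weight a m + v) :=
      (isWeightedHomogeneous_monomial a m c rfl).mul hψ
    rw [cmp_monomial]
    by_cases h : Finsupp.weight a m = u
    · rw [if_pos h, ← h]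
      exact h1.weightedHomogeneousComponent_same
    · rw [if_neg h, zero_mul]
      exact h1.weightedHomogeneousComponent_ne _ (by omega)
  | add p q hp hq => rw [add_mul, map_add, hp, hq, map_add, add_mul]

lemma cmp_pderiv (w : ℕ) (i : Fin n) (φ : MvPolynomial (Fin n) ℂ) :
    cmp a w (pderiv i φ) = pderiv i (cmp a (w + a i) φ) := by
  classical
  ext m
  rw [coeff_weightedHomogeneousComponent, coeff_pderiv, coeff_pderiv,
    coeff_weightedHomogeneousComponent, map_add]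
  have h1 : Finsupp.weight a (Finsupp.single i 1) = a i := by
    rw [Finsupp.weight_single]; simp
  rw [h1]
  by_cases h : Finsupp.weight a m = w
  · rw [if_pos h, if_pos (by omega)]
  · rw [if_neg h, if_neg (by omega), zero_mul]

lemma pderiv_eq_zero_of_lt {N : ℕ} {f : MvPolynomial (Fin n) ℂ}
    (hf : f.IsWeightedHomogeneous a N) (i : Fin n) (h : N < a i) : pderiv i f = 0 := by
  ext m
  rw [coeff_pderiv, coeff_zero]
  by_contra h1
  have h2 := hf (left_ne_zero_of_mul h1)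
  rw [map_add] at h2
  have h3 : Finsupp.weight a (Finsupp.single i 1) = a i := by
    rw [Finsupp.weight_single]; simp
  omega

section Functional

variable {N : ℕ} {f0 : MvPolynomial (Fin n) ℂ} (hf0 : f0.IsWeightedHomogeneous a N)
  {G : MvPolynomial (Fin n) ℂ →ₗ[ℂ] ℂ}
  (hG : ∀ (i : Fin n) (φ : MvPolynomial (Fin n) ℂ), G (pderiv i φ) = G (φ * pderiv i f0))

include hf0 hG

lemma G1 (w : ℕ) (i : Fin n) (φ : MvPolynomial (Fin n) ℂ) :
    G (cmp a (w + N) (φ * pderiv i f0)) = G (cmp a w (pderiv i φ)) := by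
  rw [cmp_pderiv, hG]
  congr 1
  by_cases h : a i ≤ N
  · have h1 : (pderiv i f0).IsWeightedHomogeneous a (N - a i) := hf0.pderiv (by omega)
    have h2 := cmp_mul_homog (w + a i) (N - a i) φ _ h1
    have h3 : w + a i + (N - a i) = w + N := by omega
    rw [h3] at h2
    exact h2
  · rw [pderiv_eq_zero_of_lt hf0 i (by omega), mul_zero, mul_zero, map_zero]

lemma G2 (hN : 1 ≤ N) (w : ℕ) (φ : MvPolynomial (Fin n) ℂ) :
    G (cmp a (w + N) (φ * f0)) =
      ((∑ i, (a i : ℂ)) / N + (w : ℂ) / N) * G (cmp a w φ) := by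
  have hNC : (N : ℂ) ≠ 0 := by exact_mod_cast (by omega : N ≠ 0)
  rw [cmp_mul_homog w N φ f0 hf0]
  set ψ := cmp a w φ with hψdef
  have hψ : ψ.IsWeightedHomogeneous a w := weightedHomogeneousComponent_isWeightedHomogeneous _ _
  have h1 := hf0.sum_weight_X_mul_pderiv
  have h2 := hψ.sum_weight_X_mul_pderiv
  have h3 : (N : ℂ) * G (ψ * f0) = ∑ i, (a i : ℂ) * G ((X i * ψ) * pderiv i f0) := by
    have e1 : (N : ℂ) * G (ψ * f0) = G (ψ * (N • f0)) := by
      rw [mul_smul_comm, map_nsmul, nsmul_eq_mul]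
    rw [e1, ← h1, Finset.mul_sum, map_sum]
    refine Finset.sum_congr rfl fun i _ => ?_
    rw [mul_smul_comm, map_nsmul, nsmul_eq_mul]
    congr 2
    ring
  have h4 : ∑ i, (a i : ℂ) * G ((X i * ψ) * pderiv i f0) =
      (∑ i, (a i : ℂ)) * G ψ + (w : ℂ) * G ψ := by
    have e2 : ∀ i, G ((X i * ψ) * pderiv i f0) = G ψ + G (X i * pderiv i ψ) := by
      intro i
      rw [← hG, Derivation.leibniz, pderiv_X_self, smul_eq_mul, smul_eq_mul, mul_one, map_add]
      ring
    have e3 : (w : ℂ) * G ψ = ∑ i, (a i : ℂ) * G (X i * pderiv i ψ) := by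
      have : (w : ℂ) * G ψ = G (w • ψ) := by rw [map_nsmul, nsmul_eq_mul]
      rw [this, ← h2, map_sum]
      refine Finset.sum_congr rfl fun i _ => ?_
      rw [map_nsmul, nsmul_eq_mul]
    rw [e3, Finset.sum_mul, ← Finset.sum_add_distrib]
    refine Finset.sum_congr rfl fun i _ => ?_
    rw [e2, mul_add]
  rw [h4] at h3
  field_simp
  linear_combination h3

end Functional

/-- The functional attached to `f0 + g`, truncated at `B`. -/
noncomputable def Lam (a : Fin n → ℕ) (N : ℕ) (G : MvPolynomial (Fin n) ℂ →ₗ[ℂ] ℂ)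
    (g : MvPolynomial (Fin n) ℂ) (B j : ℕ) : MvPolynomial (Fin n) ℂ →ₗ[ℂ] ℂ :=
  ∑ k ∈ Finset.range B, ((-1 : ℂ) ^ k / (k.factorial : ℂ)) •
    (G ∘ₗ cmp a (N * (k + j)) ∘ₗ LinearMap.mulRight ℂ (g ^ k))

lemma Lam_apply (a : Fin n → ℕ) (N : ℕ) (G : MvPolynomial (Fin n) ℂ →ₗ[ℂ] ℂ)
    (g : MvPolynomial (Fin n) ℂ) (B j : ℕ) (φ : MvPolynomial (Fin n) ℂ) :
    Lam a N G g B j φ = ∑ k ∈ Finset.range B, ((-1 : ℂ) ^ k / (k.factorial : ℂ)) *
      G (cmp a (N * (k + j)) (φ * g ^ k)) := by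
  simp [Lam, LinearMap.sum_apply]

lemma fac_succ (k : ℕ) : ((-1 : ℂ) ^ k / (k.factorial : ℂ)) =
    - ((k + 1 : ℕ) : ℂ) * ((-1 : ℂ) ^ (k + 1) / ((k + 1).factorial : ℂ)) := by
  have h1 : (k.factorial : ℂ) ≠ 0 := by exact_mod_cast k.factorial_ne_zero
  have h2 : ((k + 1 : ℕ) : ℂ) ≠ 0 := by exact_mod_cast Nat.succ_ne_zero k
  rw [Nat.factorial_succ, pow_succ]
  push_cast
  push_cast at h2
  field_simp

/-- Abel summation. -/
lemma abel_sum (B : ℕ) (x y : ℕ → ℂ) (hB : y B = 0) :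
    ∑ k ∈ Finset.range B, ((-1 : ℂ) ^ k / (k.factorial : ℂ)) * (x k + (k : ℂ) * y k + y (k + 1)) =
      ∑ k ∈ Finset.range B, ((-1 : ℂ) ^ k / (k.factorial : ℂ)) * x k := by
  have h1 : ∀ k, ((-1 : ℂ) ^ k / (k.factorial : ℂ)) * (x k + (k : ℂ) * y k + y (k + 1)) =
      ((-1 : ℂ) ^ k / (k.factorial : ℂ)) * x k +
        ((k : ℂ) * ((-1 : ℂ) ^ k / (k.factorial : ℂ)) * y k -
          ((k + 1 : ℕ) : ℂ) * ((-1 : ℂ) ^ (k + 1) / ((k + 1).factorial : ℂ)) * y (k + 1)) := by
    intro k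
    have := fac_succ k
    linear_combination (y (k + 1)) * this
  rw [Finset.sum_congr rfl fun k _ => h1 k, Finset.sum_add_distrib]
  rw [Finset.sum_range_sub' (fun k => (k : ℂ) * ((-1 : ℂ) ^ k / (k.factorial : ℂ)) * y k)]
  simp [hB]

section Lam

variable {N : ℕ} {f0 g : MvPolynomial (Fin n) ℂ} (hf0 : f0.IsWeightedHomogeneous a N)
  (hN : 1 ≤ N) (hg : Ge a (N + 1) g)
  {G : MvPolynomial (Fin n) ℂ →ₗ[ℂ] ℂ}

include hg

lemma Lam_stable (B B' j : ℕ) (hB : N * j < B) (hB' : N * j < B') :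
    Lam a N G g B j = Lam a N G g B' j := by
  wlog h : B ≤ B' generalizing B B'
  · exact (this B' B hB' hB (by omega)).symm
  refine LinearMap.ext fun φ => ?_
  rw [Lam_apply, Lam_apply]
  refine Finset.sum_subset (Finset.range_mono h) fun k _ hk => ?_
  have hk' : N * j < k := by
    have : B ≤ k := by simpa using hk
    omega
  have h1 : Ge a (k * (N + 1)) (φ * g ^ k) := by
    have := (Ge.zero φ).mul (hg.pow k)
    rwa [zero_add] at this
  rw [h1.cmp_eq_zero (by nlinarith), map_zero, mul_zero]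

lemma Lam_ge (B j w : ℕ) (hw : N * j < w) (φ : MvPolynomial (Fin n) ℂ) (hφ : Ge a w φ) :
    Lam a N G g B j φ = 0 := by
  rw [Lam_apply]
  refine Finset.sum_eq_zero fun k _ => ?_
  have h1 : Ge a (w + k * (N + 1)) (φ * g ^ k) := hφ.mul (hg.pow k)
  rw [h1.cmp_eq_zero (by nlinarith), map_zero, mul_zero]

variable (hG : ∀ (i : Fin n) (φ : MvPolynomial (Fin n) ℂ), G (pderiv i φ) = G (φ * pderiv i f0))

include hf0 hG

lemma Lam_mul (hN : 1 ≤ N) (B j : ℕ) (hB : N * (j + 1) + 1 < B) (φ : MvPolynomial (Fin n) ℂ) :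
    Lam a N G g B (j + 1) ((f0 + g) * φ) =
      ((j : ℂ) + (∑ i, (a i : ℂ)) / N) * Lam a N G g B j φ := by
  have hNC : (N : ℂ) ≠ 0 := by exact_mod_cast (by omega : N ≠ 0)
  set y : ℕ → ℂ := fun k => G (cmp a (N * (k + j)) (φ * g ^ k)) with hy
  have hyB : y B = 0 := by
    have h1 : Ge a (B * (N + 1)) (φ * g ^ B) := by
      have := (Ge.zero φ).mul (hg.pow B)
      rwa [zero_add] at this
    simp only [hy]
    rw [h1.cmp_eq_zero (by nlinarith), map_zero]
  rw [Lam_apply, Lam_apply, Finset.mul_sum]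
  have h2 : ∀ k, G (cmp a (N * (k + (j + 1))) ((f0 + g) * φ * g ^ k)) =
      ((j : ℂ) + (∑ i, (a i : ℂ)) / N) * y k + (k : ℂ) * y k + y (k + 1) := by
    intro k
    have e1 : (f0 + g) * φ * g ^ k = (φ * g ^ k) * f0 + φ * g ^ (k + 1) := by ring
    have e2 : N * (k + (j + 1)) = N * (k + j) + N := by ring
    have e3 : N * (k + 1 + j) = N * (k + j) + N := by ring
    rw [e1, map_add, map_add]
    simp only [hy]
    rw [e3, e2, G2 hf0 hG hN]
    push_cast
    field_simp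
    ring
  rw [Finset.sum_congr rfl fun k _ => by rw [h2 k]]
  rw [abel_sum B (fun k => ((j : ℂ) + (∑ i, (a i : ℂ)) / N) * y k) y hyB]
  refine Finset.sum_congr rfl fun k _ => ?_
  ring

lemma Lam_pderiv (B j : ℕ) (hB : N * (j + 1) + 1 < B) (i : Fin n)
    (φ : MvPolynomial (Fin n) ℂ) :
    Lam a N G g B (j + 1) (φ * pderiv i (f0 + g)) = Lam a N G g B j (pderiv i φ) := by
  -- `y k` for `k ≥ 1`
  set y : ℕ → ℂ := fun k => G (cmp a (N * (k + j)) (φ * pderiv i g * g ^ (k - 1))) with hy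
  have hyB : y B = 0 := by
    have h1 : Ge a ((B - 1) * (N + 1)) (φ * pderiv i g * g ^ (B - 1)) := by
      have := (Ge.zero (φ * pderiv i g)).mul (hg.pow (B - 1))
      rwa [zero_add] at this
    simp only [hy]
    obtain ⟨B', rfl⟩ : ∃ B', B = B' + 1 := ⟨B - 1, by omega⟩
    rw [h1.cmp_eq_zero (by simp only [Nat.add_sub_cancel]; nlinarith), map_zero]
  rw [Lam_apply, Lam_apply]
  have h2 : ∀ k, G (cmp a (N * (k + (j + 1))) (φ * pderiv i (f0 + g) * g ^ k)) =
      G (cmp a (N * (k + j)) (pderiv i φ * g ^ k)) + (k : ℂ) * y k + y (k + 1) := by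
    intro k
    have e1 : φ * pderiv i (f0 + g) * g ^ k = (φ * g ^ k) * pderiv i f0 +
        φ * pderiv i g * g ^ k := by
      rw [map_add]; ring
    have e2 : N * (k + (j + 1)) = N * (k + j) + N := by ring
    have e3 : N * (k + 1 + j) = N * (k + j) + N := by ring
    rw [e1, map_add, map_add]
    simp only [hy]
    rw [e3, e2, G1 hf0 hG, Nat.add_sub_cancel]
    congr 1
    rw [Derivation.leibniz, Derivation.leibniz_pow, smul_eq_mul, smul_eq_mul, smul_eq_mul,
      nsmul_eq_mul]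
    have e4 : φ * ((k : MvPolynomial (Fin n) ℂ) * (g ^ (k - 1) * pderiv i g)) +
        g ^ k * pderiv i φ = pderiv i φ * g ^ k + (k : ℂ) • (φ * pderiv i g * g ^ (k - 1)) := by
      rw [smul_eq_C_mul, map_natCast]; ring
    rw [e4, map_add, map_add, map_smul, map_smul, smul_eq_mul]
  rw [Finset.sum_congr rfl fun k _ => by rw [h2 k]]
  rw [abel_sum B (fun k => G (cmp a (N * (k + j)) (pderiv i φ * g ^ k))) y hyB]

end Lam

/-- A family of functionals representing integration of `φ (f0 + g) ^ (s - m)`. -/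
theorem exists_T (ha : ∀ i, 1 ≤ a i) (hn : 1 ≤ n) {N : ℕ} (hN : 1 ≤ N)
    {f0 g : MvPolynomial (Fin n) ℂ} (hf0 : f0.IsWeightedHomogeneous a N) (hg : Ge a (N + 1) g)
    {G : MvPolynomial (Fin n) ℂ →ₗ[ℂ] ℂ}
    (hG : ∀ (i : Fin n) (φ : MvPolynomial (Fin n) ℂ), G (pderiv i φ) = G (φ * pderiv i f0))
    (M : ℕ) :
    ∃ T : ℕ → MvPolynomial (Fin n) ℂ →ₗ[ℂ] ℂ,
      (∀ m < M, ∀ φ, T (m + 1) ((f0 + g) * φ) = T m φ) ∧
      (∀ m < M, ∀ i φ, T (m + 1) ((f0 + g) * pderiv i φ +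
        C (-(∑ i, (a i : ℂ)) / N - m) * (pderiv i (f0 + g) * φ)) = 0) ∧
      (∀ φ, T 0 ((f0 + g) * φ) = 0) ∧ T 0 1 = G 1 ∧
      ∀ w φ, N * M < w → Ge a w φ → T M φ = 0 := by
  have hNC : (N : ℂ) ≠ 0 := by exact_mod_cast (by omega : N ≠ 0)
  set σ : ℂ := (∑ i, (a i : ℂ)) / N with hσ
  have hpos : ∀ m : ℕ, (m : ℂ) + σ ≠ 0 := by
    intro m h
    have h1 : ((m * N + ∑ i, a i : ℕ) : ℂ) = 0 := by
      rw [hσ] at h
      field_simp at h
      push_cast
      linear_combination h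
    have h2 : m * N + ∑ i, a i = 0 := by exact_mod_cast h1
    have h3 : a ⟨0, hn⟩ ≤ ∑ i, a i :=
      Finset.single_le_sum (fun _ _ => Nat.zero_le _) (Finset.mem_univ (⟨0, hn⟩ : Fin n))
    have := ha ⟨0, hn⟩
    omega
  set c : ℕ → ℂ := fun m => ∏ j ∈ Finset.range m, ((j : ℂ) + σ)⁻¹ with hc
  have hcs : ∀ m, c (m + 1) * ((m : ℂ) + σ) = c m := by
    intro m
    simp only [hc]
    rw [Finset.prod_range_succ, mul_assoc, inv_mul_cancel₀ (hpos m), mul_one]
  set B : ℕ := N * (M + 1) + 2 with hB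
  have hBm : ∀ m < M, N * (m + 1) + 1 < B := by
    intro m hm
    have h1 : N * (m + 1) ≤ N * (M + 1) := Nat.mul_le_mul_left _ (by omega)
    omega
  refine ⟨fun m => c m • Lam a N G g B m, ?_, ?_, ?_, ?_, ?_⟩
  · intro m hm φ
    rw [LinearMap.smul_apply, LinearMap.smul_apply, Lam_mul hf0 hg hG hN B m (hBm m hm),
      smul_eq_mul, smul_eq_mul, ← hcs m]
    ring
  · intro m hm i φ
    have h1 := Lam_mul hf0 hg hG hN B m (hBm m hm) (pderiv i φ)
    have h2 := Lam_pderiv hf0 hg hG B m (hBm m hm) i φ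
    have e1 : C (-(∑ i, (a i : ℂ)) / N - m) * (pderiv i (f0 + g) * φ) =
        (-((m : ℂ) + σ)) • (φ * pderiv i (f0 + g)) := by
      rw [smul_eq_C_mul, hσ]
      have : -(∑ i, (a i : ℂ)) / N - m = -((m : ℂ) + (∑ i, (a i : ℂ)) / N) := by ring
      rw [this]; ring
    rw [LinearMap.smul_apply, e1, map_add, map_smul, h1, h2, smul_eq_mul, smul_eq_mul, ← hσ]
    ring
  · intro φ
    have h1 : Ge a (N + 0) ((f0 + g) * φ) :=
      ((Ge.of_homog hf0).add (hg.mono (Nat.le_succ _))).mul (Ge.zero φ)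
    rw [LinearMap.smul_apply, Lam_ge hg B 0 (N + 0) (by omega) _ h1, smul_zero]
  · rw [LinearMap.smul_apply, Lam_stable hg B 1 0 (by omega) (by omega), Lam_apply]
    have h1 : (c 0 : ℂ) = 1 := by simp [hc]
    have h2 : cmp a 0 (1 : MvPolynomial (Fin n) ℂ) = 1 :=
      (isWeightedHomogeneous_one ℂ a).weightedHomogeneousComponent_same
    rw [h1]
    simp only [Finset.range_one, Finset.sum_singleton, pow_zero, Nat.factorial_zero, Nat.cast_one,
      div_one, one_mul, mul_one, Nat.add_zero, Nat.mul_zero, smul_eq_mul]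
    rw [h2]
  · intro w φ hw hφ
    rw [LinearMap.smul_apply, Lam_ge hg B M w hw _ hφ, smul_zero]

/-- The conclusion from the functional equation modulo high weight. -/
theorem core_alg (ha : ∀ i, 1 ≤ a i) (hn : 1 ≤ n) {N : ℕ} (hN : 1 ≤ N)
    {f0 g : MvPolynomial (Fin n) ℂ} (hf0 : f0.IsWeightedHomogeneous a N) (hf00 : f0 ≠ 0)
    (hg : Ge a (N + 1) g)
    {G : MvPolynomial (Fin n) ℂ →ₗ[ℂ] ℂ}
    (hG : ∀ (i : Fin n) (φ : MvPolynomial (Fin n) ℂ), G (pderiv i φ) = G (φ * pderiv i f0))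
    (hG1 : G 1 ≠ 0) (M : ℕ) (T : Finset (List (Fin n) × ℕ)) (hT : ∀ t ∈ T, t.1.length ≤ M)
    (A : List (Fin n) × ℕ → MvPolynomial (Fin n) ℂ) (β : ℂ) (K : ℕ) (hK : N * M + N < K)
    (h : Ge a K ((∑ t ∈ T, A t * C ((-(∑ i, (a i : ℂ)) / N) ^ t.2) *
      Nw (f0 + g) (-(∑ i, (a i : ℂ)) / N) t.1 * (f0 + g) ^ (M - t.1.length) -
      C β * (f0 + g) ^ M) * (f0 + g))) : β = 0 := by
  classical
  obtain ⟨L, hL1, hL2, hL3, hL4, hL5⟩ := exists_T ha hn hN hf0 hg hG M
  set P := f0 + g with hP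
  set s0 : ℂ := -(∑ i, (a i : ℂ)) / N with hs0
  set E := ∑ t ∈ T, A t * C (s0 ^ t.2) * Nw P s0 t.1 * P ^ (M - t.1.length) - C β * P ^ M with hE
  -- `E` has only monomials of high weight
  have hEge : ∀ w, w + N < K → Ge a w E → Ge a (w + 1) E := by
    intro w hw hwE
    have h1 : cmp a (w + N) (E * P) = 0 := h.cmp_eq_zero hw
    rw [hP, mul_add, map_add, cmp_mul_homog w N E f0 hf0] at h1
    have h2 : Ge a (w + (N + 1)) (E * g) := hwE.mul hg
    rw [h2.cmp_eq_zero (by omega), add_zero] at h1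
    have h3 : cmp a w E = 0 := (mul_eq_zero.1 h1).resolve_right hf00
    intro m hm
    have h4 := hwE m hm
    rcases Nat.eq_or_lt_of_le h4 with h5 | h5
    · exfalso
      have h6 := congrArg (coeff m) h3
      rw [coeff_weightedHomogeneousComponent, if_pos h5.symm, coeff_zero] at h6
      exact (mem_support_iff.1 hm) h6
    · exact h5
  have hEge' : ∀ w, w + N ≤ K → Ge a w E := by
    intro w
    induction w with
    | zero => intro _; exact Ge.zero _
    | succ w ih => intro hw; exact hEge w (by omega) (ih (by omega))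
  have hE0 : L M E = 0 := hL5 (K - N) E (by omega) (hEge' (K - N) (by omega))
  -- powers
  have hpow : ∀ (m j : ℕ) (p : MvPolynomial (Fin n) ℂ), j + m ≤ M → L (j + m) (p * P ^ m) = L j p := by
    intro m
    induction m with
    | zero => intro j p _; simp
    | succ m ih =>
      intro j p hj
      have e1 : p * P ^ (m + 1) = P * (p * P ^ m) := by ring
      rw [← add_assoc, e1, hL1 (j + m) (by omega), ih j p (by omega)]
  have hNw : ∀ (w : List (Fin n)) (p : MvPolynomial (Fin n) ℂ), w.length ≤ M →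
      L w.length (p * Nw P s0 w) = 0 := by
    intro w
    induction w with
    | nil =>
      intro p _
      rw [Nw_nil, mul_comm]
      exact hL3 p
    | cons i w ih =>
      intro p hw
      rw [List.length_cons] at hw
      rw [List.length_cons]
      have h1 := hL2 w.length (by omega) i (p * Nw P s0 w)
      have h2 := hL1 w.length (by omega) (pderiv i p * Nw P s0 w)
      rw [ih _ (by omega)] at h2
      have e1 : p * Nw P s0 (i :: w) = (P * pderiv i (p * Nw P s0 w) +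
          C (s0 - w.length) * (pderiv i P * (p * Nw P s0 w))) -
          P * (pderiv i p * Nw P s0 w) := by
        rw [Nw_cons, Derivation.leibniz, smul_eq_mul, smul_eq_mul]
        ring
      rw [e1, map_sub, h1, h2, sub_zero]
  rw [hE, map_sub, map_sum] at hE0
  have h1 : ∑ t ∈ T, L M (A t * C (s0 ^ t.2) * Nw P s0 t.1 * P ^ (M - t.1.length)) = 0 := by
    refine Finset.sum_eq_zero fun t ht => ?_
    have hle := hT t ht
    have e2 : t.1.length + (M - t.1.length) = M := by omega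
    have h2 := hpow (M - t.1.length) t.1.length (A t * C (s0 ^ t.2) * Nw P s0 t.1) (by omega)
    rw [e2] at h2
    rw [h2]
    exact hNw t.1 _ hle
  have h2 : L M (C β * P ^ M) = β * G 1 := by
    have h3 := hpow M 0 (C β) (by omega)
    rw [zero_add] at h3
    rw [h3]
    have e3 : (C β : MvPolynomial (Fin n) ℂ) = β • 1 := by rw [smul_eq_C_mul, mul_one]
    rw [e3, map_smul, hL4, smul_eq_mul]
  rw [h1, h2, zero_sub, neg_eq_zero] at hE0
  exact (mul_eq_zero.1 hE0).resolve_right hG1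

end Pool.Agent.helper67.IF
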