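import Mathlib
import Pool.Agent.helper67.IF.Core

/-!
# The initial form method: analytic part
-/

set_option autoImplicit false

namespace Pool.Agent.helper67.IF

open MvPolynomial Filter Topology Asymptotics
open Pool.Agent.helper67.ND Pool.Agent.helper14.CND

variable {n : ℕ}

/-! ### Univariate polynomials which are `O(|t|^K)` -/

lemma poly_coeff_zero_of_isBigO (K : ℕ) (p : Polynomial ℂ)
    (h : (fun t : ℂ => p.eval t) =O[𝓝 0] (fun t : ℂ => ‖t‖ ^ K)) :
    ∀ j < K, p.coeff j = 0 := by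
  induction K with
  | zero => intro j hj; omega
  | succ K ih =>
    have hmono : (fun t : ℂ => ‖t‖ ^ (K + 1)) =O[𝓝 0] (fun t : ℂ => ‖t‖ ^ K) := by
      refine IsBigO.of_bound 1 ?_
      filter_upwards [Metric.ball_mem_nhds (0 : ℂ) one_pos] with t ht
      have ht' : ‖t‖ ≤ 1 := by simpa using (mem_ball_zero_iff.1 ht).le
      rw [one_mul, norm_pow, norm_pow, norm_norm]
      exact pow_le_pow_of_le_one (norm_nonneg _) ht' (Nat.le_succ _)
    have h0 := ih (h.trans hmono)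
    have hdvd : Polynomial.X ^ K ∣ p := Polynomial.X_pow_dvd_iff.2 h0
    obtain ⟨q, rfl⟩ := hdvd
    have hq0 : q.eval 0 = 0 := by
      have hcont : Tendsto (fun t : ℂ => q.eval t) (𝓝[≠] 0) (𝓝 (q.eval 0)) :=
        (q.continuous.tendsto 0).mono_left nhdsWithin_le_nhds
      obtain ⟨c, hc⟩ := h.bound
      have hb : ∀ᶠ t : ℂ in 𝓝[≠] 0, ‖q.eval t‖ ≤ c * ‖t‖ := by
        filter_upwards [hc.filter_mono nhdsWithin_le_nhds, self_mem_nhdsWithin] with t ht ht0
        have ht0' : 0 < ‖t‖ := norm_pos_iff.2 ht0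
        rw [Polynomial.eval_mul, Polynomial.eval_pow, Polynomial.eval_X, norm_mul, norm_pow,
          norm_pow, norm_norm, pow_succ] at ht
        have h1 : ‖t‖ ^ K * ‖q.eval t‖ ≤ ‖t‖ ^ K * (c * ‖t‖) := by
          calc ‖t‖ ^ K * ‖q.eval t‖ ≤ c * (‖t‖ ^ K * ‖t‖) := ht
            _ = ‖t‖ ^ K * (c * ‖t‖) := by ring
        exact le_of_mul_le_mul_left h1 (pow_pos ht0' K)
      have hlim : Tendsto (fun t : ℂ => q.eval t) (𝓝[≠] 0) (𝓝 0) := by
        refine squeeze_zero_norm' hb ?_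
        have : Tendsto (fun t : ℂ => c * ‖t‖) (𝓝 0) (𝓝 (c * ‖(0 : ℂ)‖)) := by
          exact (continuous_const.mul continuous_norm).tendsto 0
        rw [norm_zero, mul_zero] at this
        exact this.mono_left nhdsWithin_le_nhds
      exact tendsto_nhds_unique hcont hlim
    intro j hj
    rcases Nat.lt_succ_iff_lt_or_eq.1 hj with h1 | rfl
    · exact h0 j h1
    · rw [Polynomial.coeff_X_pow_mul']
      simp only [le_refl, if_true, Nat.sub_self]
      rw [Polynomial.coeff_zero_eq_eval_zero, hq0]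

/-! ### Weighted scaling -/

/-- the scaling `z ↦ (t ^ aᵢ zᵢ)` -/
def scal (a : Fin n → ℕ) (t : ℂ) (z : Fin n → ℂ) : Fin n → ℂ := fun i => t ^ a i * z i

lemma eval_scal_homog {a : Fin n → ℕ} {d : ℕ} {P : MvPolynomial (Fin n) ℂ}
    (hP : P.IsWeightedHomogeneous a d) (t : ℂ) (z : Fin n → ℂ) :
    eval (scal a t z) P = t ^ d * eval z P := by
  rw [eval_eq', eval_eq', Finset.mul_sum]
  refine Finset.sum_congr rfl fun m hm => ?_
  have h1 : ∑ i, a i * m i = d := by
    have h2 := hP (mem_support_iff.1 hm)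
    rw [← h2, Finsupp.weight_apply, Finsupp.sum_fintype _ _ (fun i => by simp)]
    exact Finset.sum_congr rfl fun i _ => by simp [mul_comm]
  simp only [scal, mul_pow, Finset.prod_mul_distrib, ← pow_mul]
  rw [Finset.prod_pow_eq_pow_sum, h1]
  ring

/-- The polynomial `t ↦ P (scal a t z)`. -/
noncomputable def scalP (a : Fin n → ℕ) (P : MvPolynomial (Fin n) ℂ) (z : Fin n → ℂ) :
    Polynomial ℂ :=
  ∑ m ∈ P.support, Polynomial.C (coeff m P * ∏ i, z i ^ m i) * Polynomial.X ^ (Finsupp.weight a m)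

lemma eval_scalP (a : Fin n → ℕ) (P : MvPolynomial (Fin n) ℂ) (z : Fin n → ℂ) (t : ℂ) :
    (scalP a P z).eval t = eval (scal a t z) P := by
  rw [scalP, Polynomial.eval_finset_sum, eval_eq']
  refine Finset.sum_congr rfl fun m _ => ?_
  have h1 : Finsupp.weight a m = ∑ i, a i * m i := by
    rw [Finsupp.weight_apply, Finsupp.sum_fintype _ _ (fun i => by simp)]
    exact Finset.sum_congr rfl fun i _ => by simp [mul_comm]
  simp only [Polynomial.eval_mul, Polynomial.eval_C, Polynomial.eval_pow, Polynomial.eval_X, scal,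
    mul_pow, Finset.prod_mul_distrib, ← pow_mul]
  rw [Finset.prod_pow_eq_pow_sum, h1]
  ring

lemma coeff_scalP (a : Fin n → ℕ) (P : MvPolynomial (Fin n) ℂ) (z : Fin n → ℂ) (j : ℕ) :
    (scalP a P z).coeff j = eval z (weightedHomogeneousComponent a j P) := by
  classical
  rw [scalP, Polynomial.finset_sum_coeff,
    weightedHomogeneousComponent_apply, map_sum, Finset.sum_filter]
  refine Finset.sum_congr rfl fun m _ => ?_
  rw [Polynomial.coeff_C_mul_X_pow]
  by_cases h : Finsupp.weight a m = j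
  · rw [if_pos h, if_pos h.symm, eval_monomial, Finsupp.prod_fintype _ _ (fun i => by simp)]
  · rw [if_neg h, if_neg (Ne.symm h)]

lemma Ge_of_scal {a : Fin n → ℕ} (K : ℕ) (P : MvPolynomial (Fin n) ℂ)
    (h : ∀ z : Fin n → ℂ, (fun t : ℂ => eval (scal a t z) P) =O[𝓝 0] (fun t : ℂ => ‖t‖ ^ K)) :
    Ge a K P := by
  classical
  intro m hm
  by_contra hlt
  push Not at hlt
  have h1 : weightedHomogeneousComponent a (Finsupp.weight a m) P = 0 := by
    refine MvPolynomial.funext fun z => ?_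
    rw [map_zero, ← coeff_scalP]
    refine poly_coeff_zero_of_isBigO K _ ?_ _ hlt
    have := h z
    simpa only [eval_scalP] using this
  have h2 := congrArg (coeff m) h1
  rw [coeff_weightedHomogeneousComponent, if_pos rfl, coeff_zero] at h2
  exact (mem_support_iff.1 hm) h2

lemma norm_scal_le {a : Fin n → ℕ} (ha : ∀ i, 1 ≤ a i) {t : ℂ} (ht : ‖t‖ ≤ 1) (z : Fin n → ℂ) :
    ‖scal a t z‖ ≤ ‖t‖ * ‖z‖ := by
  rw [pi_norm_le_iff_of_nonneg (mul_nonneg (norm_nonneg _) (norm_nonneg _))]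
  intro i
  simp only [scal, norm_mul, norm_pow]
  refine mul_le_mul ?_ (norm_le_pi_norm z i) (norm_nonneg _) (norm_nonneg _)
  calc ‖t‖ ^ a i ≤ ‖t‖ ^ 1 := pow_le_pow_of_le_one (norm_nonneg _) ht (ha i)
    _ = ‖t‖ := pow_one _

lemma tendsto_scal {a : Fin n → ℕ} (ha : ∀ i, 1 ≤ a i) (z : Fin n → ℂ) :
    Tendsto (fun t : ℂ => scal a t z) (𝓝 0) (𝓝 0) := by
  rw [tendsto_pi_nhds]
  intro i
  have : ContinuousAt (fun t : ℂ => t ^ a i * z i) 0 := by fun_prop
  have h2 : (0 : ℂ) ^ a i * z i = 0 := by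
    rw [zero_pow (by have := ha i; omega), zero_mul]
  have h3 := this.tendsto
  rw [h2] at h3
  exact h3

lemma isBigO_scal {a : Fin n → ℕ} (ha : ∀ i, 1 ≤ a i) {g : (Fin n → ℂ) → ℂ} {K : ℕ}
    (h : g =O[𝓝 0] (fun z : Fin n → ℂ => ‖z‖ ^ K)) (z : Fin n → ℂ) :
    (fun t : ℂ => g (scal a t z)) =O[𝓝 0] (fun t : ℂ => ‖t‖ ^ K) := by
  have h1 : (fun t : ℂ => g (scal a t z)) =O[𝓝 0] (fun t : ℂ => ‖scal a t z‖ ^ K) :=
    h.comp_tendsto (tendsto_scal ha z)
  refine h1.trans (IsBigO.of_bound (‖z‖ ^ K) ?_)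
  filter_upwards [Metric.ball_mem_nhds (0 : ℂ) one_pos] with t ht
  have ht' : ‖t‖ ≤ 1 := by simpa using (mem_ball_zero_iff.1 ht).le
  rw [norm_pow, norm_pow, norm_norm, norm_norm, ← mul_pow, mul_comm ‖z‖]
  exact pow_le_pow_left₀ (norm_nonneg _) (norm_scal_le ha ht' z) K

/-! ### Approximation by polynomials -/

/-- `g` is analytic at `0` and equal to the polynomial `P` up to `O(‖z‖^K)`. -/
def Apx (K : ℕ) (g : (Fin n → ℂ) → ℂ) (P : MvPolynomial (Fin n) ℂ) : Prop :=
  AnalyticAt ℂ g 0 ∧ (fun z => g z - eval z P) =O[𝓝 0] (fun z : Fin n → ℂ => ‖z‖ ^ K)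

lemma isBigO_norm_pow_mono {K K' : ℕ} (h : K' ≤ K) :
    (fun z : Fin n → ℂ => ‖z‖ ^ K) =O[𝓝 0] (fun z : Fin n → ℂ => ‖z‖ ^ K') := by
  refine IsBigO.of_bound 1 ?_
  filter_upwards [Metric.ball_mem_nhds (0 : Fin n → ℂ) one_pos] with z hz
  have hz' : ‖z‖ ≤ 1 := by simpa using (mem_ball_zero_iff.1 hz).le
  rw [one_mul, norm_pow, norm_pow, norm_norm]
  exact pow_le_pow_of_le_one (norm_nonneg _) hz' h

lemma analyticAt_eval (P : MvPolynomial (Fin n) ℂ) (x : Fin n → ℂ) :
    AnalyticAt ℂ (fun z : Fin n → ℂ => eval z P) x := by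
  induction P using MvPolynomial.induction_on with
  | C a => simpa using analyticAt_const
  | add p q hp hq =>
    simp only [map_add]
    exact hp.add hq
  | mul_X p i hp =>
    simp only [map_mul, eval_X]
    refine hp.mul ?_
    exact ((ContinuousLinearMap.proj (R := ℂ) (φ := fun _ : Fin n => ℂ) i).analyticAt x)

lemma Apx.mono {K K' : ℕ} {g : (Fin n → ℂ) → ℂ} {P : MvPolynomial (Fin n) ℂ} (h : Apx K g P)
    (hK : K' ≤ K) : Apx K' g P :=
  ⟨h.1, h.2.trans (isBigO_norm_pow_mono hK)⟩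

lemma Apx.poly (K : ℕ) (P : MvPolynomial (Fin n) ℂ) : Apx K (fun z => eval z P) P := by
  refine ⟨analyticAt_eval P 0, ?_⟩
  simp only [sub_self]
  exact isBigO_zero _ _

lemma Apx.add {K : ℕ} {g g' : (Fin n → ℂ) → ℂ} {P P' : MvPolynomial (Fin n) ℂ}
    (h : Apx K g P) (h' : Apx K g' P') : Apx K (fun z => g z + g' z) (P + P') := by
  refine ⟨h.1.add h'.1, ?_⟩
  refine (h.2.add h'.2).congr_left fun z => ?_
  simp only [map_add]; ring

lemma Apx.sub {K : ℕ} {g g' : (Fin n → ℂ) → ℂ} {P P' : MvPolynomial (Fin n) ℂ}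
    (h : Apx K g P) (h' : Apx K g' P') : Apx K (fun z => g z - g' z) (P - P') := by
  refine ⟨h.1.sub h'.1, ?_⟩
  refine (h.2.sub h'.2).congr_left fun z => ?_
  simp only [map_sub]; ring

lemma Apx.mul {K : ℕ} {g g' : (Fin n → ℂ) → ℂ} {P P' : MvPolynomial (Fin n) ℂ}
    (h : Apx K g P) (h' : Apx K g' P') : Apx K (fun z => g z * g' z) (P * P') := by
  refine ⟨h.1.mul h'.1, ?_⟩
  have hb : g' =O[𝓝 0] (fun _ : Fin n → ℂ => (1 : ℝ)) := h'.1.continuousAt.isBigO_one ℝ
  have hb' : (fun z => eval z P) =O[𝓝 0] (fun _ : Fin n → ℂ => (1 : ℝ)) :=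
    (analyticAt_eval P 0).continuousAt.isBigO_one ℝ
  have h1 := h.2.mul hb
  have h2 := hb'.mul h'.2
  simp only [mul_one] at h1
  simp only [one_mul] at h2
  refine (h1.add h2).congr_left fun z => ?_
  simp only [map_mul]; ring

lemma Apx.const (K : ℕ) (c : ℂ) : Apx K (fun _ : Fin n → ℂ => c) (C c) := by
  have := Apx.poly (n := n) K (C c)
  simpa using this

lemma Apx.pow {K : ℕ} {g : (Fin n → ℂ) → ℂ} {P : MvPolynomial (Fin n) ℂ}
    (h : Apx K g P) (m : ℕ) : Apx K (fun z => g z ^ m) (P ^ m) := by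
  induction m with
  | zero => simpa using Apx.const (n := n) K 1
  | succ m ih =>
    simp only [pow_succ]
    exact ih.mul h

lemma Apx.sum {K : ℕ} {σ : Type} (s : Finset σ) {g : σ → (Fin n → ℂ) → ℂ}
    {P : σ → MvPolynomial (Fin n) ℂ} (h : ∀ t ∈ s, Apx K (g t) (P t)) :
    Apx K (fun z => ∑ t ∈ s, g t z) (∑ t ∈ s, P t) := by
  classical
  induction s using Finset.induction_on with
  | empty => simpa using Apx.const (n := n) K 0
  | insert x s hx ih =>
    simp only [Finset.sum_insert hx]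
    exact (h x (Finset.mem_insert_self _ _)).add
      (ih fun t ht => h t (Finset.mem_insert_of_mem ht))

lemma Apx.exists {g : (Fin n → ℂ) → ℂ} (h : AnalyticAt ℂ g 0) (K : ℕ) :
    ∃ P : MvPolynomial (Fin n) ℂ, Apx K g P := by
  obtain ⟨p, hp⟩ := h
  refine ⟨∑ k ∈ Finset.range K, homPart (p k), ⟨p, hp⟩, ?_⟩
  have h1 := hp.isBigO_sub_partialSum_pow K
  simp only [zero_add] at h1
  refine h1.congr_left fun z => ?_
  rw [map_sum, FormalMultilinearSeries.partialSum]
  simp only [eval_homPart]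

/-- Derivative of a germ which is `O(‖z‖^(K+1))`. -/
lemma isBigO_deriv {g : (Fin n → ℂ) → ℂ} (hg : AnalyticAt ℂ g 0) {K : ℕ}
    (h : g =O[𝓝 0] (fun z : Fin n → ℂ => ‖z‖ ^ (K + 1))) (i : Fin n) :
    (fun z => fderiv ℂ g z (Pi.single i 1)) =O[𝓝 0] (fun z : Fin n → ℂ => ‖z‖ ^ K) := by
  obtain ⟨c, hc⟩ := h.bound
  have h1 : ∀ᶠ z in 𝓝 (0 : Fin n → ℂ), AnalyticAt ℂ g z := hg.eventually_analyticAt
  obtain ⟨r, hr, hball⟩ := Metric.eventually_nhds_iff_ball.1 (hc.and h1)
  set c' := max c 0 with hc'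
  have hcc : ∀ z ∈ Metric.ball (0 : Fin n → ℂ) r, ‖g z‖ ≤ c' * ‖z‖ ^ (K + 1) := by
    intro z hz
    have h2 := (hball z hz).1
    rw [norm_pow, norm_norm] at h2
    exact h2.trans (mul_le_mul_of_nonneg_right (le_max_left _ _) (pow_nonneg (norm_nonneg _) _))
  refine IsBigO.of_bound (c' * 2 ^ (K + 1) + ‖fderiv ℂ g 0 (Pi.single i 1)‖) ?_
  have hev : ∀ᶠ z in 𝓝 (0 : Fin n → ℂ), z ∈ Metric.ball (0 : Fin n → ℂ) (r / 2) :=
    Metric.ball_mem_nhds _ (by linarith)
  filter_upwards [hev] with z hz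
  rw [norm_pow, norm_norm]
  by_cases hz0 : z = 0
  · subst hz0
    rcases Nat.eq_zero_or_pos K with rfl | hK
    · rw [pow_zero, mul_one]
      have : 0 ≤ c' * 2 ^ (0 + 1) := mul_nonneg (le_max_right _ _) (by norm_num)
      linarith
    · have h3 : HasFDerivAt g (0 : (Fin n → ℂ) →L[ℂ] ℂ) 0 := by
        refine IsBigO.hasFDerivAt (n := K + 1) ?_ (by omega)
        simpa using h
      rw [h3.fderiv]
      simp only [zero_apply, norm_zero]
      positivity
  · have hzpos : 0 < ‖z‖ := norm_pos_iff.2 hz0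
    have hzr : ‖z‖ < r / 2 := by simpa using hz
    have hin : ∀ w : ℂ, ‖w‖ ≤ ‖z‖ → z + w • (Pi.single i 1 : Fin n → ℂ) ∈
        Metric.ball (0 : Fin n → ℂ) r ∧ ‖z + w • (Pi.single i 1 : Fin n → ℂ)‖ ≤ 2 * ‖z‖ := by
      intro w hw
      have h4 : ‖z + w • (Pi.single i 1 : Fin n → ℂ)‖ ≤ 2 * ‖z‖ := by
        refine (norm_add_le _ _).trans ?_
        rw [norm_smul, Pi.norm_single, norm_one, mul_one]
        linarith
      refine ⟨?_, h4⟩
      rw [mem_ball_zero_iff]
      linarith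
    set φ : ℂ → ℂ := fun w => g (z + w • (Pi.single i 1 : Fin n → ℂ)) with hφ
    have hdiff : ∀ w : ℂ, ‖w‖ ≤ ‖z‖ → DifferentiableAt ℂ φ w := by
      intro w hw
      have h5 := ((hball _ (hin w hw).1).2).differentiableAt
      refine h5.comp w ?_
      fun_prop
    have hderiv : deriv φ 0 = fderiv ℂ g z (Pi.single i 1) := by
      have h6 : HasFDerivAt g (fderiv ℂ g z) (z + (0 : ℂ) • (Pi.single i 1 : Fin n → ℂ)) := by
        rw [zero_smul, add_zero]
        have hzin : z ∈ Metric.ball (0 : Fin n → ℂ) r := by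
          rw [mem_ball_zero_iff]; linarith
        exact ((hball z hzin).2).differentiableAt.hasFDerivAt
      have h7 : HasDerivAt (fun w : ℂ => z + w • (Pi.single i 1 : Fin n → ℂ))
          (Pi.single i 1 : Fin n → ℂ) 0 := by
        have := ((hasDerivAt_id (0 : ℂ)).smul_const (Pi.single i 1 : Fin n → ℂ)).const_add z
        simpa using this
      exact (h6.comp_hasDerivAt (0 : ℂ) h7).deriv
    have hcau : ‖deriv φ 0‖ ≤ (c' * (2 * ‖z‖) ^ (K + 1)) / ‖z‖ := by
      refine Complex.norm_deriv_le_of_forall_mem_sphere_norm_le hzpos ?_ ?_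
      · constructor
        · intro w hw
          exact (hdiff w (by simpa using (mem_ball_zero_iff.1 hw).le)).differentiableWithinAt
        · intro w hw
          have hw' : ‖w‖ ≤ ‖z‖ := by
            have := Metric.closure_ball_subset_closedBall hw
            simpa using this
          exact (hdiff w hw').continuousAt.continuousWithinAt
      · intro w hw
        have hw' : ‖w‖ ≤ ‖z‖ := by
          have := mem_sphere_zero_iff_norm.1 hw
          exact this.le
        refine (hcc _ (hin w hw').1).trans ?_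
        exact mul_le_mul_of_nonneg_left
          (pow_le_pow_left₀ (norm_nonneg _) (hin w hw').2 _) (le_max_right _ _)
    rw [← hderiv]
    refine hcau.trans ?_
    have h8 : c' * (2 * ‖z‖) ^ (K + 1) / ‖z‖ = c' * 2 ^ (K + 1) * ‖z‖ ^ K := by
      rw [mul_pow, pow_succ ‖z‖ K]
      field_simp
    rw [h8]
    refine mul_le_mul_of_nonneg_right ?_ (pow_nonneg (norm_nonneg _) _)
    have : 0 ≤ ‖fderiv ℂ g 0 (Pi.single i 1)‖ := norm_nonneg _
    linarith

lemma Apx.deriv {K : ℕ} {g : (Fin n → ℂ) → ℂ} {P : MvPolynomial (Fin n) ℂ}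
    (h : Apx (K + 1) g P) (i : Fin n) :
    Apx K (fun z => fderiv ℂ g z (Pi.single i 1)) (pderiv i P) := by
  refine ⟨?_, ?_⟩
  · exact ((ContinuousLinearMap.apply ℂ ℂ (Pi.single i 1 : Fin n → ℂ)).analyticAt
      (fderiv ℂ g 0)).comp h.1.fderiv
  · have h1 := isBigO_deriv (h.1.sub (analyticAt_eval P 0)) (K := K) h.2 i
    refine h1.congr' ?_ EventuallyEq.rfl
    filter_upwards [h.1.eventually_analyticAt] with z hz
    have h2 : fderiv ℂ (g - fun z => eval z P) z =
        fderiv ℂ g z - fderiv ℂ (fun z => eval z P) z :=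
      fderiv_sub hz.differentiableAt (differentiableAt_eval P z)
    rw [h2, sub_apply, fderiv_eval]

end Pool.Agent.helper67.IF
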