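import Mathlib
import Pool.Agent.helper67.IF.Taylor

/-!
# The initial form theorem
-/

set_option autoImplicit false

namespace Pool.Agent.helper67.IF

open MvPolynomial Filter Topology Asymptotics
open Pool.Agent.helper67.ND Pool.Agent.helper14.CND

variable {n : ℕ}

/-- The numerators of the iterated twisted derivatives, for germs. -/
noncomputable def Nf (f : (Fin n → ℂ) → ℂ) (s : ℂ) : List (Fin n) → (Fin n → ℂ) → ℂ
  | [] => f
  | i :: w => fun z => f z * fderiv ℂ (Nf f s w) z (Pi.single i 1) +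
      (s - (w.length : ℂ)) * (fderiv ℂ f z (Pi.single i 1) * Nf f s w z)

lemma Nf_apx {f : (Fin n → ℂ) → ℂ} {P : MvPolynomial (Fin n) ℂ} (s : ℂ) (w : List (Fin n)) :
    ∀ K : ℕ, Apx (K + w.length) f P → Apx K (Nf f s w) (Nw P s w) := by
  induction w with
  | nil => intro K h; simpa [Nf, Nw_nil] using h
  | cons i w ih =>
    intro K h
    rw [List.length_cons] at h
    have h1 : Apx (K + 1) (Nf f s w) (Nw P s w) := ih (K + 1) (h.mono (by omega))
    have h2 : Apx K f P := h.mono (by omega)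
    have h3 : Apx (K + 1) f P := h.mono (by omega)
    rw [Nw_cons]
    exact (h2.mul (h1.deriv i)).add ((Apx.const K _).mul ((h3.deriv i).mul (h1.mono (by omega))))

lemma Nf_analytic {f : (Fin n → ℂ) → ℂ} (hf : AnalyticAt ℂ f 0) (s : ℂ) (w : List (Fin n)) :
    AnalyticAt ℂ (Nf f s w) 0 := by
  obtain ⟨P, hP⟩ := Apx.exists hf (0 + w.length)
  exact (Nf_apx s w 0 hP).1

lemma fderiv_quot {g f : (Fin n → ℂ) → ℂ} {z : Fin n → ℂ} (hg : DifferentiableAt ℂ g z)
    (hf : DifferentiableAt ℂ f z) (hz : f z ≠ 0) (k : ℕ) (v : Fin n → ℂ) :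
    fderiv ℂ (fun y => g y / f y ^ k) z v =
      (f z * fderiv ℂ g z v - k * (fderiv ℂ f z v * g z)) / f z ^ (k + 1) := by
  have h1 : HasDerivAt (fun u : ℂ => (u ^ k)⁻¹)
      (-(k * (f z) ^ (k - 1)) / ((f z) ^ k) ^ 2) (f z) :=
    (hasDerivAt_pow k (f z)).fun_inv (pow_ne_zero _ hz)
  have h2 := h1.comp_hasFDerivAt z hf.hasFDerivAt
  have h3 := hg.hasFDerivAt.mul h2
  have e : (fun y => g y / f y ^ k) = g * ((fun u : ℂ => (u ^ k)⁻¹) ∘ f) := by
    funext y; simp [div_eq_mul_inv]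
  rw [e, h3.fderiv]
  simp only [add_apply, smul_apply, smul_eq_mul, Function.comp]
  rcases Nat.eq_zero_or_pos k with rfl | hk
  · simp
    field_simp
  · obtain ⟨m, rfl⟩ : ∃ m, k = m + 1 := ⟨k - 1, by omega⟩
    simp only [Nat.add_sub_cancel]
    field_simp
    ring

lemma foldr_nabla_Nf {f : (Fin n → ℂ) → ℂ} (hf : AnalyticAt ℂ f 0) (s : ℂ) (w : List (Fin n)) :
    ∀ᶠ z in 𝓝 (0 : Fin n → ℂ), f z ≠ 0 →
      (w.foldr (nabla f s) f) z = Nf f s w z / f z ^ w.length := by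
  induction w with
  | nil => exact Eventually.of_forall fun z _ => by simp [Nf]
  | cons i w ih =>
    filter_upwards [ih.eventually_nhds, hf.eventually_analyticAt,
      (Nf_analytic hf s w).eventually_analyticAt] with z h1 h2 h3 hz
    have hopen : ∀ᶠ y in 𝓝 z, f y ≠ 0 := h2.continuousAt.eventually_ne hz
    have hev : (w.foldr (nabla f s) f) =ᶠ[𝓝 z] fun y => Nf f s w y / f y ^ w.length := by
      filter_upwards [h1, hopen] with y hy hy' using hy hy'
    have hfd := fderiv_quot h3.differentiableAt h2.differentiableAt hz w.length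
      (Pi.single i 1)
    rw [← hev.fderiv_eq] at hfd
    rw [List.foldr_cons]
    simp only [nabla]
    rw [hfd, hev.self_of_nhds]
    simp only [Nf, List.length_cons]
    field_simp
    ring

/-- The functional equation without denominators. -/
lemma bernstein_identity {f : (Fin n → ℂ) → ℂ} (hf : AnalyticAt ℂ f 0) {b : Polynomial ℂ}
    (hb : IsBernstein f b) :
    ∃ (T : Finset (List (Fin n) × ℕ)) (A : List (Fin n) × ℕ → (Fin n → ℂ) → ℂ) (M : ℕ),
      (∀ t ∈ T, AnalyticAt ℂ (A t) 0) ∧ (∀ t ∈ T, t.1.length ≤ M) ∧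
      ∀ s : ℂ, ∀ᶠ z in 𝓝 (0 : Fin n → ℂ),
        (∑ t ∈ T, A t z * s ^ t.2 * Nf f s t.1 z * f z ^ (M - t.1.length) -
          b.eval s * f z ^ M) * f z = 0 := by
  obtain ⟨T, A, hA, hev⟩ := hb
  set M : ℕ := T.sup (fun t => t.1.length) with hM
  have hlen : ∀ t ∈ T, t.1.length ≤ M :=
    fun t ht => Finset.le_sup (f := fun t => t.1.length) ht
  refine ⟨T, A, M, hA, hlen, fun s => ?_⟩
  have h1 : ∀ᶠ z in 𝓝 (0 : Fin n → ℂ), ∀ t ∈ T, f z ≠ 0 →
      (t.1.foldr (nabla f s) f) z = Nf f s t.1 z / f z ^ t.1.length :=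
    (Finset.eventually_all T).2 fun t _ => foldr_nabla_Nf hf s t.1
  filter_upwards [hev, h1] with z h2 h3
  by_cases hz : f z = 0
  · rw [hz, mul_zero]
  · have h4 := h2 hz s
    rw [← h4, Finset.sum_mul, ← Finset.sum_sub_distrib, Finset.sum_eq_zero, zero_mul]
    intro t ht
    rw [sub_eq_zero, h3 t ht hz]
    have e1 : f z ^ M = f z ^ (M - t.1.length) * f z ^ t.1.length := by
      rw [← pow_add]; congr 1; have := hlen t ht; omega
    rw [e1]
    have hz' : f z ^ t.1.length ≠ 0 := pow_ne_zero _ hz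
    field_simp

/-- The initial form of the germ `f` with respect to the weights `a` is `f0`, of weight `N`:
`f (t ^ a₁ z₁, …, t ^ aₙ zₙ) = t ^ N f0 (z) + O (t ^ (N + 1))` for every `z`. -/
def HasInitialForm (a : Fin n → ℕ) (N : ℕ) (f : (Fin n → ℂ) → ℂ) (f0 : MvPolynomial (Fin n) ℂ) :
    Prop :=
  ∀ z : Fin n → ℂ, (fun t : ℂ => f (fun i => t ^ a i * z i) - t ^ N * eval z f0) =O[𝓝 0]
    (fun t : ℂ => ‖t‖ ^ (N + 1))

/-- `f0` has a Stokes functional which does not vanish at `1`: a linear functional `G` on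
polynomials with `G (∂ᵢ φ) = G (φ ∂ᵢ f0)`. -/
def HasStokes {σ : Type} (f0 : MvPolynomial σ ℂ) : Prop :=
  ∃ G : MvPolynomial σ ℂ →ₗ[ℂ] ℂ,
    (∀ (i : σ) (φ : MvPolynomial σ ℂ), G (pderiv i φ) = G (φ * pderiv i f0)) ∧ G 1 ≠ 0

/-- **Initial form theorem.** -/
theorem initial_form (hn : 1 ≤ n) {a : Fin n → ℕ} (ha : ∀ i, 1 ≤ a i) {N : ℕ}
    {f : (Fin n → ℂ) → ℂ} (hf : AnalyticAt ℂ f 0) {f0 : MvPolynomial (Fin n) ℂ}
    (hf0 : f0.IsWeightedHomogeneous a N) (hin : HasInitialForm a N f f0) (hst : HasStokes f0)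
    {b : Polynomial ℂ} (hb : IsBernstein f b) : b.eval (-(∑ i, (a i : ℂ)) / N) = 0 := by
  obtain ⟨G, hG, hG1⟩ := hst
  -- `f0` is not constant
  have hex : ∃ i, pderiv i f0 ≠ 0 := by
    by_contra hcon
    push Not at hcon
    apply hG1
    have h1 := hG ⟨0, hn⟩ (X ⟨0, hn⟩)
    rw [pderiv_X_self, hcon, mul_zero, map_zero] at h1
    exact h1
  have hN : 1 ≤ N := by
    obtain ⟨i, hi⟩ := hex
    by_contra hlt
    exact hi (pderiv_eq_zero_of_lt hf0 i (by have := ha i; omega))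
  have hf00 : f0 ≠ 0 := by
    rintro rfl
    obtain ⟨i, hi⟩ := hex
    exact hi (by simp)
  obtain ⟨T, A, M, hA, hlen, hid⟩ := bernstein_identity hf hb
  set s : ℂ := -(∑ i, (a i : ℂ)) / N with hs
  set K : ℕ := N * M + N + 1 with hK
  obtain ⟨P, hP⟩ := Apx.exists hf (K + M)
  have hA' : ∀ t : List (Fin n) × ℕ, ∃ Q : MvPolynomial (Fin n) ℂ, t ∈ T → Apx K (A t) Q := by
    intro t
    by_cases ht : t ∈ T
    · obtain ⟨Q, hQ⟩ := Apx.exists (hA t ht) K
      exact ⟨Q, fun _ => hQ⟩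
    · exact ⟨0, fun h => absurd h ht⟩
  choose Q hQ using hA'
  have hg : Ge a (N + 1) (P - f0) := by
    refine Ge_of_scal (N + 1) _ fun z => ?_
    have h1 : (fun t : ℂ => f (scal a t z) - eval (scal a t z) P) =O[𝓝 0]
        (fun t : ℂ => ‖t‖ ^ (N + 1)) := by
      refine isBigO_scal ha (g := fun z => f z - eval z P) ?_ z
      exact hP.2.trans (isBigO_norm_pow_mono (by
        have : N * 0 ≤ N * M := Nat.mul_le_mul_left _ (Nat.zero_le _)
        omega))
    have h2 := hin z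
    refine (h2.sub h1).congr_left fun t => ?_
    have e : (fun i => t ^ a i * z i) = scal a t z := rfl
    rw [map_sub, eval_scal_homog hf0]
    change (f (fun i => t ^ a i * z i) - t ^ N * eval z f0) -
      (f (scal a t z) - eval (scal a t z) P) = _
    rw [e]
    ring
  have hPf : f0 + (P - f0) = P := by ring
  refine core_alg ha hn hN hf0 hf00 hg hG hG1 M T hlen Q (b.eval s) K (by omega) ?_
  rw [hPf, ← hs]
  have h5 : Apx K (fun z => (∑ t ∈ T, A t z * s ^ t.2 * Nf f s t.1 z * f z ^ (M - t.1.length) -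
          b.eval s * f z ^ M) * f z) ((∑ t ∈ T, Q t * C (s ^ t.2) *
      Nw P s t.1 * P ^ (M - t.1.length) - C (b.eval s) * P ^ M) * P) := by
    have hfP : Apx K f P := hP.mono (by omega)
    refine (((Apx.sum T fun t ht => ?_).sub ((Apx.const K _).mul (hfP.pow M)))).mul hfP
    refine (((hQ t ht).mul (Apx.const K _)).mul (Nf_apx s t.1 K (hP.mono ?_))).mul (hfP.pow _)
    have := hlen t ht
    omega
  refine Ge_of_scal K _ fun z => ?_
  have h6 : (fun y : Fin n → ℂ => eval y ((∑ t ∈ T, Q t * C (s ^ t.2) *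
      Nw P s t.1 * P ^ (M - t.1.length) - C (b.eval s) * P ^ M) * P)) =O[𝓝 0]
      (fun y : Fin n → ℂ => ‖y‖ ^ K) := by
    refine h5.2.neg_left.congr' ?_ EventuallyEq.rfl
    filter_upwards [hid s] with y hy
    rw [hy]; ring
  exact isBigO_scal ha h6 z

end Pool.Agent.helper67.IF
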