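import Mathlib
import Pool.Agent.helper67.IF.Main

/-!
# Stokes functionals: simplices, sums, suspensions
-/

set_option autoImplicit false

namespace Pool.Agent.helper67.IF

open MvPolynomial

/-- A linear functional given by its values on monomials. -/
noncomputable def LM {σ : Type} (g : (σ →₀ ℕ) → ℂ) : MvPolynomial σ ℂ →ₗ[ℂ] ℂ :=
  (basisMonomials σ ℂ).constr ℂ g

lemma LM_monomial {σ : Type} (g : (σ →₀ ℕ) → ℂ) (m : σ →₀ ℕ) (c : ℂ) :
    LM g (monomial m c) = c * g m := by
  have h1 : (monomial m c : MvPolynomial σ ℂ) = c • (basisMonomials σ ℂ) m := by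
    rw [coe_basisMonomials, smul_monomial, smul_eq_mul, mul_one]
  rw [h1, map_smul, LM, Module.Basis.constr_basis, smul_eq_mul]

/-- It is enough to check the Stokes relation on monomials. -/
lemma hasStokes_of_monomial {σ : Type} (f0 : MvPolynomial σ ℂ) (G : MvPolynomial σ ℂ →ₗ[ℂ] ℂ)
    (h : ∀ (i : σ) (u : σ →₀ ℕ),
      G (pderiv i (monomial u 1)) = G (monomial u 1 * pderiv i f0)) (h1 : G 1 ≠ 0) :
    HasStokes f0 := by
  refine ⟨G, fun i φ => ?_, h1⟩
  induction φ using MvPolynomial.induction_on' with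
  | monomial m c =>
    have e : (monomial m c : MvPolynomial σ ℂ) = c • monomial m 1 := by
      rw [smul_monomial, smul_eq_mul, mul_one]
    rw [e, Derivation.map_smul, map_smul, h, smul_mul_assoc, map_smul]
  | add p q hp hq => rw [map_add, map_add, add_mul, map_add, hp, hq]

/-- Solutions of a first order recursion over `ℤ`. -/
lemma exists_rec (r : ℤ → ℂ) (h : ∀ k : ℤ, k < 0 → r k ≠ 0) :
    ∃ w : ℤ → ℂ, w 0 = 1 ∧ ∀ k, w (k + 1) = r k * w k := by
  refine ⟨fun k => if 0 ≤ k then ∏ j ∈ Finset.range k.toNat, r j else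
    ∏ j ∈ Finset.range (-k).toNat, (r (-(j : ℤ) - 1))⁻¹, by simp, ?_⟩
  intro k
  rcases lt_trichotomy k (-1) with hk | hk | hk
  · have h1 : ¬ (0 ≤ k + 1) := by omega
    have h2 : ¬ (0 ≤ k) := by omega
    simp only [h1, h2, if_false]
    have h3 : (-k).toNat = (-(k + 1)).toNat + 1 := by omega
    rw [h3, Finset.prod_range_succ]
    have h4 : (-(((-(k + 1)).toNat : ℕ) : ℤ) - 1) = k := by
      rw [Int.toNat_of_nonneg (by omega)]; ring
    rw [h4, mul_comm, mul_assoc, inv_mul_cancel₀ (h k (by omega)), mul_one]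
  · subst hk
    simp only [neg_add_cancel, le_refl, if_true, Int.toNat_zero, Finset.range_zero,
      Finset.prod_empty]
    have h2 : ¬ ((0 : ℤ) ≤ -1) := by omega
    simp only [h2, if_false, neg_neg, Int.toNat_one, Finset.range_one, Finset.prod_singleton,
      Nat.cast_zero, neg_zero, zero_sub]
    rw [mul_inv_cancel₀ (h (-1) (by omega))]
  · have h1 : 0 ≤ k + 1 := by omega
    have h2 : 0 ≤ k := by omega
    simp only [h1, h2, if_true]
    have h3 : (k + 1).toNat = k.toNat + 1 := by omega
    rw [h3, Finset.prod_range_succ, Int.toNat_of_nonneg h2, mul_comm]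

/-! ### Simplices -/

section Simplex

variable {n : ℕ} (m : Fin n → (Fin n →₀ ℕ))

open Classical in
/-- the values of the functional -/
noncomputable def sv (c : Fin n → ℂ) (γ : Fin n → ℤ → ℂ) (q : Fin n → ℤ) : ℂ :=
  if h : ∃ e : Fin n → ℤ, ∀ i, q i = ∑ k, e k * (m k i : ℤ) then
    ∏ k, (γ k (h.choose k) * (c k) ^ (-(h.choose k))) else 0

lemma uniq_of_indep (hm : LinearIndependent ℚ (fun k : Fin n => fun i : Fin n => ((m k i : ℕ) : ℚ)))
    (e e' : Fin n → ℤ) (h : ∀ i, ∑ k, e k * (m k i : ℤ) = ∑ k, e' k * (m k i : ℤ)) : e = e' := by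
  rw [Fintype.linearIndependent_iff] at hm
  have h1 := hm (fun k => ((e k : ℚ) - (e' k : ℚ))) (by
    funext i
    rw [Finset.sum_apply]
    have h2 := congrArg (fun x : ℤ => (x : ℚ)) (h i)
    push_cast at h2
    simp only [Pi.smul_apply, smul_eq_mul, Pi.zero_apply, sub_mul, Finset.sum_sub_distrib]
    rw [h2, sub_self])
  funext k
  have h3 := h1 k
  have h4 : (e k : ℚ) = e' k := by linarith
  exact_mod_cast h4

variable (hm : LinearIndependent ℚ (fun k : Fin n => fun i : Fin n => ((m k i : ℕ) : ℚ)))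

include hm

lemma sv_eq (c : Fin n → ℂ) (γ : Fin n → ℤ → ℂ) (e : Fin n → ℤ) :
    sv m c γ (fun i => ∑ k, e k * (m k i : ℤ)) = ∏ k, (γ k (e k) * (c k) ^ (-(e k))) := by
  have h : ∃ e' : Fin n → ℤ, ∀ i, (fun i => ∑ k, e k * (m k i : ℤ)) i =
      ∑ k, e' k * (m k i : ℤ) := ⟨e, fun _ => rfl⟩
  rw [sv, dif_pos h]
  have := uniq_of_indep m hm _ _ h.choose_spec
  rw [← this]

/-- The functional equation. -/
lemma sv_rel (c : Fin n → ℂ) (hc : ∀ k, c k ≠ 0) (γ : Fin n → ℤ → ℂ) (l : Fin n → ℂ)
    (hγ : ∀ k z, γ k (z + 1) = (l k + z) * γ k z) (hl : ∀ i, ∑ k, l k * (m k i : ℂ) = 1)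
    (q : Fin n → ℤ) (i : Fin n) :
    ∑ k, c k * (m k i : ℂ) * sv m c γ (fun j => q j + m k j) = ((q i : ℂ) + 1) * sv m c γ q := by
  classical
  by_cases h : ∃ e : Fin n → ℤ, ∀ i, q i = ∑ k, e k * (m k i : ℤ)
  · obtain ⟨e, he⟩ := h
    have hq : q = fun i => ∑ k, e k * (m k i : ℤ) := funext he
    have h1 : ∀ k, sv m c γ (fun j => q j + m k j) =
        (l k + e k) * (c k)⁻¹ * ∏ k, (γ k (e k) * (c k) ^ (-(e k))) := by
      intro k
      have h2 : (fun j => q j + (m k j : ℤ)) =
          fun j => ∑ k', (Function.update e k (e k + 1)) k' * (m k' j : ℤ) := by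
        funext j
        rw [he j, ← Finset.add_sum_erase _ _ (Finset.mem_univ k),
          ← Finset.add_sum_erase _ _ (Finset.mem_univ k)]
        have h3 : ∀ k' ∈ Finset.univ.erase k, Function.update e k (e k + 1) k' * (m k' j : ℤ) =
            e k' * (m k' j : ℤ) := fun k' hk' => by
          rw [Function.update_of_ne (Finset.ne_of_mem_erase hk')]
        rw [Finset.sum_congr rfl h3, Function.update_self]
        ring
      rw [h2, sv_eq m hm, ← Finset.mul_prod_erase _ _ (Finset.mem_univ k),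
        ← Finset.mul_prod_erase Finset.univ (fun k => γ k (e k) * (c k) ^ (-(e k)))
          (Finset.mem_univ k)]
      have h3 : ∀ k' ∈ Finset.univ.erase k, γ k' (Function.update e k (e k + 1) k') *
          (c k') ^ (-(Function.update e k (e k + 1) k')) = γ k' (e k') * (c k') ^ (-(e k')) :=
        fun k' hk' => by rw [Function.update_of_ne (Finset.ne_of_mem_erase hk')]
      rw [Finset.prod_congr rfl h3, Function.update_self, hγ, neg_add, zpow_add₀ (hc k),
        zpow_neg_one]
      ring
    rw [Finset.sum_congr rfl fun k _ => by rw [h1 k]]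
    rw [hq, sv_eq m hm]
    set Q := ∏ k, (γ k (e k) * (c k) ^ (-(e k))) with hQ
    have h4 : ∀ k, c k * (m k i : ℂ) * ((l k + e k) * (c k)⁻¹ * Q) =
        (l k * (m k i : ℂ) + (e k : ℂ) * (m k i : ℂ)) * Q := by
      intro k
      have := hc k
      field_simp
    rw [Finset.sum_congr rfl fun k _ => h4 k, ← Finset.sum_mul, Finset.sum_add_distrib, hl i]
    push_cast
    ring
  · have h1 : sv m c γ q = 0 := by rw [sv, dif_neg h]
    rw [h1, mul_zero]
    refine Finset.sum_eq_zero fun k _ => ?_
    have h2 : sv m c γ (fun j => q j + m k j) = 0 := by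
      rw [sv, dif_neg]
      rintro ⟨e, he⟩
      apply h
      refine ⟨Function.update e k (e k - 1), fun j => ?_⟩
      have h3 := he j
      rw [← Finset.add_sum_erase _ _ (Finset.mem_univ k)] at h3 ⊢
      have h4 : ∀ k' ∈ Finset.univ.erase k, Function.update e k (e k - 1) k' * (m k' j : ℤ) =
            e k' * (m k' j : ℤ) := fun k' hk' => by
          rw [Function.update_of_ne (Finset.ne_of_mem_erase hk')]
      rw [Finset.sum_congr rfl h4, Function.update_self]
      linear_combination h3
    rw [h2, mul_zero]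

/-- **Simplices have Stokes functionals.** -/
theorem hasStokes_simplex (c : Fin n → ℂ) (hc : ∀ k, c k ≠ 0) (l : Fin n → ℂ)
    (hl : ∀ i, ∑ k, l k * (m k i : ℂ) = 1) (hl' : ∀ k (j : ℕ), 1 ≤ j → l k ≠ j) :
    HasStokes (∑ k, monomial (m k) (c k)) := by
  classical
  have hγ : ∀ k : Fin n, ∃ w : ℤ → ℂ, w 0 = 1 ∧ ∀ z, w (z + 1) = (l k + z) * w z := by
    intro k
    refine exists_rec (fun z => l k + z) fun z hz h => ?_
    refine hl' k (-z).toNat (by omega) ?_
    have h1 : ((-z).toNat : ℤ) = -z := Int.toNat_of_nonneg (by omega)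
    have h2 : (((-z).toNat : ℕ) : ℂ) = -(z : ℂ) := by
      have := congrArg (fun x : ℤ => (x : ℂ)) h1
      push_cast at this
      exact this
    rw [h2]
    linear_combination h
  choose γ hγ0 hγ1 using hγ
  refine hasStokes_of_monomial _ (LM fun u => sv m c γ (fun i => (u i : ℤ))) ?_ ?_
  · intro i u
    rw [pderiv_monomial, LM_monomial, map_sum, Finset.mul_sum, map_sum]
    have hterm : ∀ k, LM (fun u : Fin n →₀ ℕ => sv m c γ (fun i => (u i : ℤ)))
        (monomial u 1 * pderiv i (monomial (m k) (c k))) =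
        c k * (m k i : ℂ) * sv m c γ (fun j => ((u j : ℤ) - (if j = i then 1 else 0)) + m k j) := by
      intro k
      rw [pderiv_monomial, monomial_mul, LM_monomial, one_mul]
      rcases Nat.eq_zero_or_pos (m k i) with h0 | h0
      · rw [h0]; simp
      · congr 2
        funext j
        rw [Finsupp.add_apply, Finsupp.tsub_apply, Finsupp.single_apply]
        by_cases hj : i = j
        · subst hj
          simp only [if_true]
          omega
        · rw [if_neg hj, if_neg (Ne.symm hj)]
          simp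
    rw [Finset.sum_congr rfl fun k _ => hterm k]
    rw [sv_rel m hm c hc γ l hγ1 hl]
    simp only [if_true]
    rcases Nat.eq_zero_or_pos (u i) with h0 | h0
    · rw [h0]; simp
    · have e : (fun j => (((u - Finsupp.single i 1 : Fin n →₀ ℕ) j : ℕ) : ℤ)) =
          fun j => (u j : ℤ) - (if j = i then 1 else 0) := by
        funext j
        rw [Finsupp.tsub_apply, Finsupp.single_apply]
        by_cases hj : i = j
        · subst hj
          simp only [if_true]
          omega
        · rw [if_neg hj, if_neg (Ne.symm hj)]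
          simp
      rw [e]
      push_cast
      ring
  · have h1 : (1 : MvPolynomial (Fin n) ℂ) = monomial 0 1 := rfl
    rw [h1, LM_monomial, one_mul]
    have h2 := sv_eq m hm c γ (fun _ => 0)
    have h3 : (fun i : Fin n => ∑ k, (fun _ : Fin n => (0 : ℤ)) k * (m k i : ℤ)) =
        fun i => (((0 : Fin n →₀ ℕ) i : ℕ) : ℤ) := by
      funext i; simp
    rw [h3] at h2
    rw [h2]
    simp [hγ0]

end Simplex

end Pool.Agent.helper67.IF
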