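import Mathlib
import Pool.Agent.helper67.IF.Calc

/-!
# Stokes functionals: sums, suspensions, linear changes of coordinates
-/

set_option autoImplicit false

namespace Pool.Agent.helper67.IF

open MvPolynomial

section Split

variable {σ τ ρ : Type} {e1 : σ → ρ} {e2 : τ → ρ}

/-- The variables of `ρ` are those of `σ` and those of `τ`. -/
structure Split (e1 : σ → ρ) (e2 : τ → ρ) : Prop where
  inj1 : Function.Injective e1
  inj2 : Function.Injective e2
  disj : ∀ i j, e1 i ≠ e2 j
  cover : ∀ r, (∃ i, e1 i = r) ∨ ∃ j, e2 j = r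

variable (h : Split e1 e2)

include h

/-- the part of a monomial in the first group of variables -/
noncomputable def Split.c1 : (ρ →₀ ℕ) →+ (σ →₀ ℕ) := Finsupp.comapDomain.addMonoidHom h.inj1

/-- the part of a monomial in the second group of variables -/
noncomputable def Split.c2 : (ρ →₀ ℕ) →+ (τ →₀ ℕ) := Finsupp.comapDomain.addMonoidHom h.inj2

lemma Split.c1_apply (u : ρ →₀ ℕ) (i : σ) : h.c1 u i = u (e1 i) := rfl

lemma Split.c2_apply (u : ρ →₀ ℕ) (i : τ) : h.c2 u i = u (e2 i) := rfl

lemma Split.c1_map1 (v : σ →₀ ℕ) : h.c1 (v.mapDomain e1) = v := by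
  ext i
  rw [h.c1_apply, Finsupp.mapDomain_apply h.inj1]

lemma Split.c2_map2 (v : τ →₀ ℕ) : h.c2 (v.mapDomain e2) = v := by
  ext i
  rw [h.c2_apply, Finsupp.mapDomain_apply h.inj2]

lemma Split.c2_map1 (v : σ →₀ ℕ) : h.c2 (v.mapDomain e1) = 0 := by
  ext i
  rw [h.c2_apply, Finsupp.mapDomain_of_notMem_range]
  · rfl
  · rintro ⟨j, hj⟩
    exact h.disj j i hj

lemma Split.c1_map2 (v : τ →₀ ℕ) : h.c1 (v.mapDomain e2) = 0 := by
  ext i
  rw [h.c1_apply, Finsupp.mapDomain_of_notMem_range]
  · rfl
  · rintro ⟨j, hj⟩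
    exact h.disj i j hj.symm

lemma Split.decomp (u : ρ →₀ ℕ) : (h.c1 u).mapDomain e1 + (h.c2 u).mapDomain e2 = u := by
  ext r
  rw [Finsupp.add_apply]
  rcases h.cover r with ⟨i, rfl⟩ | ⟨j, rfl⟩
  · rw [Finsupp.mapDomain_apply h.inj1, h.c1_apply, Finsupp.mapDomain_of_notMem_range, add_zero]
    rintro ⟨j, hj⟩
    exact h.disj i j hj.symm
  · rw [Finsupp.mapDomain_apply h.inj2, h.c2_apply, Finsupp.mapDomain_of_notMem_range, zero_add]
    rintro ⟨i, hi⟩
    exact h.disj i j hi

/-- The functional with values `F v w` at the monomials. -/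
noncomputable def Split.G (F : (σ →₀ ℕ) → (τ →₀ ℕ) → ℂ) : MvPolynomial ρ ℂ →ₗ[ℂ] ℂ :=
  LM fun u => F (h.c1 u) (h.c2 u)

lemma Split.G_monomial (F : (σ →₀ ℕ) → (τ →₀ ℕ) → ℂ) (v : σ →₀ ℕ) (w : τ →₀ ℕ) (a b : ℂ) :
    h.G F (rename e1 (monomial v a) * rename e2 (monomial w b)) = a * b * F v w := by
  rw [rename_monomial, rename_monomial, monomial_mul, Split.G, LM_monomial, map_add, map_add,
    h.c1_map1, h.c2_map2, h.c1_map2, h.c2_map1, add_zero, zero_add]

lemma Split.monomial_eq (u : ρ →₀ ℕ) : (monomial u 1 : MvPolynomial ρ ℂ) =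
    rename e1 (monomial (h.c1 u) 1) * rename e2 (monomial (h.c2 u) 1) := by
  rw [rename_monomial, rename_monomial, monomial_mul, h.decomp, one_mul]

lemma Split.pderiv1_zero (i : σ) (q : MvPolynomial τ ℂ) :
    pderiv (e1 i) (rename e2 q) = 0 := by
  classical
  refine pderiv_eq_zero_of_notMem_vars fun hmem => ?_
  have h2 := vars_rename e2 q hmem
  rw [Finset.mem_image] at h2
  obtain ⟨j, _, hj⟩ := h2
  exact h.disj i j hj.symm

lemma Split.pderiv2_zero (j : τ) (p : MvPolynomial σ ℂ) :
    pderiv (e2 j) (rename e1 p) = 0 := by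
  classical
  refine pderiv_eq_zero_of_notMem_vars fun hmem => ?_
  have h2 := vars_rename e1 p hmem
  rw [Finset.mem_image] at h2
  obtain ⟨i, _, hi⟩ := h2
  exact h.disj i j hi

lemma Split.pderiv1 (i : σ) (p : MvPolynomial σ ℂ) (q : MvPolynomial τ ℂ) :
    pderiv (e1 i) (rename e1 p * rename e2 q) = rename e1 (pderiv i p) * rename e2 q := by
  have h1 := h.pderiv1_zero i q
  rw [Derivation.leibniz, h1, smul_zero, zero_add, smul_eq_mul, pderiv_rename h.inj1, mul_comm]

lemma Split.pderiv2 (j : τ) (p : MvPolynomial σ ℂ) (q : MvPolynomial τ ℂ) :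
    pderiv (e2 j) (rename e1 p * rename e2 q) = rename e1 p * rename e2 (pderiv j q) := by
  have h1 := h.pderiv2_zero j p
  rw [Derivation.leibniz, h1, smul_zero, add_zero, smul_eq_mul, pderiv_rename h.inj2]

/-- The product functional. -/
lemma Split.G_prod (G1 : MvPolynomial σ ℂ →ₗ[ℂ] ℂ) (G2 : MvPolynomial τ ℂ →ₗ[ℂ] ℂ)
    (p : MvPolynomial σ ℂ) (q : MvPolynomial τ ℂ) :
    h.G (fun v w => G1 (monomial v 1) * G2 (monomial w 1)) (rename e1 p * rename e2 q) =
      G1 p * G2 q := by
  induction p using MvPolynomial.induction_on' with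
  | monomial v a =>
    induction q using MvPolynomial.induction_on' with
    | monomial w b =>
      rw [h.G_monomial]
      have e1 : (monomial v a : MvPolynomial σ ℂ) = a • monomial v 1 := by
        rw [smul_monomial, smul_eq_mul, mul_one]
      have e2 : (monomial w b : MvPolynomial τ ℂ) = b • monomial w 1 := by
        rw [smul_monomial, smul_eq_mul, mul_one]
      rw [e1, e2, map_smul, map_smul, smul_eq_mul, smul_eq_mul]
      ring
    | add q q' hq hq' => rw [map_add, mul_add, map_add, hq, hq', map_add, mul_add]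
  | add p p' hp hp' => rw [map_add, add_mul, map_add, hp, hp', map_add, add_mul]

/-- **Thom–Sebastiani sums.** -/
theorem HasStokes.sum {g : MvPolynomial σ ℂ} {g' : MvPolynomial τ ℂ}
    (hg : HasStokes g) (hg' : HasStokes g') : HasStokes (rename e1 g + rename e2 g') := by
  obtain ⟨G1, hG1, h1⟩ := hg
  obtain ⟨G2, hG2, h2⟩ := hg'
  refine hasStokes_of_monomial _ (h.G (fun v w => G1 (monomial v 1) * G2 (monomial w 1))) ?_ ?_
  · intro r u
    rw [h.monomial_eq u]
    have hs1 : rename e1 g = rename e1 g * rename e2 1 := by rw [map_one, mul_one]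
    have hs2 : rename e2 g' = rename e1 1 * rename e2 g' := by rw [map_one, one_mul]
    rcases h.cover r with ⟨i, rfl⟩ | ⟨j, rfl⟩
    · rw [h.pderiv1, h.G_prod, hG1, map_add, hs1, hs2, h.pderiv1, h.pderiv1]
      have e : rename e1 (monomial (h.c1 u) 1) * rename e2 (monomial (h.c2 u) 1) *
          (rename e1 (pderiv i g) * rename e2 (1 : MvPolynomial τ ℂ) +
            rename e1 (pderiv i (1 : MvPolynomial σ ℂ)) * rename e2 g') =
          rename e1 (monomial (h.c1 u) 1 * pderiv i g) * rename e2 (monomial (h.c2 u) 1) := by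
        rw [map_one (rename e2), map_mul, (pderiv i).map_one_eq_zero, map_zero]
        ring
      rw [e, h.G_prod]
    · rw [h.pderiv2, h.G_prod, hG2, map_add, hs1, hs2, h.pderiv2, h.pderiv2]
      have e : rename e1 (monomial (h.c1 u) 1) * rename e2 (monomial (h.c2 u) 1) *
          (rename e1 g * rename e2 (pderiv j (1 : MvPolynomial τ ℂ)) +
            rename e1 (1 : MvPolynomial σ ℂ) * rename e2 (pderiv j g')) =
          rename e1 (monomial (h.c1 u) 1) * rename e2 (monomial (h.c2 u) 1 * pderiv j g') := by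
        rw [map_one (rename e1), map_mul, (pderiv j).map_one_eq_zero, map_zero]
        ring
      rw [e, h.G_prod]
  · have e : (1 : MvPolynomial ρ ℂ) = rename e1 1 * rename e2 1 := by
      rw [map_one, map_one, mul_one]
    rw [e, h.G_prod]
    exact mul_ne_zero h1 h2

end Split

/-! ### Suspensions -/

section Susp

variable {σ ρ : Type} [Fintype σ] {e1 : σ → ρ} {z : ρ}

lemma G_mul_f0 {g : MvPolynomial σ ℂ} {b : σ → ℕ} {m : ℕ} (hm : 1 ≤ m)
    (hb : g.IsWeightedHomogeneous b m) {G : MvPolynomial σ ℂ →ₗ[ℂ] ℂ}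
    (hG : ∀ (i : σ) (φ : MvPolynomial σ ℂ), G (pderiv i φ) = G (φ * pderiv i g))
    {e : ℕ} {φ : MvPolynomial σ ℂ} (hφ : φ.IsWeightedHomogeneous b e) :
    G (φ * g) = ((∑ i, (b i : ℂ)) / m + (e : ℂ) / m) * G φ := by
  have hNC : (m : ℂ) ≠ 0 := by exact_mod_cast (by omega : m ≠ 0)
  have h1 := hb.sum_weight_X_mul_pderiv
  have h2 := hφ.sum_weight_X_mul_pderiv
  have h3 : (m : ℂ) * G (φ * g) = ∑ i, (b i : ℂ) * G ((X i * φ) * pderiv i g) := by
    have e1 : (m : ℂ) * G (φ * g) = G (φ * (m • g)) := by
      rw [mul_smul_comm, map_nsmul, nsmul_eq_mul]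
    rw [e1, ← h1, Finset.mul_sum, map_sum]
    refine Finset.sum_congr rfl fun i _ => ?_
    rw [mul_smul_comm, map_nsmul, nsmul_eq_mul]
    congr 2
    ring
  have h4 : ∑ i, (b i : ℂ) * G ((X i * φ) * pderiv i g) =
      (∑ i, (b i : ℂ)) * G φ + (e : ℂ) * G φ := by
    have e2 : ∀ i, G ((X i * φ) * pderiv i g) = G φ + G (X i * pderiv i φ) := by
      intro i
      rw [← hG, Derivation.leibniz, pderiv_X_self, smul_eq_mul, smul_eq_mul, mul_one, map_add]
      ring
    have e3 : (e : ℂ) * G φ = ∑ i, (b i : ℂ) * G (X i * pderiv i φ) := by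
      have : (e : ℂ) * G φ = G (e • φ) := by rw [map_nsmul, nsmul_eq_mul]
      rw [this, ← h2, map_sum]
      refine Finset.sum_congr rfl fun i _ => ?_
      rw [map_nsmul, nsmul_eq_mul]
    rw [e3, Finset.sum_mul, ← Finset.sum_add_distrib]
    refine Finset.sum_congr rfl fun i _ => ?_
    rw [e2, mul_add]
  rw [h4] at h3
  field_simp
  linear_combination h3

open Classical in
/-- **Suspensions** `z ^ c (g + κ z ^ p)`. -/
theorem HasStokes.susp (h : Split e1 (fun _ : Unit => z)) {g : MvPolynomial σ ℂ}
    (hg : HasStokes g) {b : σ → ℕ} {m : ℕ} (hm : 1 ≤ m) (hb : g.IsWeightedHomogeneous b m)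
    (c p : ℕ) (hp : 1 ≤ p) (hcp : 2 ≤ c + p) (κ : ℂ) (hκ : κ ≠ 0) :
    HasStokes (X z ^ c * (rename e1 g + C κ * X z ^ p)) := by
  obtain ⟨G, hG, hG1⟩ := hg
  have hmC : (m : ℂ) ≠ 0 := by exact_mod_cast (by omega : m ≠ 0)
  set q : ℕ := c + p with hq
  have hqC : (q : ℂ) ≠ 0 := by exact_mod_cast (by omega : q ≠ 0)
  set S : ℂ := (∑ i, (b i : ℂ)) / m with hS
  -- the recursion
  obtain ⟨w, hw0, hw1⟩ := exists_rec (fun k => ((q : ℂ) * k + 1 - c * S) / (q * κ)) (by
    intro k hk h0
    have h1 : (q : ℂ) * k + 1 - c * S = 0 := by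
      rcases div_eq_zero_iff.1 h0 with h2 | h2
      · exact h2
      · exact absurd h2 (mul_ne_zero hqC hκ)
    have h2 : ((m : ℤ) * ((q : ℤ) * k + 1) - c * (∑ i, b i : ℕ) : ℤ) = 0 := by
      have h3 : ((m : ℂ) * ((q : ℂ) * k + 1) - c * ((∑ i, b i : ℕ) : ℂ)) = 0 := by
        rw [hS] at h1
        field_simp at h1
        push_cast
        linear_combination h1
      exact_mod_cast h3
    have h4 : (q : ℤ) * k + 1 ≤ -1 := by
      have h5 : (2 : ℤ) ≤ q := by exact_mod_cast hcp
      nlinarith
    have h5 : (1 : ℤ) ≤ m := by exact_mod_cast hm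
    have h6 : (0 : ℤ) ≤ (c : ℤ) * ((∑ i, b i : ℕ) : ℤ) := by positivity
    nlinarith)
  set W : ℤ → ℂ := fun x => if (q : ℤ) ∣ x then w (x / q) else 0 with hW
  have hWrec : ∀ x : ℤ, (q : ℂ) * κ * W (x + q) = ((x : ℂ) + 1 - c * S) * W x := by
    intro x
    have hqZ : (q : ℤ) ≠ 0 := by exact_mod_cast (by omega : q ≠ 0)
    by_cases hx : (q : ℤ) ∣ x
    · obtain ⟨k, rfl⟩ := hx
      have e1 : (q : ℤ) * k + q = q * (k + 1) := by ring
      simp only [hW]
      rw [e1, if_pos (Dvd.intro _ rfl), if_pos (Dvd.intro _ rfl),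
        Int.mul_ediv_cancel_left _ hqZ, Int.mul_ediv_cancel_left _ hqZ, hw1]
      push_cast
      field_simp
    · have hx' : ¬ (q : ℤ) ∣ x + q := fun h => hx ((Int.dvd_add_left (dvd_refl _)).1 h)
      simp only [hW]
      rw [if_neg hx, if_neg hx', mul_zero, mul_zero]
  have hW0 : W 0 = 1 := by
    simp only [hW]
    rw [if_pos (dvd_zero _), Int.zero_ediv, hw0]
  -- the functional
  set F : (σ →₀ ℕ) → (Unit →₀ ℕ) → ℂ := fun v u =>
    if m ∣ Finsupp.weight b v then
      G (monomial v 1) * W ((u () : ℤ) - c * ((Finsupp.weight b v / m : ℕ) : ℤ)) else 0 with hF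
  have hXz : ∀ γ : ℕ, (X z ^ γ : MvPolynomial ρ ℂ) =
      rename (fun _ : Unit => z) (monomial (Finsupp.single () γ) 1) := by
    intro γ
    rw [rename_monomial, Finsupp.mapDomain_single, X_pow_eq_monomial]
  -- values on homogeneous polynomials
  have hval : ∀ (φ : MvPolynomial σ ℂ) (e : ℕ), φ.IsWeightedHomogeneous b e → ∀ γ : ℕ,
      h.G F (rename e1 φ * X z ^ γ) =
        if m ∣ e then G φ * W ((γ : ℤ) - c * ((e / m : ℕ) : ℤ)) else 0 := by
    intro φ e hφ γ
    have h1 : h.G F (rename e1 φ * X z ^ γ) = ∑ v ∈ φ.support, coeff v φ *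
        (if m ∣ e then G (monomial v 1) * W ((γ : ℤ) - c * ((e / m : ℕ) : ℤ)) else 0) := by
      conv_lhs => rw [φ.as_sum]
      rw [map_sum, Finset.sum_mul, map_sum]
      refine Finset.sum_congr rfl fun v hv => ?_
      rw [hXz, h.G_monomial, mul_one]
      simp only [hF]
      rw [hφ (mem_support_iff.1 hv), Finsupp.single_eq_same]
    rw [h1]
    by_cases hme : m ∣ e
    · simp only [if_pos hme]
      have h2 : G φ = ∑ v ∈ φ.support, coeff v φ * G (monomial v 1) := by
        conv_lhs => rw [φ.as_sum]
        rw [map_sum]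
        refine Finset.sum_congr rfl fun v _ => ?_
        have e1 : (monomial v (coeff v φ) : MvPolynomial σ ℂ) = coeff v φ • monomial v 1 := by
          rw [smul_monomial, smul_eq_mul, mul_one]
        rw [e1, map_smul, smul_eq_mul]
      rw [h2, Finset.sum_mul]
      exact Finset.sum_congr rfl fun v _ => by ring
    · simp only [if_neg hme, mul_zero, Finset.sum_const_zero]
  refine hasStokes_of_monomial _ (h.G F) ?_ ?_
  · intro r u
    rw [h.monomial_eq u]
    set v := h.c1 u with hv
    set γ : ℕ := h.c2 u () with hγ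
    have hu2 : (h.c2 u) = Finsupp.single () γ := by
      ext; simp [hγ]
    rw [hu2, ← hXz]
    have hvh : (monomial v (1 : ℂ)).IsWeightedHomogeneous b (Finsupp.weight b v) :=
      isWeightedHomogeneous_monomial b v 1 rfl
    set e := Finsupp.weight b v with he
    rcases h.cover r with ⟨i, rfl⟩ | ⟨j, rfl⟩
    · -- derivative in a variable of `g`
      have hL : pderiv (e1 i) (rename e1 (monomial v (1 : ℂ)) * X z ^ γ) =
          rename e1 (pderiv i (monomial v (1 : ℂ))) * X z ^ γ := by
        rw [hXz, h.pderiv1]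
      have hR : rename e1 (monomial v (1 : ℂ)) * X z ^ γ *
          pderiv (e1 i) (X z ^ c * (rename e1 g + C κ * X z ^ p)) =
          rename e1 (monomial v (1 : ℂ) * pderiv i g) * X z ^ (γ + c) := by
        have h1 : pderiv (e1 i) (X z ^ c * (rename e1 g + C κ * X z ^ p)) =
            rename e1 (pderiv i g) * X z ^ c := by
          have h2 : (X z ^ c * (rename e1 g + C κ * X z ^ p) : MvPolynomial ρ ℂ) =
              rename e1 g * rename (fun _ : Unit => z) (monomial (Finsupp.single () c) 1) +
              rename e1 1 * rename (fun _ : Unit => z)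
                (C κ * monomial (Finsupp.single () (c + p)) 1) := by
            rw [map_mul, ← hXz, ← hXz, rename_C, map_one, pow_add]
            ring
          rw [h2, map_add, h.pderiv1, h.pderiv1, (pderiv i).map_one_eq_zero, map_zero, zero_mul,
            add_zero, ← hXz]
        rw [h1, map_mul, pow_add]
        ring
      rw [hL, hR]
      by_cases hz : G (pderiv i (monomial v 1)) = 0
      · -- both sides vanish
        have hz' : G (monomial v 1 * pderiv i g) = 0 := by rw [← hG]; exact hz
        have h1 : h.G F (rename e1 (pderiv i (monomial v 1)) * X z ^ γ) = 0 := by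
          by_cases hbe : b i ≤ e
          · rw [hval _ (e - b i) (hvh.pderiv (by omega)), hz, zero_mul, ite_self]
          · have : pderiv i (monomial v (1 : ℂ)) = 0 := by
              ext w
              rw [coeff_pderiv, coeff_zero]
              by_contra h3
              have h4 := hvh (left_ne_zero_of_mul h3)
              rw [map_add] at h4
              have h5 : Finsupp.weight b (Finsupp.single i 1) = b i := by
                rw [Finsupp.weight_single]; simp
              omega
            rw [this, map_zero, zero_mul, map_zero]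
        have h2 : h.G F (rename e1 (monomial v 1 * pderiv i g) * X z ^ (γ + c)) = 0 := by
          by_cases hbm : b i ≤ m
          · rw [hval _ (e + (m - b i)) (hvh.mul (hb.pderiv (by omega))), hz', zero_mul, ite_self]
          · have : pderiv i g = 0 := by
              ext w
              rw [coeff_pderiv, coeff_zero]
              by_contra h3
              have h4 := hb (left_ne_zero_of_mul h3)
              rw [map_add] at h4
              have h5 : Finsupp.weight b (Finsupp.single i 1) = b i := by
                rw [Finsupp.weight_single]; simp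
              omega
            rw [this, mul_zero, map_zero, zero_mul, map_zero]
        rw [h1, h2]
      · have hbe : b i ≤ e := by
          by_contra hbe
          apply hz
          have : pderiv i (monomial v (1 : ℂ)) = 0 := by
            ext w
            rw [coeff_pderiv, coeff_zero]
            by_contra h3
            have h4 := hvh (left_ne_zero_of_mul h3)
            rw [map_add] at h4
            have h5 : Finsupp.weight b (Finsupp.single i 1) = b i := by
              rw [Finsupp.weight_single]; simp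
            omega
          rw [this, map_zero]
        have hbm : b i ≤ m := by
          by_contra hbm
          apply hz
          have : pderiv i g = 0 := by
            ext w
            rw [coeff_pderiv, coeff_zero]
            by_contra h3
            have h4 := hb (left_ne_zero_of_mul h3)
            rw [map_add] at h4
            have h5 : Finsupp.weight b (Finsupp.single i 1) = b i := by
              rw [Finsupp.weight_single]; simp
            omega
          rw [hG, this, mul_zero, map_zero]
        have e3 : e + (m - b i) = (e - b i) + m := by omega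
        rw [hval _ (e - b i) (hvh.pderiv (by omega)), hval _ (e + (m - b i))
          (hvh.mul (hb.pderiv (by omega))), ← hG, e3]
        by_cases hd : m ∣ e - b i
        · rw [if_pos hd, if_pos ((Nat.dvd_add_self_right).2 hd), Nat.add_div_right _ (by omega)]
          congr 2
          push_cast
          ring
        · rw [if_neg hd, if_neg (fun h' => hd ((Nat.dvd_add_self_right).1 h'))]
    · -- derivative in `z`
      have hdz : pderiv z (rename e1 (monomial v (1 : ℂ))) = 0 := h.pderiv2_zero () _
      have hdz' : pderiv z (rename e1 g) = 0 := h.pderiv2_zero () g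
      have hL : pderiv z (rename e1 (monomial v (1 : ℂ)) * X z ^ γ) =
          (γ : ℂ) • (rename e1 (monomial v (1 : ℂ)) * X z ^ (γ - 1)) := by
        rw [Derivation.leibniz, hdz, smul_zero, add_zero, Derivation.leibniz_pow, pderiv_X_self,
          smul_eq_mul, smul_eq_mul, nsmul_eq_mul, mul_one, smul_eq_C_mul, map_natCast]
        ring
      have hR : rename e1 (monomial v (1 : ℂ)) * X z ^ γ *
          pderiv z (X z ^ c * (rename e1 g + C κ * X z ^ p)) =
          (c : ℂ) • (rename e1 (monomial v (1 : ℂ) * g) * X z ^ (γ + c - 1)) +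
          ((q : ℂ) * κ) • (rename e1 (monomial v (1 : ℂ)) * X z ^ (γ + q - 1)) := by
        rw [Derivation.leibniz, map_add, hdz', zero_add, Derivation.leibniz_pow,
          Derivation.leibniz, Derivation.leibniz_pow, pderiv_X_self, pderiv_C]
        simp only [smul_eq_mul, nsmul_eq_mul, mul_one, smul_zero, add_zero, smul_eq_C_mul,
          map_natCast, map_mul]
        have h1 : (X z ^ γ * ((c : MvPolynomial ρ ℂ) * X z ^ (c - 1))) =
            (c : MvPolynomial ρ ℂ) * X z ^ (γ + c - 1) := by
          rcases Nat.eq_zero_or_pos c with h0 | h0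
          · rw [h0]; simp
          · have : γ + c - 1 = γ + (c - 1) := by omega
            rw [this, pow_add]; ring
        have h2 : (X z ^ γ * (X z ^ c * (C κ * ((p : MvPolynomial ρ ℂ) * X z ^ (p - 1))))) =
            (p : MvPolynomial ρ ℂ) * C κ * X z ^ (γ + q - 1) := by
          have : γ + q - 1 = γ + (c + (p - 1)) := by omega
          rw [this, pow_add, pow_add]; ring
        have h3 : (c : MvPolynomial ρ ℂ) * X z ^ (γ + c - 1) * X z ^ p =
            (c : MvPolynomial ρ ℂ) * X z ^ (γ + q - 1) := by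
          rcases Nat.eq_zero_or_pos c with h0 | h0
          · rw [h0]; simp
          · have : γ + q - 1 = γ + c - 1 + p := by omega
            rw [this, pow_add]; ring
        have h4 : (q : MvPolynomial ρ ℂ) = c + p := by rw [hq]; push_cast; ring
        calc _ = rename e1 (monomial v 1) * ((X z ^ γ * (X z ^ c *
              (C κ * ((p : MvPolynomial ρ ℂ) * X z ^ (p - 1))))) +
              (X z ^ γ * ((c : MvPolynomial ρ ℂ) * X z ^ (c - 1))) *
                (rename e1 g + C κ * X z ^ p)) := by ring
          _ = rename e1 (monomial v 1) * ((p : MvPolynomial ρ ℂ) * C κ * X z ^ (γ + q - 1) +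
              (c : MvPolynomial ρ ℂ) * X z ^ (γ + c - 1) * rename e1 g +
              C κ * ((c : MvPolynomial ρ ℂ) * X z ^ (γ + c - 1) * X z ^ p)) := by
                rw [h1, h2]; ring
          _ = _ := by rw [h3, h4]; ring
      rw [hL, hR, map_smul, map_add, map_smul, map_smul, hval _ e hvh, hval _ e hvh,
        hval _ (e + m) (hvh.mul hb), G_mul_f0 hm hb hG hvh, smul_eq_mul, smul_eq_mul, smul_eq_mul,
        ← hS]
      by_cases hd : m ∣ e
      · rw [if_pos hd, if_pos ((Nat.dvd_add_self_right).2 hd), Nat.add_div_right _ (by omega),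
          if_pos hd]
        obtain ⟨k, hk⟩ := hd
        have hek : e / m = k := by rw [hk, Nat.mul_div_cancel_left _ (by omega)]
        rw [hek]
        have hkC : (e : ℂ) / m = k := by rw [hk]; push_cast; field_simp
        rw [hkC]
        set x : ℤ := (γ : ℤ) - 1 - c * (k : ℤ) with hx
        have hxr := hWrec x
        have e1 : ((((γ + q - 1 : ℕ) : ℤ)) - c * (k : ℤ)) = x + q := by
          rw [hx]; push_cast [Nat.cast_sub (show 1 ≤ γ + q by omega)]; ring
        rw [e1]
        have e2 : (γ : ℂ) * (G (monomial v 1) * W ((((γ - 1 : ℕ) : ℤ)) - c * (k : ℤ))) =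
            (γ : ℂ) * (G (monomial v 1) * W x) := by
          rcases Nat.eq_zero_or_pos γ with h0 | h0
          · rw [h0]; simp
          · rw [hx]; push_cast [Nat.cast_sub h0]; rfl
        have e3 : (c : ℂ) * ((S + k) * G (monomial v 1) *
            W ((((γ + c - 1 : ℕ) : ℤ)) - c * ((k.succ : ℕ) : ℤ))) =
            (c : ℂ) * ((S + k) * G (monomial v 1) * W x) := by
          rcases Nat.eq_zero_or_pos c with h0 | h0
          · rw [h0]; simp
          · have : ((((γ + c - 1 : ℕ) : ℤ)) - c * ((k.succ : ℕ) : ℤ)) = x := by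
              rw [hx]; push_cast [Nat.cast_sub (show 1 ≤ γ + c by omega)]; ring
            rw [this]
        rw [e2, e3]
        have hxC : (x : ℂ) = (γ : ℂ) - 1 - c * k := by rw [hx]; push_cast; ring
        rw [hxC] at hxr
        linear_combination (-G (monomial v 1)) * hxr
      · rw [if_neg hd, if_neg (fun h' => hd ((Nat.dvd_add_self_right).1 h')), if_neg hd]
        simp
  · have e : (1 : MvPolynomial ρ ℂ) = rename e1 1 * X z ^ 0 := by
      rw [map_one, pow_zero, mul_one]
    rw [e, hval 1 0 (isWeightedHomogeneous_one ℂ b), if_pos (dvd_zero _)]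
    simp [hW0, hG1]

end Susp

/-! ### Linear changes of coordinates -/

section Lin

variable {σ : Type} [Fintype σ] [DecidableEq σ]

/-- Substitution of linear forms. -/
noncomputable def lin (B : Matrix σ σ ℂ) : MvPolynomial σ ℂ →ₐ[ℂ] MvPolynomial σ ℂ :=
  aeval fun i => ∑ j, C (B i j) * X j

lemma lin_X (B : Matrix σ σ ℂ) (i : σ) : lin B (X i) = ∑ j, C (B i j) * X j := by
  rw [lin, aeval_X]

lemma lin_comp (B B' : Matrix σ σ ℂ) (φ : MvPolynomial σ ℂ) :
    lin B' (lin B φ) = lin (B * B') φ := by
  have h1 : (lin B').comp (lin B) = lin (B * B') := by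
    refine algHom_ext fun i => ?_
    rw [AlgHom.comp_apply, lin_X, lin_X, map_sum]
    simp only [map_mul, lin_X, Matrix.mul_apply]
    have h2 : ∀ c : ℂ, lin B' (C c) = C c := fun c => by rw [lin, aeval_C]; rfl
    simp only [h2, Finset.mul_sum, map_sum, Finset.sum_mul]
    rw [Finset.sum_comm]
    refine Finset.sum_congr rfl fun j _ => Finset.sum_congr rfl fun k _ => ?_
    rw [map_mul]; ring
  exact congrArg (fun F => F φ) h1

lemma lin_one (φ : MvPolynomial σ ℂ) : lin (1 : Matrix σ σ ℂ) φ = φ := by
  have h1 : lin (1 : Matrix σ σ ℂ) = AlgHom.id ℂ _ := by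
    refine algHom_ext fun i => ?_
    rw [lin_X, AlgHom.id_apply, Finset.sum_eq_single i]
    · simp
    · intro j _ hj; rw [Matrix.one_apply_ne (Ne.symm hj)]; simp
    · intro hi; exact absurd (Finset.mem_univ i) hi
  exact congrArg (fun F => F φ) h1

lemma pderiv_lin (B : Matrix σ σ ℂ) (k : σ) (φ : MvPolynomial σ ℂ) :
    pderiv k (lin B φ) = ∑ i, C (B i k) * lin B (pderiv i φ) := by
  induction φ using MvPolynomial.induction_on with
  | C a => rw [lin, aeval_C]; simp
  | add p q hp hq => simp only [map_add, hp, hq, mul_add, Finset.sum_add_distrib]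
  | mul_X p j hp =>
    rw [map_mul, Derivation.leibniz, hp, lin_X, map_sum]
    have h1 : ∀ l : σ, pderiv k (C (B j l) * X l : MvPolynomial σ ℂ) =
        if l = k then C (B j k) else 0 := by
      intro l
      rw [Derivation.leibniz, pderiv_C, smul_zero, add_zero, pderiv_X, smul_eq_mul]
      by_cases h : l = k
      · subst h; simp
      · rw [if_neg h, Pi.single_eq_of_ne h, mul_zero]
    rw [Finset.sum_congr rfl fun l _ => h1 l, Finset.sum_ite_eq' Finset.univ k,
      if_pos (Finset.mem_univ _)]
    have h2 : ∀ i, lin B (pderiv i (p * X j)) =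
        (if i = j then lin B p else 0) + (∑ l, C (B j l) * X l) * lin B (pderiv i p) := by
      intro i
      rw [Derivation.leibniz, pderiv_X, map_add, smul_eq_mul, smul_eq_mul, map_mul, map_mul,
        lin_X]
      congr 1
      by_cases h : i = j
      · subst h; simp
      · rw [if_neg h, Pi.single_eq_of_ne (Ne.symm h), map_zero, mul_zero]
    have h3 : ∑ i, C (B i k) * lin B (pderiv i (p * X j)) =
        C (B j k) * lin B p +
          (∑ l, C (B j l) * X l) * ∑ i, C (B i k) * lin B (pderiv i p) := by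
      rw [Finset.sum_congr rfl fun i _ => by rw [h2 i, mul_add], Finset.sum_add_distrib]
      congr 1
      · rw [Finset.sum_eq_single j]
        · rw [if_pos rfl]
        · intro i _ hi; rw [if_neg hi, mul_zero]
        · intro hj; exact absurd (Finset.mem_univ j) hj
      · rw [Finset.mul_sum]
        exact Finset.sum_congr rfl fun i _ => by ring
    rw [h3, smul_eq_mul, smul_eq_mul, mul_comm (lin B p)]

/-- **Linear changes of coordinates.** -/
theorem HasStokes.lin {f0 : MvPolynomial σ ℂ} (hf : HasStokes f0) (B B' : Matrix σ σ ℂ)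
    (hB : B * B' = 1) (hB' : B' * B = 1) : HasStokes (lin B f0) := by
  obtain ⟨G, hG, h1⟩ := hf
  refine ⟨G ∘ₗ (IF.lin B').toLinearMap, fun k φ => ?_, ?_⟩
  · set ψ := IF.lin B' φ with hψ
    have hφ : φ = IF.lin B ψ := by rw [hψ, lin_comp, hB', lin_one]
    have hinv : ∀ p, IF.lin B' (IF.lin B p) = p := fun p => by rw [lin_comp, hB, lin_one]
    have hC : ∀ c : ℂ, IF.lin B' (C c) = C c := fun c => by rw [IF.lin, aeval_C]; rfl
    simp only [LinearMap.comp_apply, AlgHom.toLinearMap_apply]
    have hl : IF.lin B' (pderiv k φ) = ∑ i, C (B i k) * pderiv i ψ := by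
      conv_lhs => rw [hφ, pderiv_lin, map_sum]
      refine Finset.sum_congr rfl fun i _ => ?_
      rw [map_mul, hinv, hC]
    have hr : IF.lin B' (φ * pderiv k (IF.lin B f0)) =
        ∑ i, C (B i k) * (ψ * pderiv i f0) := by
      rw [map_mul, ← hψ, pderiv_lin, map_sum, Finset.mul_sum]
      refine Finset.sum_congr rfl fun i _ => ?_
      rw [map_mul, hinv, hC]; ring
    rw [hl, hr, map_sum, map_sum]
    refine Finset.sum_congr rfl fun i _ => ?_
    rw [← smul_eq_C_mul, ← smul_eq_C_mul, map_smul, map_smul, hG]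
  · simp only [LinearMap.comp_apply, AlgHom.toLinearMap_apply, map_one]
    exact h1

end Lin

/-- The quadratic form `x y`. -/
theorem hasStokes_xy : HasStokes (X 0 * X 1 : MvPolynomial (Fin 2) ℂ) := by
  refine hasStokes_of_monomial _ (LM fun u => if u 0 = u 1 then ((u 0).factorial : ℂ) else 0)
    ?_ ?_
  · intro i u
    rw [pderiv_monomial, LM_monomial]
    fin_cases i
    · have e : pderiv (0 : Fin 2) (X 0 * X 1 : MvPolynomial (Fin 2) ℂ) =
          monomial (Finsupp.single 1 1) 1 := by
        rw [Derivation.leibniz, pderiv_X_self, pderiv_X_of_ne (by decide)]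
        simp [X]
      simp only [Fin.zero_eta, Fin.isValue, e]
      rw [monomial_mul, LM_monomial]
      simp only [Finsupp.tsub_apply, Finsupp.add_apply, Finsupp.single_apply]
      simp only [Fin.isValue, if_true, one_ne_zero, zero_ne_one, if_false, tsub_zero, add_zero,
        one_mul, mul_one]
      rcases Nat.eq_zero_or_pos (u 0) with h0 | h0
      · rw [h0]; simp
      · by_cases h1 : u 0 - 1 = u 1
        · rw [if_pos h1, if_pos (by omega)]
          obtain ⟨k, hk⟩ : ∃ k, u 0 = k + 1 := ⟨u 0 - 1, by omega⟩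
          rw [hk, Nat.add_sub_cancel, Nat.factorial_succ]
          push_cast; ring
        · rw [if_neg h1, if_neg (by omega), mul_zero]
    · have e : pderiv (1 : Fin 2) (X 0 * X 1 : MvPolynomial (Fin 2) ℂ) =
          monomial (Finsupp.single 0 1) 1 := by
        rw [Derivation.leibniz, pderiv_X_self, pderiv_X_of_ne (by decide)]
        simp [X]
      simp only [Fin.mk_one, Fin.isValue, e]
      rw [monomial_mul, LM_monomial]
      simp only [Finsupp.tsub_apply, Finsupp.add_apply, Finsupp.single_apply]
      simp only [Fin.isValue, if_true, one_ne_zero, zero_ne_one, if_false, tsub_zero, add_zero,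
        one_mul, mul_one]
      rcases Nat.eq_zero_or_pos (u 1) with h0 | h0
      · rw [h0]; simp
      · by_cases h1 : u 0 = u 1 - 1
        · rw [if_pos h1, if_pos (by omega)]
          obtain ⟨k, hk⟩ : ∃ k, u 1 = k + 1 := ⟨u 1 - 1, by omega⟩
          rw [h1, hk, Nat.add_sub_cancel, Nat.factorial_succ]
          push_cast; ring
        · rw [if_neg h1, if_neg (by omega), mul_zero]
  · have h1 : (1 : MvPolynomial (Fin 2) ℂ) = monomial 0 1 := rfl
    rw [h1, LM_monomial]
    simp

end Pool.Agent.helper67.IF
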