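import Mathlib
import Pool.Agent.helper67.IF.Main

/-!
# The initial form theorem and linear changes of coordinates
-/

set_option autoImplicit false

namespace Pool.Agent.helper67.IF

open MvPolynomial Filter Topology Asymptotics
open Pool.Agent.helper67.ND Pool.Agent.helper14.CND

variable {n : ℕ}

/-- The functional equation without denominators, with an arbitrary finite index set. -/
def BFam (f : (Fin n → ℂ) → ℂ) (b : Polynomial ℂ) : Prop :=
  ∃ (τ : Type) (_ : Fintype τ) (w : τ → List (Fin n)) (j : τ → ℕ)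
    (A : τ → (Fin n → ℂ) → ℂ) (M : ℕ),
    (∀ t, AnalyticAt ℂ (A t) 0) ∧ (∀ t, (w t).length ≤ M) ∧
    ∀ s : ℂ, ∀ᶠ z in 𝓝 (0 : Fin n → ℂ),
      (∑ t, A t z * s ^ j t * Nf f s (w t) z * f z ^ (M - (w t).length) -
        b.eval s * f z ^ M) * f z = 0

lemma IsBernstein.fam {f : (Fin n → ℂ) → ℂ} (hf : AnalyticAt ℂ f 0) {b : Polynomial ℂ}
    (hb : IsBernstein f b) : BFam f b := by
  obtain ⟨T, A, M, hA, hlen, h⟩ := bernstein_identity hf hb
  refine ⟨T, inferInstance, fun t => t.1.1, fun t => t.1.2, fun t => A t.1, M,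
    fun t => hA _ t.2, fun t => hlen _ t.2, fun s => ?_⟩
  filter_upwards [h s] with z hz
  rw [← hz]
  congr 2
  exact Finset.sum_coe_sort T
    (fun t => A t z * s ^ t.2 * Nf f s t.1 z * f z ^ (M - t.1.length))

/-- The conclusion from the functional equation modulo high weight. -/
theorem core_alg_fam {a : Fin n → ℕ} (ha : ∀ i, 1 ≤ a i) (hn : 1 ≤ n) {N : ℕ} (hN : 1 ≤ N)
    {f0 g : MvPolynomial (Fin n) ℂ} (hf0 : f0.IsWeightedHomogeneous a N) (hf00 : f0 ≠ 0)
    (hg : Ge a (N + 1) g)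
    {G : MvPolynomial (Fin n) ℂ →ₗ[ℂ] ℂ}
    (hG : ∀ (i : Fin n) (φ : MvPolynomial (Fin n) ℂ), G (pderiv i φ) = G (φ * pderiv i f0))
    (hG1 : G 1 ≠ 0) (M : ℕ) {τ : Type} [Fintype τ] (w : τ → List (Fin n)) (j : τ → ℕ)
    (hT : ∀ t, (w t).length ≤ M)
    (A : τ → MvPolynomial (Fin n) ℂ) (β : ℂ) (K : ℕ) (hK : N * M + N < K)
    (h : Ge a K ((∑ t, A t * C ((-(∑ i, (a i : ℂ)) / N) ^ j t) *
      Nw (f0 + g) (-(∑ i, (a i : ℂ)) / N) (w t) * (f0 + g) ^ (M - (w t).length) -
      C β * (f0 + g) ^ M) * (f0 + g))) : β = 0 := by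
  classical
  set T : Finset (List (Fin n) × ℕ) := Finset.univ.image (fun t => (w t, j t)) with hTdef
  set A' : List (Fin n) × ℕ → MvPolynomial (Fin n) ℂ := fun p =>
    ∑ t ∈ Finset.univ.filter (fun t => (w t, j t) = p), A t with hA'
  refine core_alg ha hn hN hf0 hf00 hg hG hG1 M T (fun p hp => ?_) A' β K hK ?_
  · obtain ⟨t, _, rfl⟩ := Finset.mem_image.1 hp
    exact hT t
  · have e : ∑ p ∈ T, A' p * C ((-(∑ i, (a i : ℂ)) / N) ^ p.2) *
        Nw (f0 + g) (-(∑ i, (a i : ℂ)) / N) p.1 * (f0 + g) ^ (M - p.1.length) =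
        ∑ t, A t * C ((-(∑ i, (a i : ℂ)) / N) ^ j t) *
        Nw (f0 + g) (-(∑ i, (a i : ℂ)) / N) (w t) * (f0 + g) ^ (M - (w t).length) := by
      rw [← Finset.sum_fiberwise_of_maps_to (s := (Finset.univ : Finset τ)) (t := T)
        (g := fun t => (w t, j t)) (fun t _ => Finset.mem_image_of_mem _ (Finset.mem_univ t))]
      refine Finset.sum_congr rfl fun p _ => ?_
      simp only [hA', Finset.sum_mul]
      refine Finset.sum_congr rfl fun t ht => ?_
      have := (Finset.mem_filter.1 ht).2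
      subst this
      rfl
    rw [e]
    exact h

/-- **Initial form theorem**, family version. -/
theorem initial_form_fam (hn : 1 ≤ n) {a : Fin n → ℕ} (ha : ∀ i, 1 ≤ a i) {N : ℕ}
    {f : (Fin n → ℂ) → ℂ} (hf : AnalyticAt ℂ f 0) {f0 : MvPolynomial (Fin n) ℂ}
    (hf0 : f0.IsWeightedHomogeneous a N) (hin : HasInitialForm a N f f0) (hst : HasStokes f0)
    {b : Polynomial ℂ} (hb : BFam f b) : b.eval (-(∑ i, (a i : ℂ)) / N) = 0 := by
  obtain ⟨G, hG, hG1⟩ := hst
  -- `f0` is not constant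
  have hex : ∃ i, pderiv i f0 ≠ 0 := by
    by_contra hcon
    push Not at hcon
    apply hG1
    have h1 := hG ⟨0, hn⟩ (X ⟨0, hn⟩)
    rw [pderiv_X_self, hcon, mul_zero, map_zero] at h1
    exact h1
  have hN : 1 ≤ N := by
    obtain ⟨i, hi⟩ := hex
    by_contra hlt
    exact hi (pderiv_eq_zero_of_lt hf0 i (by have := ha i; omega))
  have hf00 : f0 ≠ 0 := by
    rintro rfl
    obtain ⟨i, hi⟩ := hex
    exact hi (by simp)
  obtain ⟨τ, _, w, j, A, M, hA, hlen, hid⟩ := hb
  set s : ℂ := -(∑ i, (a i : ℂ)) / N with hs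
  set K : ℕ := N * M + N + 1 with hK
  obtain ⟨P, hP⟩ := Apx.exists hf (K + M)
  have hA' : ∀ t, ∃ Q : MvPolynomial (Fin n) ℂ, Apx K (A t) Q := fun t => Apx.exists (hA t) K
  choose Q hQ using hA'
  have hg : Ge a (N + 1) (P - f0) := by
    refine Ge_of_scal (N + 1) _ fun z => ?_
    have h1 : (fun t : ℂ => f (scal a t z) - eval (scal a t z) P) =O[𝓝 0]
        (fun t : ℂ => ‖t‖ ^ (N + 1)) := by
      refine isBigO_scal ha (g := fun z => f z - eval z P) ?_ z
      exact hP.2.trans (isBigO_norm_pow_mono (by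
        have : N * 0 ≤ N * M := Nat.mul_le_mul_left _ (Nat.zero_le _)
        omega))
    have h2 := hin z
    refine (h2.sub h1).congr_left fun t => ?_
    have e : (fun i => t ^ a i * z i) = scal a t z := rfl
    rw [map_sub, eval_scal_homog hf0]
    change (f (fun i => t ^ a i * z i) - t ^ N * eval z f0) -
      (f (scal a t z) - eval (scal a t z) P) = _
    rw [e]
    ring
  have hPf : f0 + (P - f0) = P := by ring
  refine core_alg_fam ha hn hN hf0 hf00 hg hG hG1 M w j hlen Q (b.eval s) K (by omega) ?_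
  rw [hPf, ← hs]
  have h5 : Apx K (fun z => (∑ t, A t z * s ^ j t * Nf f s (w t) z *
      f z ^ (M - (w t).length) - b.eval s * f z ^ M) * f z) ((∑ t, Q t * C (s ^ j t) *
      Nw P s (w t) * P ^ (M - (w t).length) - C (b.eval s) * P ^ M) * P) := by
    have hfP : Apx K f P := hP.mono (by omega)
    refine (((Apx.sum Finset.univ fun t _ => ?_).sub ((Apx.const K _).mul (hfP.pow M)))).mul hfP
    refine (((hQ t).mul (Apx.const K _)).mul (Nf_apx s (w t) K (hP.mono ?_))).mul (hfP.pow _)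
    have := hlen t
    omega
  refine Ge_of_scal K _ fun z => ?_
  have h6 : (fun y : Fin n → ℂ => eval y ((∑ t, Q t * C (s ^ j t) *
      Nw P s (w t) * P ^ (M - (w t).length) - C (b.eval s) * P ^ M) * P)) =O[𝓝 0]
      (fun y : Fin n → ℂ => ‖y‖ ^ K) := by
    refine h5.2.neg_left.congr' ?_ EventuallyEq.rfl
    filter_upwards [hid s] with y hy
    rw [hy]; ring
  exact isBigO_scal ha h6 z

/-! ### Linear changes of coordinates -/

lemma fderiv_comp_equiv (L : (Fin n → ℂ) ≃L[ℂ] (Fin n → ℂ)) (h : (Fin n → ℂ) → ℂ)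
    (z v : Fin n → ℂ) : fderiv ℂ (h ∘ L) z v = fderiv ℂ h (L z) (L v) := by
  rw [ContinuousLinearEquiv.comp_right_fderiv]
  rfl

lemma fderiv_single_comp (L : (Fin n → ℂ) ≃L[ℂ] (Fin n → ℂ)) (h : (Fin n → ℂ) → ℂ)
    (z : Fin n → ℂ) (i : Fin n) :
    fderiv ℂ h (L z) (Pi.single i 1) =
      ∑ k, (L.symm (Pi.single i 1)) k * fderiv ℂ (h ∘ L) z (Pi.single k 1) := by
  have h1 : (Pi.single i 1 : Fin n → ℂ) =
      ∑ k, (L.symm (Pi.single i 1)) k • L (Pi.single k 1) := by
    have h2 : L.symm (Pi.single i 1) =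
        ∑ k, (L.symm (Pi.single i 1)) k • (Pi.single k 1 : Fin n → ℂ) := by
      funext j
      simp [Finset.sum_apply, Pi.single_apply]
    calc (Pi.single i 1 : Fin n → ℂ) = L (L.symm (Pi.single i 1)) := by simp
      _ = L (∑ k, (L.symm (Pi.single i 1)) k • (Pi.single k 1 : Fin n → ℂ)) := by rw [← h2]
      _ = _ := by rw [map_sum]; simp only [map_smul]
  conv_lhs => rw [h1, map_sum]
  refine Finset.sum_congr rfl fun k _ => ?_
  rw [map_smul, smul_eq_mul, fderiv_comp_equiv]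

lemma Nf_lin (L : (Fin n → ℂ) ≃L[ℂ] (Fin n → ℂ)) {f : (Fin n → ℂ) → ℂ}
    (hf : AnalyticAt ℂ f 0) (w : List (Fin n)) :
    ∃ (σ : Type) (_ : Fintype σ) (v : σ → List (Fin n)) (c : σ → ℂ),
      (∀ x, (v x).length = w.length) ∧
      ∀ s : ℂ, ∀ᶠ z in 𝓝 (0 : Fin n → ℂ),
        Nf f s w (L z) = ∑ x, c x * Nf (f ∘ L) s (v x) z := by
  have hL0 : Tendsto L (𝓝 0) (𝓝 0) := by
    have := L.continuous.tendsto 0
    rwa [map_zero] at this
  have hfL : AnalyticAt ℂ (f ∘ L) 0 := by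
    refine AnalyticAt.comp ?_ (L.analyticAt 0)
    rw [map_zero]; exact hf
  induction w with
  | nil =>
    refine ⟨Unit, inferInstance, fun _ => [], fun _ => 1, fun _ => rfl, fun s => ?_⟩
    exact Eventually.of_forall fun z => by simp [Nf]
  | cons i w ih =>
    obtain ⟨σ, _, v, c, hlen, h⟩ := ih
    refine ⟨Fin n × σ, inferInstance, fun x => x.1 :: v x.2,
      fun x => (L.symm (Pi.single i 1)) x.1 * c x.2, fun x => by simp [hlen], fun s => ?_⟩
    have hdiff : ∀ᶠ z in 𝓝 (0 : Fin n → ℂ), ∀ x, DifferentiableAt ℂ (Nf (f ∘ L) s (v x)) z := by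
      rw [eventually_all]
      intro x
      filter_upwards [(Nf_analytic hfL s (v x)).eventually_analyticAt] with z hz
      exact hz.differentiableAt
    filter_upwards [(h s).eventually_nhds, hdiff] with z h1 h2
    have h3 : (Nf f s w) ∘ L =ᶠ[𝓝 z] fun y => ∑ x, c x * Nf (f ∘ L) s (v x) y := h1
    have h4 : ∀ k, fderiv ℂ ((Nf f s w) ∘ L) z (Pi.single k 1) =
        ∑ x, c x * fderiv ℂ (Nf (f ∘ L) s (v x)) z (Pi.single k 1) := by
      intro k
      rw [h3.fderiv_eq]
      have h5 : HasFDerivAt (fun y => ∑ x, c x * Nf (f ∘ L) s (v x) y)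
          (∑ x, c x • fderiv ℂ (Nf (f ∘ L) s (v x)) z) z := by
        refine HasFDerivAt.fun_sum fun x _ => ?_
        exact (h2 x).hasFDerivAt.const_mul (c x)
      rw [h5.fderiv]
      simp [sum_apply]
    simp only [Nf]
    rw [fderiv_single_comp L (Nf f s w) z i, fderiv_single_comp L f z i]
    simp only [h4]
    have h6 : Nf f s w (L z) = ∑ x, c x * Nf (f ∘ L) s (v x) z := h3.self_of_nhds
    rw [h6, Fintype.sum_prod_type]
    simp only [Finset.mul_sum, Finset.sum_mul, Function.comp, hlen]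
    have h7 : ∑ x : σ, ∑ k : Fin n, (s - (w.length : ℂ)) *
        ((L.symm (Pi.single i 1)) k * fderiv ℂ (f ∘ L) z (Pi.single k 1) *
          (c x * Nf (f ∘ L) s (v x) z)) =
        ∑ k : Fin n, ∑ x : σ, (s - (w.length : ℂ)) *
        ((L.symm (Pi.single i 1)) k * fderiv ℂ (f ∘ L) z (Pi.single k 1) *
          (c x * Nf (f ∘ L) s (v x) z)) := Finset.sum_comm
    rw [h7, ← Finset.sum_add_distrib]
    refine Finset.sum_congr rfl fun k _ => ?_
    rw [← Finset.sum_add_distrib]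
    refine Finset.sum_congr rfl fun x _ => ?_
    ring

/-- Invariance under linear changes of coordinates. -/
theorem BFam.lin (L : (Fin n → ℂ) ≃L[ℂ] (Fin n → ℂ)) {f : (Fin n → ℂ) → ℂ}
    (hf : AnalyticAt ℂ f 0) {b : Polynomial ℂ} (hb : BFam f b) : BFam (f ∘ L) b := by
  obtain ⟨τ, _, w, j, A, M, hA, hlen, hid⟩ := hb
  have hL0 : Tendsto L (𝓝 0) (𝓝 0) := by
    have := L.continuous.tendsto 0
    rwa [map_zero] at this
  choose σ hσ v c hv hN using fun t => Nf_lin L hf (w t)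
  refine ⟨Σ t, σ t, inferInstance, fun x => v x.1 x.2, fun x => j x.1,
    fun x z => c x.1 x.2 * A x.1 (L z), M, fun x => ?_, fun x => ?_, fun s => ?_⟩
  · refine analyticAt_const.mul ?_
    refine AnalyticAt.comp (f := L) ?_ (L.analyticAt 0)
    rw [map_zero]; exact hA x.1
  · rw [hv]; exact hlen x.1
  · have h1 : ∀ᶠ z in 𝓝 (0 : Fin n → ℂ), ∀ t,
        Nf f s (w t) (L z) = ∑ x, c t x * Nf (f ∘ L) s (v t x) z := by
      rw [eventually_all]
      exact fun t => hN t s
    filter_upwards [hL0.eventually (hid s), h1] with z h2 h3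
    rw [← h2]
    simp only [Function.comp]
    congr 2
    rw [Fintype.sum_sigma]
    refine Finset.sum_congr rfl fun t _ => ?_
    rw [h3 t, Finset.mul_sum, Finset.sum_mul]
    refine Finset.sum_congr rfl fun x _ => ?_
    rw [hv t x]
    simp only [Function.comp_def]
    ring

end Pool.Agent.helper67.IF
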