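import Mathlib
import Pool.Agent.helper67.ND.G2b

/-! The functional `Λ` for exponents of sum zero which are nonresonant on proper subspaces. -/

set_option autoImplicit false

namespace Pool.Agent.helper67.IF

open scoped BigOperators
open Pool.Agent.helper67.ND Pool.Agent.helper61.NDA

section Adj

variable {k K : Type} [Field k] [Field K] [Algebra k K]
variable {ι : Type} [Fintype ι] {V : Type} [AddCommGroup V] [Module k V] [FiniteDimensional k V]

open Classical in
omit [FiniteDimensional k V] in
theorem adj_of_core' (l : ι → V) (hl : ∀ i, l i ≠ 0) (α : ι → K) {r : ℕ}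
    (hα : ∀ W : Submodule k V, (∃ i, l i ∈ W) → Module.finrank k W ≤ r + 1 → al l α W ≠ 0)
    (J : Fin r → V)
    (hJ : LinearIndependent k J) (ψ : ExteriorAlgebra k (ι → k))
    (hcore : ∀ F : Submodule k V,
      ∑ i, (if l i ∈ F ∧ l i ∉ Submodule.span k (Set.range J) then
      α i * ∑ j : Fin (r + 1), ((-1 : ℤ) ^ (j : ℕ)) •
        S l α r ((Fin.cons (l i) J : Fin (r + 1) → V) ∘ j.succAbove) (bd k ι (rho l F ψ)) else 0) =
      al l α F * S l α r J (bd k ι (rho l F ψ))) :
    ∑ i, α i * S l α (r + 1) (Fin.cons (l i) J) ψ = S l α r J (bd k ι ψ) := by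
  set G := Submodule.span k (Set.range J) with hG
  rw [S_bd_split l hl α J ψ]
  have h1 : ∀ F ∈ (Finset.univ.filter (fun i => l i ∉ G)).image
      (fun i => G ⊔ Submodule.span k {l i}),
      S l α r J (bd k ι (rho l F ψ)) =
        ∑ i, if l i ∈ F ∧ l i ∉ G then α i * S l α (r + 1) (Fin.cons (l i) J) ψ else 0 := by
    intro F hF
    obtain ⟨i0, hi0, hF0⟩ := Finset.mem_image.1 hF
    have hne : al l α F ≠ 0 := by
      refine hα F ⟨i0, ?_⟩ ?_
      · rw [← hF0]
        exact Submodule.mem_sup_right (Submodule.mem_span_singleton_self _)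
      · rw [← hF0, hG, ← span_cons]
        exact (finrank_range_le_card _).trans (by simp)
    have h2 := hcore F
    have h3 : S l α r J (bd k ι (rho l F ψ)) =
        (al l α F)⁻¹ * (al l α F * S l α r J (bd k ι (rho l F ψ))) := by
      rw [← mul_assoc, inv_mul_cancel₀ hne, one_mul]
    rw [h3, ← h2, Finset.mul_sum]
    refine Finset.sum_congr rfl fun i _ => ?_
    by_cases hi : l i ∈ F ∧ l i ∉ G
    · rw [if_pos hi, if_pos hi]
      have hind : LinearIndependent k (Fin.cons (l i) J : Fin (r + 1) → V) :=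
        linearIndependent_finCons.2 ⟨hJ, hi.2⟩
      have hspan : Submodule.span k (Set.range (Fin.cons (l i) J : Fin (r + 1) → V)) = F := by
        rw [span_cons, ← hG, ← hF0]
        have h5 := hi.1
        rw [← hF0] at h5
        exact exchange h5 hi.2
      rw [S_succ l α _ hind, hspan]
      ring
    · rw [if_neg hi, if_neg hi, mul_zero]
  have h4 : ∑ i, α i * S l α (r + 1) (Fin.cons (l i) J) ψ =
      ∑ i, if l i ∉ G then α i * S l α (r + 1) (Fin.cons (l i) J) ψ else 0 := by
    refine Finset.sum_congr rfl fun i _ => ?_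
    by_cases hi : l i ∈ G
    · rw [if_neg (not_not.2 hi), S_dep, mul_zero]
      rw [linearIndependent_finCons]
      exact fun h => h.2 hi
    · rw [if_pos hi]
  rw [h4, ← fiber_sum]
  exact (Finset.sum_congr rfl h1).symm

omit [FiniteDimensional k V] in
/-- Adjunction. -/
theorem S_adj' (l : ι → V) (hl : ∀ i, l i ≠ 0) (α : ι → K) {r : ℕ}
    (hα : ∀ W : Submodule k V, (∃ i, l i ∈ W) → Module.finrank k W ≤ r + 1 → al l α W ≠ 0)
    (J : Fin r → V) (ψ : ExteriorAlgebra k (ι → k)) :
    ∑ i, α i * S l α (r + 1) (Fin.cons (l i) J) ψ = S l α r J (bd k ι ψ) := by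
  classical
  induction r generalizing ψ with
  | zero =>
    exact adj_of_core' l hl α hα J linearIndependent_empty_type ψ fun F =>
      core_zero l hl α J F _
  | succ r ih =>
    by_cases hJ : LinearIndependent k J
    · refine adj_of_core' l hl α hα J hJ ψ fun F => ?_
      refine core_succ l hl α J hJ F _ (rho_bd_rho l F ψ) fun J' => ?_
      rw [ih (fun W hW hW' => hα W hW (by omega)), bd_bd, map_zero]
    · rw [S_dep l α J hJ]
      refine Finset.sum_eq_zero fun i _ => ?_
      rw [S_dep, mul_zero]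
      rw [linearIndependent_finCons]
      exact fun h => hJ h.1

end Adj

variable {k K F : Type} [Field k] [Field K] [Field F] [Algebra k K] [Algebra K F] {N : ℕ}
variable {ι : Type} [Fintype ι]

open Classical in
lemma Good_Btop0 [CharZero K] {H : Finset (Vec k N)} (hH : Tower H) (l : ι → Vec k N)
    (hlH : ∀ i, l i ∈ H) (α : ι → K) (hsum : ∑ i, α i = 0)
    (hres : ∀ W : Submodule k (Vec k N), W ≠ ⊤ → (∃ i, l i ∈ W) → ∀ m : ℤ,
      al l α W ≠ (m : K)) :
    Good H N (Btop l α) := by
  refine ⟨?_, ?_, ?_⟩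
  · rw [Lv_top]
    have h1 := sum_cf' l α (inW H ⊤) (mem_inW.2 ⟨hH.e0_mem, trivial⟩)
      (fun _ => (1 : Module.End K K))
    have h2 : ∑ v ∈ inW H ⊤, Btop l α v = ∑ v ∈ inW H ⊤, (cf l α v) • (1 : Module.End K K) := rfl
    rw [h2, h1, Finset.sum_smul, neg_add_eq_zero]
    refine Finset.sum_congr rfl fun i _ => ?_
    by_cases hi : l i = e0 k N
    · rw [if_pos hi, if_neg (fun h => h.2 hi), zero_smul]
    · rw [if_neg hi, if_pos ⟨mem_inW.2 ⟨hlH i, trivial⟩, hi⟩]
  · intro W v _ _
    unfold Btop
    rw [← Finset.sum_smul]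
    exact ((Commute.one_left _).smul_left _)
  · intro W m hm
    rw [Lv_top, top_inf_eq]
    have hal : al l α W ≠ (m : K) := by
      have hm' : (m : K) ≠ 0 := Int.cast_ne_zero.2 hm
      by_cases hW : W = ⊤
      · have h1 : al l α W = 0 := by
          unfold al
          rw [hW, ← hsum]
          exact Finset.sum_congr rfl fun i _ => if_pos Submodule.mem_top
        rw [h1]; exact hm'.symm
      · by_cases hex : ∃ i, l i ∈ W
        · exact hres W hW hex m
        · have h1 : al l α W = 0 := by
            unfold al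
            exact Finset.sum_eq_zero fun i _ => if_neg (fun h => hex ⟨i, h⟩)
          rw [h1]; exact hm'.symm
    have hscal : (∑ w ∈ inW H W, Btop l α w) = (al l α W) • (1 : Module.End K K) := by
      have h0 : (∑ w ∈ inW H W, Btop l α w) = (∑ w ∈ inW H W, cf l α w) • 1 := by
        rw [Finset.sum_smul]; rfl
      rw [h0]
      congr 1
      by_cases hW : e0 k N ∈ W
      · have h1 := sum_cf' l α (inW H W) (mem_inW.2 ⟨hH.e0_mem, hW⟩) (fun _ => (1 : K))
        simp only [smul_eq_mul, mul_one] at h1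
        rw [h1]
        have h2 : (∑ i, if l i = e0 k N then 0 else α i) =
            (∑ i, if (l i ∈ inW H W ∧ l i ≠ e0 k N) then α i else 0) +
            ∑ i, (if l i ∈ W then 0 else α i) := by
          rw [← Finset.sum_add_distrib]
          refine Finset.sum_congr rfl fun i _ => ?_
          by_cases hi : l i = e0 k N
          · rw [if_pos hi, if_neg (fun h => h.2 hi), if_pos (hi ▸ hW), add_zero]
          · by_cases hiW : l i ∈ W
            · rw [if_neg hi, if_pos ⟨mem_inW.2 ⟨hlH i, hiW⟩, hi⟩, if_pos hiW,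
                add_zero]
            · rw [if_neg hi, if_neg (fun h => hiW (mem_inW.1 h.1).2), if_neg hiW, zero_add]
        have h3 : al l α W + ∑ i, (if l i ∈ W then 0 else α i) = 0 := by
          refine Eq.trans ?_ hsum
          unfold al
          rw [← Finset.sum_add_distrib]
          refine Finset.sum_congr rfl fun i _ => ?_
          by_cases hi : l i ∈ W
          · rw [if_pos hi, if_pos hi, add_zero]
          · rw [if_neg hi, if_neg hi, zero_add]
        rw [h2]
        linear_combination -h3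
      · have h1 := sum_cf l α (inW H W) (fun h => hW (mem_inW.1 h).2) (fun _ => (1 : K))
        simp only [smul_eq_mul, mul_one] at h1
        rw [h1]
        unfold al
        refine Finset.sum_congr rfl fun i _ => ?_
        by_cases hiW : l i ∈ W
        · rw [if_pos (mem_inW.2 ⟨hlH i, hiW⟩), if_pos hiW]
        · rw [if_neg (fun h => hiW (mem_inW.1 h).2), if_neg hiW]
    intro a b hab
    simp only [hscal, LinearMap.smul_apply, Module.End.one_apply, smul_eq_mul] at hab
    have h5 : (al l α W - m) * (a - b) = 0 := by linear_combination hab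
    rcases mul_eq_zero.1 h5 with h6 | h6
    · exact absurd (sub_eq_zero.1 h6) hal
    · exact sub_eq_zero.1 h6

open Classical in
/-- The functional `Λ`. -/
theorem exists_Lambda0 [CharZero k] (En : Env K F N) {H : Finset (Vec k N)} (hH : Tower H)
    (l : ι → Vec k N) (hlH : ∀ i, l i ∈ H)
    (hgen : ∀ s : Set ι, Submodule.span k (l '' s) ≠ ⊤ → e0 k N ∉ Submodule.span k (l '' s))
    (α : ι → K) (hsum : ∑ i, α i = 0)
    (hres : ∀ W : Submodule k (Vec k N), W ≠ ⊤ → (∃ i, l i ∈ W) → ∀ m : ℤ,
      al l α W ≠ (m : K))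
    (Ψ : ExteriorAlgebra k (ι → k)) :
    ∃ L : F →ₗ[K] K,
      (∀ (i : Fin N), ∀ s ∈ Algebra.adjoin K (Set.range En.y ∪
          Set.range (fun e => (En.aff (l e))⁻¹)),
        L (En.D i s) =
          - ∑ e, α e * (algebraMap k K (l e i.succ)) * L (s * (En.aff (l e))⁻¹)) ∧
      (∀ e : Fin N → ι, L (En.logf le_rfl (l ∘ e)) = S l α N (l ∘ e) (bd k ι Ψ)) := by
  have : CharZero K := charZero_of_injective_algebraMap (algebraMap k K).injective
  have hl : ∀ i, l i ≠ 0 := fun i => hH.ne_zero (hlH i)
  obtain ⟨L, hL1, hL2⟩ := exists_horizontal' En H hH N le_rfl K (Btop l α)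
    (Good_Btop0 hH l hlH α hsum hres) (fun v => S l α N v (bd k ι Ψ))
    (OSfun_S hH l hl α hgen _) (by
      intro a ha v hv
      obtain ⟨r, rfl⟩ : ∃ r, N = r + 1 := ⟨N - 1, by have := a.2; omega⟩
      have ha0 : a = 0 := Fin.ext ha
      subst ha0
      set v' : Fin r → Vec k (r + 1) := Fin.tail v with hv'
      have hupd : ∀ w, Function.update v 0 w = (Fin.cons w v' : Fin (r + 1) → _) := by
        intro w
        rw [hv', ← Fin.cons_self_tail v, Fin.update_cons_zero]
        simp
      simp only [hupd]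
      have h1 := sum_cf' l α (inW H (Lv k (r + 1) (r + 1)))
        (mem_inW.2 ⟨hH.e0_mem, e0_mem_Lv _⟩)
        (fun w => S l α (r + 1) (Fin.cons w v' : Fin (r + 1) → _) (bd k ι Ψ))
      have h2 : ∀ w ∈ inW H (Lv k (r + 1) (r + 1)),
          Btop l α w (S l α (r + 1) (Fin.cons w v' : Fin (r + 1) → _) (bd k ι Ψ)) =
          (cf l α w) • S l α (r + 1) (Fin.cons w v' : Fin (r + 1) → _) (bd k ι Ψ) :=
        fun w _ => rfl
      rw [Finset.sum_congr rfl h2, h1]
      have h3 : S l α (r + 1) (Fin.cons (e0 k (r + 1)) v' : Fin (r + 1) → _) (bd k ι Ψ) = 0 :=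
        S_one l hl α hgen _ (Submodule.subset_span ⟨0, by simp⟩) _
      rw [h3, smul_zero, neg_zero, zero_add]
      have h4 : ∀ i, (if (l i ∈ inW H (Lv k (r + 1) (r + 1)) ∧ l i ≠ e0 k (r + 1)) then
          α i • S l α (r + 1) (Fin.cons (l i) v' : Fin (r + 1) → _) (bd k ι Ψ) else 0) =
          α i * S l α (r + 1) (Fin.cons (l i) v' : Fin (r + 1) → _) (bd k ι Ψ) := by
        intro i
        by_cases hi : l i = e0 k (r + 1)
        · rw [if_neg (fun h => h.2 hi), hi, h3, mul_zero]
        · rw [if_pos ⟨mem_inW.2 ⟨hlH i, by rw [Lv_top]; trivial⟩, hi⟩]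
          rfl
      rw [Finset.sum_congr rfl fun i _ => h4 i, S_adj' l hl α (fun W hW hfin h0 => by
        refine hres W ?_ hW 0 (by rw [h0, Int.cast_zero])
        rintro rfl
        rw [finrank_top, Module.finrank_fin_fun] at hfin
        omega) v', bd_bd, map_zero])
  have hsub : Algebra.adjoin K (Set.range En.y ∪ Set.range (fun e => (En.aff (l e))⁻¹)) ≤
      ringAt En H N := by
    refine Algebra.adjoin_le ?_
    rintro f (⟨i, rfl⟩ | ⟨e, rfl⟩)
    · exact y_mem_ringAt En H i.2
    · exact inv_mem_ringAt En H (mem_inW.2 ⟨hlH e, by rw [Lv_top]; trivial⟩)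
  have hA : ∀ (i : Fin N), ∀ s ∈ Algebra.adjoin K (Set.range En.y ∪
          Set.range (fun e => (En.aff (l e))⁻¹)),
        L (En.D i s) =
          - ∑ e, α e * (algebraMap k K (l e i.succ)) * L (s * (En.aff (l e))⁻¹) := by
    intro i s hs
    rw [hL1 i i.2 s (hsub hs)]
    congr 1
    have h1 := sum_cf' l α (inW H (Lv k N N)) (mem_inW.2 ⟨hH.e0_mem, e0_mem_Lv _⟩)
      (fun w => (algebraMap k K (w i.succ)) • L (s * (En.aff w)⁻¹))
    have h2 : ∀ w ∈ inW H (Lv k N N),
        (algebraMap k K (w i.succ)) • Btop l α w (L (s * (En.aff w)⁻¹)) =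
        (cf l α w) • ((algebraMap k K (w i.succ)) • L (s * (En.aff w)⁻¹)) := by
      intro w _
      simp only [Btop, LinearMap.smul_apply, Module.End.one_apply, smul_eq_mul]
      ring
    rw [Finset.sum_congr rfl h2, h1]
    have h3 : (e0 k N) i.succ = 0 := by simp [e0]
    rw [h3, map_zero, zero_smul, smul_zero, neg_zero, zero_add]
    refine Finset.sum_congr rfl fun e _ => ?_
    by_cases hi : l e = e0 k N
    · rw [if_neg (fun h => h.2 hi), hi, h3, map_zero, mul_zero, zero_mul]
    · rw [if_pos ⟨mem_inW.2 ⟨hlH e, by rw [Lv_top]; trivial⟩, hi⟩, smul_eq_mul, smul_eq_mul,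
        mul_assoc]
  have hB : ∀ e : Fin N → ι, L (En.logf le_rfl (l ∘ e)) = S l α N (l ∘ e) (bd k ι Ψ) := by
    intro e
    exact hL2 (l ∘ e) (fun a => mem_inW.2 ⟨hlH _, by rw [Lv_top]; trivial⟩)
  exact ⟨L, hA, hB⟩

/-- `Λ (1 / ∏ l_b)`, without dividing by the total exponent. -/
theorem Lambda_basis0 [CharZero k] (En : Env K F N) (l : ι → Vec k N) (hl : ∀ i, l i ≠ 0)
    (α : ι → K) (Ψ : ExteriorAlgebra k (ι → k)) (L : F →ₗ[K] K)
    (hL : ∀ e : Fin N → ι, L (En.logf le_rfl (l ∘ e)) = S l α N (l ∘ e) (bd k ι Ψ))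
    (b : Fin (N + 1) → ι) (hb : LinearIndependent k (l ∘ b)) :
    ∃ δ : k, δ ≠ 0 ∧ algebraMap k K δ * L (∏ a, (En.aff (l (b a)))⁻¹) =
      ∑ i : Fin (N + 1), ((-1 : ℤ) ^ (i : ℕ)) •
        S l α N ((l ∘ b) ∘ i.succAbove) (bd k ι Ψ) := by
  set C : Fin (N + 1) → Vec k N := l ∘ b with hC
  -- the determinant
  set M : Matrix (Fin (N + 1)) (Fin (N + 1)) F := Matrix.of fun (a i : Fin (N + 1)) =>
        (Fin.cases (En.aff (C a)) (fun i : Fin N => En.cst (C a ⟨N - (i : ℕ), by omega⟩)) i : F)
    with hM
  set M0 : Matrix (Fin (N + 1)) (Fin (N + 1)) k := Matrix.of fun (a i : Fin (N + 1)) =>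
        (Fin.cases (C a 0) (fun i : Fin N => (C a ⟨N - (i : ℕ), by omega⟩)) i : k)
    with hM0
  have hM0det : M0.det ≠ 0 := by
    intro h
    rw [← Matrix.exists_vecMul_eq_zero_iff] at h
    obtain ⟨g, hg, h⟩ := h
    apply hg
    have h1 : ∑ a, g a • C a = 0 := by
      funext m
      rw [Finset.sum_apply]
      by_cases hm : m = 0
      · have h2 := congrFun h 0
        subst hm
        simpa [Matrix.vecMul, dotProduct, hM0] using h2
      · have hm1 : 0 < (m : ℕ) := by
          rcases Nat.eq_zero_or_pos (m : ℕ) with h3 | h3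
          · exact absurd (Fin.ext h3) hm
          · exact h3
        have h2 := congrFun h (Fin.succ ⟨N - (m : ℕ), by omega⟩)
        have h3 : (⟨N - (N - (m : ℕ)), by omega⟩ : Fin (N + 1)) = m := Fin.ext (by
          have := m.2
          simp; omega)
        simpa [Matrix.vecMul, dotProduct, hM0, h3] using h2
    rw [Fintype.linearIndependent_iff] at hb
    funext a
    exact hb g h1 a
  have hMdet : M.det = En.cst M0.det := by
    -- column operations
    set M1 : Matrix (Fin (N + 1)) (Fin (N + 1)) F := M0.map En.cst with hM1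
    have h1 : En.cst M0.det = M1.det := by rw [hM1, RingHom.map_det]; rfl
    rw [h1]
    have h2 : ∀ s : Finset (Fin N), (M1.updateCol 0 (fun a => En.cst (C a 0) +
        ∑ i ∈ s, En.y i * En.cst (C a i.succ))).det = M1.det := by
      intro s
      classical
      induction s using Finset.induction_on with
      | empty =>
        congr 1
        ext a i
        refine Fin.cases ?_ (fun i => ?_) i
        · simp [hM1, hM0]
        · rw [Matrix.updateCol_ne (Fin.succ_ne_zero i)]
      | insert i s hi ih =>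
        have h3 : (fun a => En.cst (C a 0) + ∑ i ∈ insert i s, En.y i * En.cst (C a i.succ)) =
            (fun a => En.cst (C a 0) + ∑ i ∈ s, En.y i * En.cst (C a i.succ)) +
            En.y i • (fun a => En.cst (C a i.succ)) := by
          funext a
          rw [Finset.sum_insert hi]
          simp only [Pi.add_apply, Pi.smul_apply, smul_eq_mul]
          ring
        rw [h3, Matrix.det_updateCol_add, ih, Matrix.det_updateCol_smul]
        have h4 : (M1.updateCol 0 (fun a => En.cst (C a i.succ))).det = 0 := by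
          refine Matrix.det_zero_of_column_eq (i := 0)
            (j := Fin.succ ⟨N - ((i : ℕ) + 1), by omega⟩) (Fin.succ_ne_zero _).symm ?_
          intro a
          rw [Matrix.updateCol_self, Matrix.updateCol_ne (Fin.succ_ne_zero _)]
          have h5 : (⟨N - (N - ((i : ℕ) + 1)), by omega⟩ : Fin (N + 1)) = i.succ := Fin.ext (by
            have := i.2
            simp; omega)
          simp [hM1, hM0, h5]
        rw [h4, mul_zero, add_zero]
    rw [← h2 Finset.univ]
    congr 1
    ext a i
    refine Fin.cases ?_ (fun i => ?_) i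
    · rw [Matrix.updateCol_self]
      simp only [hM, Matrix.of_apply, Fin.cases_zero]
      rw [En.aff_def]
      congr 1
      exact Finset.sum_congr rfl fun i _ => mul_comm _ _
    · rw [Matrix.updateCol_ne (Fin.succ_ne_zero _)]
      simp [hM1, hM0, hM]
  refine ⟨M0.det, hM0det, ?_⟩
  have hlap := logf_laplace En (le_refl N) C (fun a => hl _)
  have h6 := congrArg L hlap
  rw [← hM, hMdet, mul_comm, map_cst, map_sum] at h6
  have h7 : ∏ a, (En.aff (C a))⁻¹ = ∏ a, (En.aff (l (b a)))⁻¹ := rfl
  rw [h7, smul_eq_mul] at h6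
  rw [← h6]
  refine Finset.sum_congr rfl fun i _ => ?_
  rw [map_zsmul]
  congr 1
  exact hL (b ∘ i.succAbove)

end Pool.Agent.helper67.IF
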