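import Mathlib
import Pool.Agent.helper67.IF.Arr2
import Pool.Agent.helper67.ND.G6
import Pool.Agent.helper67.ND.G1
import Pool.Agent.helper14.ND_E2
import Pool.Agent.helper67.IF.Susp

/-! Stokes functionals of arrangements. -/

set_option autoImplicit false

namespace Pool.Agent.helper67.IF

open scoped BigOperators
open MvPolynomial
open Pool.Agent.helper67.ND Pool.Agent.helper61.NDA Pool.Agent.helper14.CND

section Spec

variable {ι : Type} [Fintype ι] {V : Type} [AddCommGroup V] [Module ℂ V] [FiniteDimensional ℂ V]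

open Classical in
lemma al_spec (l : ι → V) (a : ι → PowerSeries ℂ) (W : Submodule ℂ V) :
    ∃ p : PowerSeries ℂ, algebraMap (PowerSeries ℂ) KK p =
        al (k := ℂ) l (fun i => algebraMap (PowerSeries ℂ) KK (a i)) W ∧
      PowerSeries.constantCoeff p =
        al (k := ℂ) l (fun i => PowerSeries.constantCoeff (a i)) W := by
  refine ⟨∑ i, if l i ∈ W then a i else 0, ?_, ?_⟩
  · unfold al
    rw [map_sum]
    refine Finset.sum_congr rfl fun i _ => ?_
    split_ifs <;> simp
  · unfold al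
    rw [map_sum]
    refine Finset.sum_congr rfl fun i _ => ?_
    split_ifs <;> simp

/-- Specialization of the kernel at `t = 0`. -/
theorem S_spec (l : ι → V) (a : ι → PowerSeries ℂ) (r : ℕ)
    (hal : ∀ W : Submodule ℂ V, (∃ i, l i ∈ W) → Module.finrank ℂ W ≤ r →
      al (k := ℂ) l (fun i => PowerSeries.constantCoeff (a i)) W ≠ 0)
    (J : Fin r → V) (ψ : ExteriorAlgebra ℂ (ι → ℂ)) :
    ∃ p : PowerSeries ℂ, algebraMap (PowerSeries ℂ) KK p =
        S (k := ℂ) l (fun i => algebraMap (PowerSeries ℂ) KK (a i)) r J ψ ∧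
      PowerSeries.constantCoeff p =
        S (k := ℂ) l (fun i => PowerSeries.constantCoeff (a i)) r J ψ := by
  classical
  induction r generalizing ψ with
  | zero =>
    refine ⟨PowerSeries.C (ExteriorAlgebra.algebraMapInv ψ), ?_, ?_⟩
    · rw [S_zero, KK_algebraMap]
    · rw [S_zero, PowerSeries.constantCoeff_C]
      rfl
  | succ r ih =>
    by_cases hJ : LinearIndependent ℂ J
    · set W := Submodule.span ℂ (Set.range J) with hW
      obtain ⟨A, hA, hA0⟩ := al_spec l a W
      have hsum : ∃ P : PowerSeries ℂ, algebraMap (PowerSeries ℂ) KK P =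
          ∑ i : Fin (r + 1), ((-1 : ℤ) ^ (i : ℕ)) •
            S (k := ℂ) l (fun i => algebraMap (PowerSeries ℂ) KK (a i)) r (J ∘ i.succAbove)
              (bd ℂ ι (rho l W ψ)) ∧
          PowerSeries.constantCoeff P = ∑ i : Fin (r + 1), ((-1 : ℤ) ^ (i : ℕ)) •
            S (k := ℂ) l (fun i => PowerSeries.constantCoeff (a i)) r (J ∘ i.succAbove)
              (bd ℂ ι (rho l W ψ)) := by
        choose p hp hp0 using fun i : Fin (r + 1) =>
          ih (fun W' h1 h2 => hal W' h1 (by omega)) (J ∘ i.succAbove) (bd ℂ ι (rho l W ψ))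
        refine ⟨∑ i : Fin (r + 1), ((-1 : ℤ) ^ (i : ℕ)) • p i, ?_, ?_⟩
        · rw [map_sum]
          refine Finset.sum_congr rfl fun i _ => ?_
          rw [map_zsmul, hp]
        · rw [map_sum]
          refine Finset.sum_congr rfl fun i _ => ?_
          rw [map_zsmul, hp0]
      obtain ⟨P, hP, hP0⟩ := hsum
      rw [S_succ _ _ J hJ, S_succ _ _ J hJ, ← hW, ← hA, ← hP, ← hA0, ← hP0]
      by_cases hex : ∃ i, l i ∈ W
      · have hA1 : PowerSeries.constantCoeff A ≠ 0 := by
          rw [hA0]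
          refine hal W hex ?_
          rw [hW]
          exact (finrank_range_le_card _).trans (by simp)
        refine ⟨A⁻¹ * P, ?_, ?_⟩
        · rw [map_mul]
          congr 1
          have h1 := congrArg (algebraMap (PowerSeries ℂ) KK) (PowerSeries.mul_inv_cancel A hA1)
          rw [map_mul, map_one] at h1
          exact eq_inv_of_mul_eq_one_right h1
        · rw [map_mul, PowerSeries.constantCoeff_inv]
      · refine ⟨0, ?_, ?_⟩
        · have h1 : algebraMap (PowerSeries ℂ) KK A = 0 := by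
            rw [hA]
            unfold al
            exact Finset.sum_eq_zero fun i _ => if_neg (fun h => hex ⟨i, h⟩)
          rw [h1, inv_zero, zero_mul, map_zero]
        · have h1 : PowerSeries.constantCoeff A = 0 := by
            rw [hA0]
            unfold al
            exact Finset.sum_eq_zero fun i _ => if_neg (fun h => hex ⟨i, h⟩)
          rw [h1, inv_zero, zero_mul, map_zero]
    · exact ⟨0, by rw [S_dep _ _ J hJ, map_zero], by rw [S_dep _ _ J hJ, map_zero]⟩

lemma rho_top (l : ι → V) (ψ : ExteriorAlgebra ℂ (ι → ℂ)) :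
    rho l (⊤ : Submodule ℂ V) ψ = ψ := by
  have h8 : resW l (⊤ : Submodule ℂ V) = LinearMap.id := by
    apply LinearMap.ext
    intro x
    funext i
    simp [resW]
  unfold rho
  rw [h8, ExteriorAlgebra.map_id]
  rfl

end Spec

lemma coeff_one_lin (x y : ℂ) :
    PowerSeries.coeff 1 (PowerSeries.C x + PowerSeries.X * PowerSeries.C y) = y := by
  rw [map_add, PowerSeries.coeff_C, if_neg one_ne_zero, zero_add,
    show (1 : ℕ) = 0 + 1 from rfl, PowerSeries.coeff_succ_X_mul, PowerSeries.coeff_zero_C]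

open Classical in
/-- The functionals of an arrangement at `- n / d`. -/
theorem exists_L {ι : Type} [Fintype ι] {n : ℕ} (hn : 1 ≤ n) (l : ι → Fin n → ℂ)
    (hl : ∀ i, l i ≠ 0) (μ : ι → ℕ) (hμ : ∀ i, 1 ≤ μ i) (hne : Nonempty ι)
    (hspan : Submodule.span ℂ (Set.range l) = ⊤) (hconn : Conn (k := ℂ) l)
    (hres : ∀ W : Submodule ℂ (Fin n → ℂ), W ≠ ⊤ → (∃ i, l i ∈ W) →
      ¬ (∑ i, μ i) ∣ n * ∑ i, (if l i ∈ W then μ i else 0)) :
    ∃ (κ : Fin n → ℂ) (L : ℕ → MvPolynomial (Fin n) ℂ →ₗ[ℂ] ℂ),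
      (∀ m p, L (m + 1) (arrP l μ * p) = L m p) ∧
      (∀ (i : Fin n) (m e : ℕ) (p : MvPolynomial (Fin n) ℂ), p.IsHomogeneous e →
        L (m + 1) (arrP l μ * pderiv i p +
          C (- (n : ℂ) / (∑ i, μ i : ℕ) - m) * (pderiv i (arrP l μ) * p)) =
          κ i * ((e : ℂ) - m * (∑ i, μ i : ℕ) - 1) * L m p) ∧
      L 0 1 ≠ 0 := by
  obtain ⟨N, rfl⟩ : ∃ N, n = N + 1 := ⟨n - 1, by omega⟩
  obtain ⟨F, _, _, ⟨En⟩⟩ := exists_env ℂ N
  obtain ⟨Φ, hΦ⟩ := Pool.Agent.helper31.NDG3.exists_chart l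
  obtain ⟨H, hH, hs⟩ := Pool.Agent.helper31.NDC4.exists_tower
    (Finset.univ.image (fun i => (Φ (l i) : Vec ℂ N))) (by
      intro v hv
      obtain ⟨i, _, rfl⟩ := Finset.mem_image.1 hv
      intro h
      exact hl i ((Φ.map_eq_zero_iff).1 h))
  have hs' : ∀ i, ∃ c : ℂ, c ≠ 0 ∧ c • Φ (l i) ∈ H := fun i =>
    hs _ (Finset.mem_image.2 ⟨i, Finset.mem_univ i, rfl⟩)
  choose c hc hcH using hs'
  set l' : ι → Vec ℂ N := fun i => c i • Φ (l i) with hl'
  have hl'0 : ∀ i, l' i ≠ 0 := fun i => hH.ne_zero (hcH i)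
  have hspan' : Submodule.span ℂ (Set.range l') = ⊤ := by
    rw [← Set.image_univ, span_scale Φ l c hc, map_eq_top_iff', Set.image_univ, hspan]
  have hgen : ∀ s : Set ι, Submodule.span ℂ (l' '' s) ≠ ⊤ →
      e0 ℂ N ∉ Submodule.span ℂ (l' '' s) := by
    intro s hs h
    rw [hl', span_scale Φ l c hc] at hs h
    rw [Ne, map_eq_top_iff'] at hs
    apply hΦ s hs
    rw [span_scale' Φ l s]
    exact h
  have hB := Pool.Agent.helper43.NDB.exists_good (k := ℂ) (K := KK) l'
    hl'0 hne hspan' (hconn.scale Φ l c hc)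
  have hfr : Module.finrank ℂ (Vec ℂ N) = N + 1 := by simp
  rw [hfr] at hB
  obtain ⟨b, Ψ, hb, hgood⟩ := hB
  set d : ℕ := ∑ i, μ i with hd
  have hdpos : 0 < d := Finset.sum_pos (fun i _ => hμ i) Finset.univ_nonempty
  have hdC : (d : ℂ) ≠ 0 := by exact_mod_cast hdpos.ne'
  set s0 : ℂ := - ((N + 1 : ℕ) : ℂ) / d with hs0
  -- nonresonance in the chart
  have hmem : ∀ (W : Submodule ℂ (Vec ℂ N)) i,
      l' i ∈ W ↔ l i ∈ W.comap (Φ : (Fin (N + 1) → ℂ) →ₗ[ℂ] Vec ℂ N) := by
    intro W i
    rw [Submodule.mem_comap, hl']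
    constructor
    · intro h
      have := W.smul_mem (c i)⁻¹ h
      rwa [smul_smul, inv_mul_cancel₀ (hc i), one_smul] at this
    · intro h
      exact W.smul_mem _ h
  have hres' : ∀ W : Submodule ℂ (Vec ℂ N), W ≠ ⊤ → (∃ i, l' i ∈ W) → ∀ m : ℤ,
      al l' (fun i => (if (∃ a, b a = i) then (1 : ℂ) else 0) + s0 * μ i) W ≠ (m : ℂ) := by
    intro W hW hex m hm
    set W0 := W.comap (Φ : (Fin (N + 1) → ℂ) →ₗ[ℂ] Vec ℂ N) with hW0
    have hW0top : W0 ≠ ⊤ := by
      intro h
      apply hW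
      rw [eq_top_iff]
      intro x _
      have h1 : Φ.symm x ∈ W0 := by rw [h]; trivial
      rw [hW0, Submodule.mem_comap] at h1
      simpa using h1
    have hex0 : ∃ i, l i ∈ W0 := by
      obtain ⟨i, hi⟩ := hex
      exact ⟨i, (hmem W i).1 hi⟩
    apply hres W0 hW0top hex0
    set q : ℕ := ∑ i, (if l i ∈ W0 then μ i else 0) with hq
    set r : ℕ := (Finset.univ.filter (fun i => l' i ∈ W ∧ ∃ a, b a = i)).card with hr
    have h1 : al l' (fun i => (if (∃ a, b a = i) then (1 : ℂ) else 0) + s0 * μ i) W =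
        r + s0 * q := by
      unfold al
      have h2 : ∀ i, (if l' i ∈ W then (if (∃ a, b a = i) then (1 : ℂ) else 0) + s0 * μ i
          else 0) = (if (l' i ∈ W ∧ ∃ a, b a = i) then (1 : ℂ) else 0) +
            s0 * ((if l i ∈ W0 then μ i else 0 : ℕ) : ℂ) := by
        intro i
        by_cases hi : l' i ∈ W
        · rw [if_pos hi, if_pos ((hmem W i).1 hi)]
          congr 1
          by_cases hi2 : ∃ a, b a = i
          · rw [if_pos hi2, if_pos ⟨hi, hi2⟩]
          · rw [if_neg hi2, if_neg (fun h => hi2 h.2)]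
        · rw [if_neg hi, if_neg (fun h => hi ((hmem W i).2 h)), if_neg (fun h => hi h.1)]
          simp
      rw [Finset.sum_congr rfl fun i _ => h2 i, Finset.sum_add_distrib, ← Finset.mul_sum,
        ← Nat.cast_sum, ← Finset.sum_filter, Finset.sum_const, nsmul_eq_mul, mul_one]
    rw [h1, hs0] at hm
    have h3 : (((N + 1 : ℕ) : ℤ) * q : ℤ) = d * ((r : ℤ) - m) := by
      have h4 : (((N + 1 : ℕ) : ℂ) * q) = d * ((r : ℂ) - m) := by
        field_simp at hm
        linear_combination -hm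
      exact_mod_cast h4
    have h5 : (d : ℤ) ∣ ((N + 1 : ℕ) : ℤ) * q := ⟨_, h3⟩
    exact_mod_cast h5
  obtain ⟨κ, L, hL1, hL2, δ, hδ, hL3⟩ := exists_functional0 (K := ℂ) En hH Φ l c hc hcH hgen μ hμ
    hne b Ψ hb hres'
  have hmap : map (algebraMap ℂ ℂ) (arrP l μ) = arrP l μ := by
    rw [show algebraMap ℂ ℂ = RingHom.id ℂ from rfl, MvPolynomial.map_id]
  rw [hmap] at hL1 hL2
  refine ⟨κ, L, hL1, hL2, ?_⟩
  -- the value at `1`
  intro h0
  rw [h0, mul_zero] at hL3
  set a : ι → PowerSeries ℂ := fun i =>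
    PowerSeries.C ((if (∃ a, b a = i) then (1 : ℂ) else 0) + s0 * μ i) +
      PowerSeries.X * PowerSeries.C (μ i : ℂ) with ha
  have ha0 : ∀ i, PowerSeries.constantCoeff (a i) =
      (if (∃ a, b a = i) then (1 : ℂ) else 0) + s0 * μ i := by
    intro i
    simp only [ha, map_add, map_mul, PowerSeries.constantCoeff_C, PowerSeries.constantCoeff_X,
      zero_mul, add_zero]
  have halK : ∀ W : Submodule ℂ (Vec ℂ N), (∃ i, l' i ∈ W) →
      al l' (fun i => algebraMap (PowerSeries ℂ) KK (a i)) W ≠ 0 := by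
    rintro W ⟨i0, hi0⟩ h
    have h1 : al l' (fun i => algebraMap (PowerSeries ℂ) KK (a i)) W =
        algebraMap (PowerSeries ℂ) KK (∑ i, if l' i ∈ W then a i else 0) := by
      unfold al
      rw [map_sum]
      refine Finset.sum_congr rfl fun i _ => ?_
      split_ifs <;> simp
    rw [h1] at h
    have h2 := (IsFractionRing.injective (PowerSeries ℂ) KK) (h.trans (map_zero _).symm)
    have h3 := congrArg (PowerSeries.coeff 1) h2
    rw [map_sum, map_zero] at h3
    have h4 : ∀ i, PowerSeries.coeff 1 (if l' i ∈ W then a i else 0) =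
        ((if l' i ∈ W then μ i else 0 : ℕ) : ℂ) := by
      intro i
      by_cases hi : l' i ∈ W
      · rw [if_pos hi, if_pos hi]
        exact coeff_one_lin _ _
      · rw [if_neg hi, if_neg hi, map_zero, Nat.cast_zero]
    rw [Finset.sum_congr rfl fun i _ => h4 i, ← Nat.cast_sum] at h3
    have h5 : ∑ i, (if l' i ∈ W then μ i else 0) = 0 := by exact_mod_cast h3
    have h6 : (if l' i0 ∈ W then μ i0 else 0) ≤ ∑ i, (if l' i ∈ W then μ i else 0) :=
      Finset.single_le_sum (f := fun i => if l' i ∈ W then μ i else 0)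
        (fun _ _ => Nat.zero_le _) (Finset.mem_univ i0)
    rw [if_pos hi0, h5] at h6
    have := hμ i0
    omega
  obtain ⟨u, hu, hu1⟩ := hgood RR (fun i => algebraMap (PowerSeries ℂ) KK (a i))
    (fun i => ⟨a i, rfl⟩) halK
  have hspanb : Submodule.span ℂ (Set.range (l' ∘ b)) = ⊤ := by
    refine hb.span_eq_top_of_card_eq_finrank' ?_
    simp
  rw [S_succ _ _ _ hb, hspanb, rho_top, mul_inv_cancel_left₀
    (halK ⊤ ⟨Classical.arbitrary ι, trivial⟩)] at hu1
  choose p hp hp0 using fun j : Fin (N + 1) => S_spec l' a N (fun W hW hfin h => by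
    refine hres' W ?_ hW 0 ?_
    · rintro rfl
      rw [finrank_top, hfr] at hfin
      omega
    · rw [Int.cast_zero]
      simp only [ha0] at h
      exact h) ((l' ∘ b) ∘ j.succAbove) (bd ℂ ι Ψ)
  obtain ⟨u', rfl⟩ := hu
  have h7 : algebraMap (PowerSeries ℂ) KK (u' * ∑ j : Fin (N + 1),
      ((-1 : ℤ) ^ (j : ℕ)) • p j) = 1 := by
    refine Eq.trans ?_ hu1
    rw [map_mul, map_sum]
    congr 1
    refine Finset.sum_congr rfl fun j _ => ?_
    rw [map_zsmul, hp]
  have h8 := (IsFractionRing.injective (PowerSeries ℂ) KK) (h7.trans (map_one _).symm)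
  have h9 := congrArg PowerSeries.constantCoeff h8
  rw [map_mul, map_sum, map_one] at h9
  have h10 : ∑ j : Fin (N + 1), PowerSeries.constantCoeff (((-1 : ℤ) ^ (j : ℕ)) • p j) = 0 := by
    refine Eq.trans ?_ hL3.symm
    refine Finset.sum_congr rfl fun j _ => ?_
    rw [map_zsmul, hp0]
    simp only [ha0]
    rfl
  rw [h10, mul_zero] at h9
  exact zero_ne_one h9

lemma arrP_homog {ι : Type} [Fintype ι] {n : ℕ} (l : ι → Fin n → ℂ) (μ : ι → ℕ) :
    (arrP l μ).IsHomogeneous (∑ i, μ i) := by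
  rw [arrP]
  refine IsHomogeneous.prod _ _ _ fun i _ => ?_
  have h1 : (∑ j, C (l i j) * X j : MvPolynomial (Fin n) ℂ).IsHomogeneous 1 := by
    refine IsHomogeneous.sum _ _ _ fun j _ => ?_
    have := (isHomogeneous_C (Fin n) (l i j)).mul (isHomogeneous_X ℂ j)
    simpa using this
  simpa using h1.pow (μ i)

open Classical in
/-- **Arrangements have Stokes functionals.** -/
theorem hasStokes_arr {ι : Type} [Fintype ι] {n : ℕ} (hn : 1 ≤ n) (l : ι → Fin n → ℂ)
    (hl : ∀ i, l i ≠ 0) (μ : ι → ℕ) (hμ : ∀ i, 1 ≤ μ i)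
    (hspan : Submodule.span ℂ (Set.range l) = ⊤) (hconn : Conn (k := ℂ) l)
    (hd : 2 ≤ ∑ i, μ i)
    (hres : ∀ W : Submodule ℂ (Fin n → ℂ), W ≠ ⊤ → (∃ i, l i ∈ W) →
      ¬ (∑ i, μ i) ∣ n * ∑ i, (if l i ∈ W then μ i else 0)) :
    HasStokes (arrP l μ) := by
  have hne : Nonempty ι := by
    by_contra h
    rw [not_nonempty_iff] at h
    simp at hd
  obtain ⟨κ, L, hL1, hL2, hL3⟩ := exists_L hn l hl μ hμ hne hspan hconn hres
  set d : ℕ := ∑ i, μ i with hdd
  set f := arrP l μ with hf
  have hfh : f.IsHomogeneous d := arrP_homog l μ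
  have hdC : (d : ℂ) ≠ 0 := by exact_mod_cast (by omega : d ≠ 0)
  set s : ℂ := (n : ℂ) / d with hs
  set c : ℕ → ℂ := fun m => ∏ j ∈ Finset.range m, ((j : ℂ) + s) with hc
  have hcs : ∀ m, c (m + 1) = c m * ((m : ℂ) + s) := fun m => Finset.prod_range_succ _ _
  set g : (Fin n →₀ ℕ) → ℂ := fun u =>
    if d ∣ u.degree then c (u.degree / d) * L (u.degree / d) (monomial u 1) else 0 with hg
  have hval : ∀ (φ : MvPolynomial (Fin n) ℂ) (e : ℕ), φ.IsHomogeneous e →
      LM g φ = if d ∣ e then c (e / d) * L (e / d) φ else 0 := by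
    intro φ e hφ
    have hdeg : ∀ v ∈ φ.support, v.degree = e := fun v hv => by
      rw [Finsupp.degree_eq_weight_one]
      exact hφ (mem_support_iff.1 hv)
    have h1 : LM g φ = ∑ v ∈ φ.support, coeff v φ *
        (if d ∣ e then c (e / d) * L (e / d) (monomial v 1) else 0) := by
      conv_lhs => rw [φ.as_sum]
      rw [map_sum]
      refine Finset.sum_congr rfl fun v hv => ?_
      rw [LM_monomial]
      simp only [hg]
      rw [hdeg v hv]
    rw [h1]
    by_cases hde : d ∣ e
    · simp only [if_pos hde]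
      have h2 : L (e / d) φ = ∑ v ∈ φ.support, coeff v φ * L (e / d) (monomial v 1) := by
        conv_lhs => rw [φ.as_sum]
        rw [map_sum]
        refine Finset.sum_congr rfl fun v _ => ?_
        have e1 : (monomial v (coeff v φ) : MvPolynomial (Fin n) ℂ) =
            coeff v φ • monomial v 1 := by
          rw [smul_monomial, smul_eq_mul, mul_one]
        rw [e1, map_smul, smul_eq_mul]
      rw [h2, Finset.mul_sum]
      exact Finset.sum_congr rfl fun v _ => by ring
    · simp only [if_neg hde, mul_zero, Finset.sum_const_zero]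
  refine hasStokes_of_monomial _ (LM g) ?_ ?_
  · intro i u
    set φ : MvPolynomial (Fin n) ℂ := monomial u 1 with hφ
    have hφh : φ.IsHomogeneous u.degree := isHomogeneous_monomial 1 rfl
    set e := u.degree with he
    have h2 : (φ * pderiv i f).IsHomogeneous (e + (d - 1)) := hφh.mul (hfh.pderiv)
    rw [hval _ (e - 1) hφh.pderiv, hval _ (e + (d - 1)) h2]
    rcases Nat.eq_zero_or_pos e with he0 | he0
    · have hφ1 : pderiv i φ = 0 := by
        rw [hφ, pderiv_monomial]
        have hui : u i = 0 := by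
          have h3 : u.degree = 0 := he0
          rw [Finsupp.degree_eq_zero_iff] at h3
          rw [h3]; rfl
        rw [hui]; simp
      rw [hφ1, map_zero, mul_zero, ite_self, he0, zero_add, if_neg]
      intro h3
      have := Nat.le_of_dvd (by omega) h3
      omega
    · by_cases hde : d ∣ e - 1
      · obtain ⟨m, hm⟩ := hde
        have e1 : e + (d - 1) = d * (m + 1) := by
          rw [Nat.mul_succ, ← hm]; omega
        rw [hm, e1, if_pos (Dvd.intro _ rfl), if_pos (Dvd.intro _ rfl),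
          Nat.mul_div_cancel_left _ (by omega), Nat.mul_div_cancel_left _ (by omega), hcs]
        have h4 := hL2 i m e φ hφh
        have h5 : (e : ℂ) - m * d - 1 = 0 := by
          have : e = d * m + 1 := by omega
          rw [this]; push_cast; ring
        rw [h5, mul_zero, zero_mul, map_add, hL1] at h4
        have h6 : C (-(n : ℂ) / d - m) * (pderiv i f * φ) =
            (-((m : ℂ) + s)) • (φ * pderiv i f) := by
          have h7 : -(n : ℂ) / d - m = -((m : ℂ) + s) := by rw [hs]; ring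
          rw [smul_eq_C_mul, h7]; ring
        rw [h6, map_smul, smul_eq_mul] at h4
        linear_combination (c m) * h4
      · have hde' : ¬ d ∣ e + (d - 1) := by
          intro h3
          apply hde
          have e2 : e + (d - 1) = (e - 1) + d := by omega
          rw [e2] at h3
          exact (Nat.dvd_add_self_right).1 h3
        rw [if_neg hde, if_neg hde']
  · rw [hval 1 0 (isHomogeneous_one _ _), if_pos (dvd_zero _), Nat.zero_div]
    simp only [hc, Finset.range_zero, Finset.prod_empty, one_mul]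
    exact hL3

end Pool.Agent.helper67.IF
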