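import Mathlib
import Pool.Agent.helper67.ND.G5
import Pool.Agent.helper67.IF.Arr1

/-! The functional on polynomials over powers of a product of linear forms, with additional
exponents along some hyperplanes. -/

set_option autoImplicit false

namespace Pool.Agent.helper67.IF

open scoped BigOperators
open MvPolynomial
open Pool.Agent.helper67.ND

variable {k K F : Type} [Field k] [Field K] [Field F] [Algebra k K] [Algebra K F] {N : ℕ}
variable {ι : Type} [Fintype ι]

open Classical in
/-- The assembled functional, with additional exponents `ε` along some hyperplanes. -/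
theorem exists_functional1 [CharZero k] (En : Env K F N) {H : Finset (Vec k N)} (hH : Tower H)
    (Φ : (Fin (N + 1) → k) ≃ₗ[k] Vec k N) (l : ι → Fin (N + 1) → k) (c : ι → k)
    (hc : ∀ i, c i ≠ 0) (hlH : ∀ i, c i • Φ (l i) ∈ H)
    (hgen : ∀ s : Set ι, Submodule.span k ((fun i => c i • Φ (l i)) '' s) ≠ ⊤ →
      e0 k N ∉ Submodule.span k ((fun i => c i • Φ (l i)) '' s))
    (μ : ι → ℕ) (ε : ι → K) (s0 : K)
    (hs0 : ((N + 1 : ℕ) : K) + ∑ i, ε i + s0 * (∑ i, μ i : ℕ) = 0)
    (b : Fin (N + 1) → ι) (Ψ : ExteriorAlgebra k (ι → k))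
    (hb : LinearIndependent k (fun a => c (b a) • Φ (l (b a))))
    (hres : ∀ W : Submodule k (Vec k N), W ≠ ⊤ → (∃ i, c i • Φ (l i) ∈ W) → ∀ m : ℤ,
      al (fun i => c i • Φ (l i)) (fun i => (if (∃ a, b a = i) then (1 : K) else 0) +
        ε i + s0 * μ i) W ≠ (m : K)) :
    ∃ (κ : Fin (N + 1) → K) (L : ℕ → MvPolynomial (Fin (N + 1)) K →ₗ[K] K),
      (∀ m p, L (m + 1) (map (algebraMap k K) (arrP l μ) * p) = L m p) ∧
      (∀ (i : Fin (N + 1)), (∀ j, ε j ≠ 0 → l j i = 0) →
        ∀ (m e : ℕ) (p : MvPolynomial (Fin (N + 1)) K), p.IsHomogeneous e →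
        L (m + 1) (map (algebraMap k K) (arrP l μ) * pderiv i p +
          C (s0 - m) * (pderiv i (map (algebraMap k K) (arrP l μ)) * p)) =
          κ i * ((e : K) - m * (∑ i, μ i : ℕ) - 1) * L m p) ∧
      (∀ (i : Fin (N + 1)), (∀ j, ε j ≠ 0 → l j i ≠ 0 → l j = Pi.single i 1) →
        ∀ (m e : ℕ) (p : MvPolynomial (Fin (N + 1)) K), p.IsHomogeneous e →
        L (m + 1) (map (algebraMap k K) (arrP l μ) * pderiv i (X i * p) +
          C (s0 - m) * (pderiv i (map (algebraMap k K) (arrP l μ)) * (X i * p))) +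
          (∑ j, ε j * algebraMap k K (l j i)) * L m p =
          κ i * ((e : K) - m * (∑ i, μ i : ℕ)) * L m (X i * p)) ∧
      ∃ δ : k, δ ≠ 0 ∧ algebraMap k K δ * L 0 1 =
        ∑ j : Fin (N + 1), ((-1 : ℤ) ^ (j : ℕ)) •
          S (fun i => c i • Φ (l i)) (fun i => (if (∃ a, b a = i) then (1 : K) else 0) +
            ε i + s0 * μ i) N
            (((fun i => c i • Φ (l i)) ∘ b) ∘ j.succAbove) (bd k ι Ψ) := by
  have : CharZero K := charZero_of_injective_algebraMap (algebraMap k K).injective
  -- notation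
  set l' : ι → Vec k N := fun i => c i • Φ (l i) with hl'
  have hl'0 : ∀ i, l' i ≠ 0 := fun i => hH.ne_zero (hlH i)
  set d : ℕ := ∑ i, μ i with hd
  have hbinj : Function.Injective b := by
    intro a a' h
    apply hb.injective
    simp only [h]
  set α : ι → K := fun i => (if (∃ a, b a = i) then 1 else 0) + ε i + s0 * μ i with hα
  have hcard : ∑ i, (if (∃ a, b a = i) then (1 : K) else 0) = ((N + 1 : ℕ) : K) := by
    rw [← Finset.sum_filter]
    have h1 : Finset.univ.filter (fun i => ∃ a, b a = i) = Finset.univ.image b := by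
      ext i; simp
    rw [h1, Finset.sum_const, Finset.card_image_of_injective _ hbinj]
    simp
  have hαsum : ∑ i, α i = 0 := by
    rw [hα, Finset.sum_add_distrib, Finset.sum_add_distrib, hcard, ← Finset.mul_sum]
    have h1 : ∑ i, (μ i : K) = d := by rw [hd]; push_cast; rfl
    rw [h1]
    exact hs0
  obtain ⟨Λ, hΛ1, hΛ2⟩ := exists_Lambda0 En hH l' hlH hgen α hαsum hres Ψ
  -- the chart
  set E := ev En Φ with hE
  set f : MvPolynomial (Fin (N + 1)) K := map (algebraMap k K) (arrP l μ) with hf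
  have hg : ∀ i, En.aff (l' i) ≠ 0 := fun i => En.aff_ne_zero (hl'0 i)
  have haffl : ∀ i, En.aff (Φ (l i)) = (En.cst (c i))⁻¹ * En.aff (l' i) := by
    intro i
    rw [hl', En.aff_smul, ← mul_assoc, inv_mul_cancel₀, one_mul]
    exact (map_ne_zero _).2 (hc i)
  set Cst : k := ∏ i, (c i)⁻¹ ^ μ i with hCst
  have hCst0 : En.cst Cst ≠ 0 := (map_ne_zero _).2
    (Finset.prod_ne_zero_iff.2 fun i _ => pow_ne_zero _ (inv_ne_zero (hc i)))
  have hEf : E f = En.cst Cst * ∏ i, En.aff (l' i) ^ μ i := by
    rw [hf, arrP, map_prod, map_prod, hCst, map_prod, ← Finset.prod_mul_distrib]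
    refine Finset.prod_congr rfl fun i _ => ?_
    rw [map_pow, map_pow, hE, ev_lin, haffl, mul_pow, map_pow, map_inv₀]
  have hEf0 : E f ≠ 0 := by
    rw [hEf]
    exact mul_ne_zero hCst0 (Finset.prod_ne_zero_iff.2 fun i _ => pow_ne_zero _ (hg i))
  set wB : F := ∏ a, (En.aff (l' (b a)))⁻¹ with hwB
  have hwB' : wB = ∏ i, if (∃ a, b a = i) then (En.aff (l' i))⁻¹ else 1 :=
    prod_basis (fun i => (En.aff (l' i))⁻¹) b hbinj
  -- the ring
  set A := Algebra.adjoin K (Set.range En.y ∪ Set.range (fun e => (En.aff (l' e))⁻¹)) with hA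
  have hAy : ∀ i, En.y i ∈ A := fun i => Algebra.subset_adjoin (Or.inl ⟨i, rfl⟩)
  have hAinv : ∀ i, (En.aff (l' i))⁻¹ ∈ A := fun i => Algebra.subset_adjoin (Or.inr ⟨i, rfl⟩)
  have hAev : ∀ p, E p ∈ A := ev_mem En Φ A hAy
  have hAcst : ∀ c : k, En.cst c ∈ A := fun c => Subalgebra.algebraMap_mem _ _
  have hAf : (E f)⁻¹ ∈ A := by
    have h1 : (E f)⁻¹ = En.cst (Cst⁻¹) * ∏ i, ((En.aff (l' i))⁻¹) ^ μ i := by
      rw [hEf, mul_inv, map_inv₀]
      congr 1
      simp only [inv_pow, Finset.prod_inv_distrib]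
    rw [h1]
    exact A.mul_mem (hAcst _) (A.prod_mem fun i _ => A.pow_mem (hAinv i) _)
  have hAw : wB ∈ A := A.prod_mem fun a _ => hAinv _
  -- logarithmic derivatives
  have hDaff : ∀ (j : Fin N) i, En.D j (En.aff (l' i)) = En.cst (l' i j.succ) := fun j i =>
    En.D_aff j _
  have hDf : ∀ j : Fin N, En.D j (E f) =
      E f * ∑ i, (μ i : F) * ((En.aff (l' i))⁻¹ * En.cst (l' i j.succ)) := by
    intro j
    rw [hEf, Derivation.leibniz, En.D_cst, smul_zero, add_zero,
      D_prod _ _ _ (fun i => pow_ne_zero _ (hg i)), smul_eq_mul, mul_assoc]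
    congr 2
    refine Finset.sum_congr rfl fun i _ => ?_
    rw [D_pow _ _ (hg i), hDaff, ← mul_assoc, inv_mul_cancel₀ (pow_ne_zero _ (hg i)), one_mul]
  have hDw : ∀ j : Fin N, En.D j wB = - (wB *
      ∑ i, (if (∃ a, b a = i) then (1 : F) else 0) *
        ((En.aff (l' i))⁻¹ * En.cst (l' i j.succ))) := by
    intro j
    have h0 : ∀ i, (if (∃ a, b a = i) then (En.aff (l' i))⁻¹ else (1 : F)) ≠ 0 := by
      intro i
      split_ifs
      · exact inv_ne_zero (hg i)
      · exact one_ne_zero
    rw [hwB', D_prod _ _ _ h0, ← mul_neg, ← Finset.sum_neg_distrib]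
    congr 1
    refine Finset.sum_congr rfl fun i _ => ?_
    split_ifs
    · rw [En.D_inv, hDaff, inv_inv]
      field_simp [hg i]
    · simp
  -- the additional terms
  set θ : Fin N → F := fun j => ∑ i, algebraMap K F (ε i) *
    ((En.aff (l' i))⁻¹ * En.cst (l' i j.succ)) with hθ
  -- twisted Stokes
  have hTS : ∀ (j : Fin N), ∀ h ∈ A, Λ (wB * En.D j h) =
      - (s0 * Λ (wB * h * ((E f)⁻¹ * En.D j (E f))) + Λ (wB * h * θ j)) := by
    intro j h hh
    have h1 := hΛ1 j (wB * h) (A.mul_mem hAw hh)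
    rw [Derivation.leibniz, smul_eq_mul, smul_eq_mul, map_add, hDw] at h1
    have h2 : h * - (wB * ∑ i, (if (∃ a, b a = i) then (1 : F) else 0) *
        ((En.aff (l' i))⁻¹ * En.cst (l' i j.succ))) =
        - ∑ i, (if (∃ a, b a = i) then (1 : K) else 0) •
          (En.cst (l' i j.succ) * (wB * h * (En.aff (l' i))⁻¹)) := by
      rw [mul_neg, ← mul_assoc, Finset.mul_sum]
      congr 1
      refine Finset.sum_congr rfl fun i _ => ?_
      split_ifs
      · rw [one_smul]; ring
      · simp
    rw [h2, map_neg, map_sum] at h1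
    have h3 : (E f)⁻¹ * En.D j (E f) =
        ∑ i, (μ i : F) * ((En.aff (l' i))⁻¹ * En.cst (l' i j.succ)) := by
      rw [hDf, ← mul_assoc, inv_mul_cancel₀ hEf0, one_mul]
    have h4 : wB * h * ((E f)⁻¹ * En.D j (E f)) = ∑ i, (μ i : K) •
        (En.cst (l' i j.succ) * (wB * h * (En.aff (l' i))⁻¹)) := by
      rw [h3, Finset.mul_sum]
      refine Finset.sum_congr rfl fun i _ => ?_
      rw [Algebra.smul_def, map_natCast]; ring
    have h4' : wB * h * θ j = ∑ i, (ε i) •
        (En.cst (l' i j.succ) * (wB * h * (En.aff (l' i))⁻¹)) := by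
      rw [hθ, Finset.mul_sum]
      refine Finset.sum_congr rfl fun i _ => ?_
      rw [Algebra.smul_def]; ring
    rw [h4, h4', map_sum, map_sum]
    simp only [map_smul, smul_eq_mul, map_cst] at h1 ⊢
    have h5 : ∑ i, α i * (algebraMap k K (l' i j.succ)) * Λ (wB * h * (En.aff (l' i))⁻¹) =
        ∑ i, (if (∃ a, b a = i) then (1 : K) else 0) *
          ((algebraMap k K (l' i j.succ)) * Λ (wB * h * (En.aff (l' i))⁻¹)) +
        (∑ i, ε i * ((algebraMap k K (l' i j.succ)) * Λ (wB * h * (En.aff (l' i))⁻¹)) +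
        s0 * ∑ i, (μ i : K) *
          ((algebraMap k K (l' i j.succ)) * Λ (wB * h * (En.aff (l' i))⁻¹))) := by
      rw [Finset.mul_sum, ← Finset.sum_add_distrib, ← Finset.sum_add_distrib]
      refine Finset.sum_congr rfl fun i _ => ?_
      rw [hα]; ring
    rw [h5] at h1
    linear_combination h1
  -- the functional
  set L : ℕ → MvPolynomial (Fin (N + 1)) K →ₗ[K] K := fun m =>
    Λ ∘ₗ (LinearMap.mulRight K ((E f)⁻¹ ^ m * wB)) ∘ₗ E.toLinearMap with hL
  have hLapp : ∀ m p, L m p = Λ (E p * ((E f)⁻¹ ^ m * wB)) := fun m p => rfl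
  -- `Θ i = ∑ ε_j (∂_i ℓ_j) / ℓ_j`
  set Θ : Fin (N + 1) → F := fun i => ∑ j, algebraMap K F (ε j) *
    (En.cst (l j i) * (En.aff (Φ (l j)))⁻¹) with hΘ
  have haffl0 : ∀ j, En.aff (Φ (l j)) ≠ 0 := by
    intro j
    rw [haffl]
    exact mul_ne_zero (inv_ne_zero ((map_ne_zero _).2 (hc j))) (hg j)
  have hΦl : ∀ j, Φ (l j) = ∑ i, l j i • Φ (Pi.single i 1) := by
    intro j
    have h1 : l j = ∑ i, l j i • (Pi.single i 1 : Fin (N + 1) → k) := by
      funext i
      simp [Finset.sum_apply, Pi.single_apply]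
    conv_lhs => rw [h1, map_sum]
    exact Finset.sum_congr rfl fun i _ => map_smul _ _ _
  have hθΘ : ∀ j : Fin N, ∑ i, En.cst (Φ (Pi.single i 1) j.succ) * Θ i = θ j := by
    intro j
    rw [hΘ, hθ]
    simp only [Finset.mul_sum]
    rw [Finset.sum_comm]
    refine Finset.sum_congr rfl fun i _ => ?_
    have h1 : Φ (l i) j.succ = ∑ i', l i i' * Φ (Pi.single i' 1) j.succ := by
      have := congrFun (hΦl i) j.succ
      rw [Finset.sum_apply] at this
      simpa using this
    have h2 : En.cst (l' i j.succ) = En.cst (c i) * ∑ i', En.cst (l i i') *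
        En.cst (Φ (Pi.single i' 1) j.succ) := by
      have h3 : l' i j.succ = c i * ∑ i', l i i' * Φ (Pi.single i' 1) j.succ := by
        rw [← h1]; rfl
      rw [h3, map_mul, map_sum]
      simp only [map_mul]
    rw [h2, haffl, mul_inv, inv_inv, Finset.mul_sum, Finset.mul_sum, Finset.mul_sum]
    refine Finset.sum_congr rfl fun i' _ => ?_
    ring
  have hXΘ : ∑ i, E (X i) * Θ i = algebraMap K F (∑ j, ε j) := by
    rw [hΘ]
    simp only [Finset.mul_sum]
    rw [Finset.sum_comm, map_sum]
    refine Finset.sum_congr rfl fun j _ => ?_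
    have h1 : En.aff (Φ (l j)) = ∑ i, En.cst (l j i) * E (X i) := by
      rw [hΦl, En.aff_sum]
      refine Finset.sum_congr rfl fun i _ => ?_
      rw [En.aff_smul, hE]; unfold ev; rw [aeval_X]
    have h2 : ∑ i, E (X i) * (algebraMap K F (ε j) * (En.cst (l j i) * (En.aff (Φ (l j)))⁻¹)) =
        algebraMap K F (ε j) * ((∑ i, En.cst (l j i) * E (X i)) * (En.aff (Φ (l j)))⁻¹) := by
      rw [Finset.sum_mul, Finset.mul_sum]
      exact Finset.sum_congr rfl fun i _ => by ring
    rw [h2, ← h1, mul_inv_cancel₀ (haffl0 j), mul_one]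
  have hrel : ∀ (i : Fin (N + 1)) (m e : ℕ) (p : MvPolynomial (Fin (N + 1)) K),
      p.IsHomogeneous e → L (m + 1) (f * pderiv i p + C (s0 - m) * (pderiv i f * p)) +
        Λ (E p * Θ i * ((E f)⁻¹ ^ m * wB)) =
          algebraMap k K (Φ.symm (e0 k N) i) * ((e : K) - m * d - 1) * L m p := by
    intro i m e p hp
    -- the values `q i`
    set T : Fin (N + 1) → F := fun i =>
      (E f * E (pderiv i p) + algebraMap K F (s0 - m) * (E (pderiv i f) * E p)) *
        ((E f)⁻¹ ^ (m + 1) * wB) + E p * Θ i * ((E f)⁻¹ ^ m * wB) with hT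
    have hLT : ∀ i, L (m + 1) (f * pderiv i p + C (s0 - m) * (pderiv i f * p)) +
        Λ (E p * Θ i * ((E f)⁻¹ ^ m * wB)) = Λ (T i) := by
      intro i
      rw [hLapp, hT, map_add]
      congr 2
      simp only [map_add, map_mul]
      congr 3
      rw [hE]; unfold ev; rw [aeval_C]
    rw [hLT]
    set g : F := E p * (E f)⁻¹ ^ m with hg'
    have hgA : g ∈ A := A.mul_mem (hAev _) (A.pow_mem hAf _)
    -- derivative of `g`
    have hDg : ∀ j : Fin N, ∑ i, En.cst (Φ (Pi.single i 1) j.succ) * T i =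
        wB * En.D j g + algebraMap K F s0 * (wB * g * ((E f)⁻¹ * En.D j (E f))) +
          wB * g * θ j := by
      intro j
      rw [← hθΘ j]
      have h1 : En.D j g = En.D j (E p) * (E f)⁻¹ ^ m -
          (m : F) * (g * ((E f)⁻¹ * En.D j (E f))) := by
        rw [hg', Derivation.leibniz, smul_eq_mul, smul_eq_mul, D_pow _ _ (inv_ne_zero hEf0),
          En.D_inv, inv_inv]
        field_simp
        ring
      rw [h1, ev_D En Φ j p, ev_D En Φ j f, hT]
      simp only [Finset.mul_sum, Finset.sum_mul, mul_sub, ← hE]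
      rw [← Finset.sum_sub_distrib, ← Finset.sum_add_distrib, ← Finset.sum_add_distrib]
      refine Finset.sum_congr rfl fun i _ => ?_
      rw [map_sub, map_natCast, hg', pow_succ]
      field_simp
      ring
    have hQj : ∀ j : Fin N, ∀ h ∈ A, Λ (h * ∑ i, En.cst (Φ (Pi.single i 1) j.succ) * T i) =
        - Λ (wB * (En.D j h * g)) := by
      intro j h hh
      have h1 := hTS j (h * g) (A.mul_mem hh hgA)
      rw [Derivation.leibniz, smul_eq_mul, smul_eq_mul, mul_add, map_add] at h1
      rw [hDg, mul_add, map_add]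
      have h2 : h * (algebraMap K F s0 * (wB * g * ((E f)⁻¹ * En.D j (E f)))) =
          s0 • (wB * (h * g) * ((E f)⁻¹ * En.D j (E f))) := by
        rw [Algebra.smul_def]; ring
      have h2' : h * (wB * g * θ j) = wB * (h * g) * θ j := by ring
      rw [mul_add, map_add, h2, map_smul, smul_eq_mul, h2']
      have h3 : h * (wB * En.D j g) = wB * (h * En.D j g) := by ring
      have h4 : wB * (En.D j h * g) = wB * (g * En.D j h) := by ring
      rw [h3, h4]
      linear_combination h1
    -- Euler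
    have hX : ∀ i, E (X i) = En.cst (Φ (Pi.single i 1) 0) +
        ∑ j : Fin N, En.cst (Φ (Pi.single i 1) j.succ) * En.y j := by
      intro i
      rw [hE]; unfold ev; rw [aeval_X, En.aff_def]
    have hfh : f.IsHomogeneous d := by
      rw [hf, arrP, map_prod]
      refine IsHomogeneous.prod _ _ _ fun i _ => ?_
      rw [map_pow]
      have h1 : (map (algebraMap k K) (∑ j, C (l i j) * X j) :
          MvPolynomial (Fin (N + 1)) K).IsHomogeneous 1 := by
        rw [map_sum]
        refine IsHomogeneous.sum _ _ _ fun j _ => ?_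
        rw [map_mul, map_C, map_X]
        have := (isHomogeneous_C (Fin (N + 1)) (algebraMap k K (l i j))).mul
          (isHomogeneous_X K j)
        simpa using this
      simpa using h1.pow (μ i)
    have hEu : ∀ (e : ℕ) (p : MvPolynomial (Fin (N + 1)) K), p.IsHomogeneous e →
        ∑ i, E (X i) * E (pderiv i p) = (e : F) * E p := by
      intro e p hp
      have h1 := congrArg E (euler e p hp)
      simp only [map_sum, map_mul] at h1
      rw [h1]
      congr 1
      rw [hE]; unfold ev; rw [aeval_C, map_natCast]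
    have hsumT : ∑ i, E (X i) * T i =
        algebraMap K F ((e : K) + (s0 - m) * d + ∑ j, ε j) * (g * wB) := by
      have h1 : ∑ i, E (X i) * T i =
          (E f * (∑ i, E (X i) * E (pderiv i p)) + algebraMap K F (s0 - m) *
            ((∑ i, E (X i) * E (pderiv i f)) * E p)) * ((E f)⁻¹ ^ (m + 1) * wB) +
            (∑ i, E (X i) * Θ i) * (E p * ((E f)⁻¹ ^ m * wB)) := by
        rw [hT]
        simp only [Finset.mul_sum, Finset.sum_mul]
        rw [← Finset.sum_add_distrib, Finset.sum_mul, ← Finset.sum_add_distrib]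
        refine Finset.sum_congr rfl fun i _ => ?_
        ring
      rw [h1, hEu e p hp, hEu d f hfh, hXΘ, hg', pow_succ]
      simp only [map_add, map_sub, map_mul, map_natCast]
      field_simp
    -- the quantities `Q`
    have hQ0 : Λ (∑ i, En.cst (Φ (Pi.single i 1) 0) * T i) =
        ((e : K) - m * d - 1) * Λ (g * wB) := by
      have h1 : ∑ i, En.cst (Φ (Pi.single i 1) 0) * T i =
          ∑ i, E (X i) * T i - ∑ j : Fin N, En.y j *
            ∑ i, En.cst (Φ (Pi.single i 1) j.succ) * T i := by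
        have h2 : ∑ j : Fin N, En.y j * ∑ i, En.cst (Φ (Pi.single i 1) j.succ) * T i =
            ∑ i, (∑ j : Fin N, En.cst (Φ (Pi.single i 1) j.succ) * En.y j) * T i := by
          simp only [Finset.mul_sum, Finset.sum_mul]
          rw [Finset.sum_comm]
          refine Finset.sum_congr rfl fun i _ => Finset.sum_congr rfl fun j _ => ?_
          ring
        rw [h2, ← Finset.sum_sub_distrib]
        refine Finset.sum_congr rfl fun i _ => ?_
        rw [hX]; ring
      rw [h1, hsumT, map_sub, map_sum]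
      have h3 : ∀ j : Fin N, Λ (En.y j * ∑ i, En.cst (Φ (Pi.single i 1) j.succ) * T i) =
          - Λ (g * wB) := by
        intro j
        rw [hQj j _ (hAy j), En.D_y, if_pos rfl, one_mul, mul_comm]
      rw [Finset.sum_congr rfl fun j _ => h3 j, Finset.sum_const, Finset.card_univ,
        Fintype.card_fin, nsmul_eq_mul, ← Algebra.smul_def, map_smul, smul_eq_mul]
      have h5 : s0 * d = - ((N + 1 : ℕ) : K) - ∑ j, ε j := by
        linear_combination hs0
      push_cast at h5 ⊢
      linear_combination (Λ (g * wB)) * h5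
    have hQs : ∀ j : Fin N, Λ (∑ i, En.cst (Φ (Pi.single i 1) j.succ) * T i) = 0 := by
      intro j
      have h1 := hQj j 1 A.one_mem
      rw [one_mul] at h1
      rw [h1]
      simp
    -- inversion
    have hinv : ∀ i i' : Fin (N + 1), ∑ m', (Φ (Pi.single i 1) m') *
        (Φ.symm (Pi.single m' 1) i') = if i = i' then 1 else 0 := by
      intro i i'
      have h1 : (Pi.single i 1 : Fin (N + 1) → k) =
          ∑ m', (Φ (Pi.single i 1) m') • Φ.symm (Pi.single m' 1) := by
        have h2 : Φ (Pi.single i 1) =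
            ∑ m', (Φ (Pi.single i 1) m') • (Pi.single m' 1 : Vec k N) := by
          funext a
          simp [Finset.sum_apply, Pi.single_apply]
        calc (Pi.single i 1 : Fin (N + 1) → k) = Φ.symm (Φ (Pi.single i 1)) :=
              (Φ.symm_apply_apply _).symm
          _ = Φ.symm (∑ m', (Φ (Pi.single i 1) m') • (Pi.single m' 1 : Vec k N)) := by
              rw [← h2]
          _ = _ := by rw [map_sum]; simp only [map_smul]
      have h4 := congrFun h1 i'
      rw [Finset.sum_apply] at h4
      simp only [Pi.smul_apply, smul_eq_mul] at h4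
      rw [← h4, Pi.single_apply]
      simp only [eq_comm]
    have hTi : T i = ∑ m', En.cst (Φ.symm (Pi.single m' 1) i) *
        ∑ i', En.cst (Φ (Pi.single i' 1) m') * T i' := by
      have h1 : ∑ m', En.cst (Φ.symm (Pi.single m' 1) i) *
          ∑ i', En.cst (Φ (Pi.single i' 1) m') * T i' =
          ∑ i', En.cst (∑ m', (Φ (Pi.single i' 1) m') * (Φ.symm (Pi.single m' 1) i)) * T i' := by
        simp only [Finset.mul_sum, map_sum, Finset.sum_mul, map_mul]
        rw [Finset.sum_comm]
        refine Finset.sum_congr rfl fun i' _ => Finset.sum_congr rfl fun m' _ => ?_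
        ring
      rw [h1]
      simp only [hinv]
      rw [Finset.sum_eq_single i]
      · rw [if_pos rfl, map_one, one_mul]
      · intro i' _ hi'; rw [if_neg hi', map_zero, zero_mul]
      · intro h; exact absurd (Finset.mem_univ i) h
    rw [hTi, map_sum, Fin.sum_univ_succ]
    simp only [map_cst]
    rw [hQ0, Finset.sum_eq_zero, add_zero, hLapp, smul_eq_mul]
    · have h6 : E p * ((E f)⁻¹ ^ m * wB) = g * wB := by rw [hg']; ring
      rw [h6]
      have h7 : (Pi.single 0 1 : Vec k N) = e0 k N := rfl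
      rw [h7]; ring
    · intro j _
      rw [hQs j, smul_zero]
  refine ⟨fun i => algebraMap k K (Φ.symm (e0 k N) i), L, ?_, ?_, ?_, ?_⟩
  · intro m p
    rw [hLapp, hLapp]
    congr 1
    rw [map_mul, pow_succ]
    field_simp
  · intro i hi m e p hp
    have h1 := hrel i m e p hp
    have h2 : Θ i = 0 := by
      rw [hΘ]
      refine Finset.sum_eq_zero fun j _ => ?_
      by_cases hj : ε j = 0
      · rw [hj, map_zero, zero_mul]
      · rw [hi j hj, map_zero, zero_mul, mul_zero]
    rw [h2, mul_zero, zero_mul, map_zero, add_zero] at h1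
    exact h1
  · intro i hi m e p hp
    have h0 : (X i * p).IsHomogeneous (e + 1) := by
      have := (isHomogeneous_X K i).mul hp
      rwa [add_comm 1 e] at this
    have h1 := hrel i m (e + 1) (X i * p) h0
    have hXi : En.aff (Φ (Pi.single i 1)) = E (X i) := by
      rw [hE]; unfold ev; rw [aeval_X]
    have hXi0 : E (X i) ≠ 0 := by
      rw [← hXi]
      refine En.aff_ne_zero fun h => ?_
      have h3 : (Pi.single i 1 : Fin (N + 1) → k) = 0 := (Φ.map_eq_zero_iff).1 h
      have := congrFun h3 i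
      simp at this
    have h2 : E (X i * p) * Θ i = algebraMap K F (∑ j, ε j * algebraMap k K (l j i)) * E p := by
      rw [hΘ, map_sum, Finset.mul_sum, Finset.sum_mul]
      refine Finset.sum_congr rfl fun j _ => ?_
      by_cases hj : ε j = 0
      · rw [hj]; simp
      · by_cases hli : l j i = 0
        · rw [hli]; simp
        · have h4 := hi j hj hli
          have h5 : l j i = 1 := by rw [h4]; simp
          rw [h5, h4, hXi, map_one, map_one, map_mul, one_mul, mul_one]
          field_simp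
    rw [h2, mul_assoc, ← Algebra.smul_def, map_smul, ← hLapp, smul_eq_mul] at h1
    rw [h1]
    push_cast
    ring
  · obtain ⟨δ, hδ, hδ2⟩ := Lambda_basis0 En l' hl'0 α Ψ Λ hΛ2 b hb
    refine ⟨δ, hδ, ?_⟩
    rw [hLapp, map_one, one_mul, pow_zero, one_mul]
    exact hδ2

end Pool.Agent.helper67.IF
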