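import Mathlib
import Pool.Agent.helper67.IF.Arr2b
import Pool.Agent.helper67.IF.Arr3

/-! Stokes functionals of Kummer pull-backs of arrangements. -/

set_option autoImplicit false

namespace Pool.Agent.helper67.IF

open scoped BigOperators
open MvPolynomial
open Pool.Agent.helper67.ND Pool.Agent.helper61.NDA Pool.Agent.helper14.CND

open Classical in
/-- The functionals of an arrangement, with additional exponents. -/
theorem exists_L1 {ι : Type} [Fintype ι] {n : ℕ} (hn : 1 ≤ n) (l : ι → Fin n → ℂ)
    (hl : ∀ i, l i ≠ 0) (μ : ι → ℕ) (ε : ι → ℂ) (s0 : ℂ)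
    (hs0 : (n : ℂ) + ∑ i, ε i + s0 * (∑ i, μ i : ℕ) = 0) (hne : Nonempty ι)
    (hspan : Submodule.span ℂ (Set.range l) = ⊤) (hconn : Conn (k := ℂ) l)
    (hres : ∀ W : Submodule ℂ (Fin n → ℂ), W ≠ ⊤ → (∃ i, l i ∈ W) → ∀ m : ℤ,
      ∑ i, (if l i ∈ W then ε i + s0 * μ i else 0) ≠ (m : ℂ)) :
    ∃ (κ : Fin n → ℂ) (L : ℕ → MvPolynomial (Fin n) ℂ →ₗ[ℂ] ℂ),
      (∀ m p, L (m + 1) (arrP l μ * p) = L m p) ∧
      (∀ (i : Fin n), (∀ j, ε j ≠ 0 → l j i = 0) →
        ∀ (m e : ℕ) (p : MvPolynomial (Fin n) ℂ), p.IsHomogeneous e →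
        L (m + 1) (arrP l μ * pderiv i p + C (s0 - m) * (pderiv i (arrP l μ) * p)) =
          κ i * ((e : ℂ) - m * (∑ i, μ i : ℕ) - 1) * L m p) ∧
      (∀ (i : Fin n), (∀ j, ε j ≠ 0 → l j i ≠ 0 → l j = Pi.single i 1) →
        ∀ (m e : ℕ) (p : MvPolynomial (Fin n) ℂ), p.IsHomogeneous e →
        L (m + 1) (arrP l μ * pderiv i (X i * p) +
          C (s0 - m) * (pderiv i (arrP l μ) * (X i * p))) +
          (∑ j, ε j * l j i) * L m p =
          κ i * ((e : ℂ) - m * (∑ i, μ i : ℕ)) * L m (X i * p)) ∧
      L 0 1 ≠ 0 := by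
  obtain ⟨N, rfl⟩ : ∃ N, n = N + 1 := ⟨n - 1, by omega⟩
  obtain ⟨F, _, _, ⟨En⟩⟩ := exists_env ℂ N
  obtain ⟨Φ, hΦ⟩ := Pool.Agent.helper31.NDG3.exists_chart l
  obtain ⟨H, hH, hs⟩ := Pool.Agent.helper31.NDC4.exists_tower
    (Finset.univ.image (fun i => (Φ (l i) : Vec ℂ N))) (by
      intro v hv
      obtain ⟨i, _, rfl⟩ := Finset.mem_image.1 hv
      intro h
      exact hl i ((Φ.map_eq_zero_iff).1 h))
  have hs' : ∀ i, ∃ c : ℂ, c ≠ 0 ∧ c • Φ (l i) ∈ H := fun i =>
    hs _ (Finset.mem_image.2 ⟨i, Finset.mem_univ i, rfl⟩)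
  choose c hc hcH using hs'
  set l' : ι → Vec ℂ N := fun i => c i • Φ (l i) with hl'
  have hl'0 : ∀ i, l' i ≠ 0 := fun i => hH.ne_zero (hcH i)
  have hspan' : Submodule.span ℂ (Set.range l') = ⊤ := by
    rw [← Set.image_univ, span_scale Φ l c hc, map_eq_top_iff', Set.image_univ, hspan]
  have hgen : ∀ s : Set ι, Submodule.span ℂ (l' '' s) ≠ ⊤ →
      e0 ℂ N ∉ Submodule.span ℂ (l' '' s) := by
    intro s hs h
    rw [hl', span_scale Φ l c hc] at hs h
    rw [Ne, map_eq_top_iff'] at hs
    apply hΦ s hs
    rw [span_scale' Φ l s]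
    exact h
  have hB := Pool.Agent.helper43.NDB.exists_good (k := ℂ) (K := KK) l'
    hl'0 hne hspan' (hconn.scale Φ l c hc)
  have hfr : Module.finrank ℂ (Vec ℂ N) = N + 1 := by simp
  rw [hfr] at hB
  obtain ⟨b, Ψ, hb, hgood⟩ := hB
  -- nonresonance in the chart
  have hmem : ∀ (W : Submodule ℂ (Vec ℂ N)) i,
      l' i ∈ W ↔ l i ∈ W.comap (Φ : (Fin (N + 1) → ℂ) →ₗ[ℂ] Vec ℂ N) := by
    intro W i
    rw [Submodule.mem_comap, hl']
    constructor
    · intro h
      have := W.smul_mem (c i)⁻¹ h
      rwa [smul_smul, inv_mul_cancel₀ (hc i), one_smul] at this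
    · intro h
      exact W.smul_mem _ h
  have hres' : ∀ W : Submodule ℂ (Vec ℂ N), W ≠ ⊤ → (∃ i, l' i ∈ W) → ∀ m : ℤ,
      al l' (fun i => (if (∃ a, b a = i) then (1 : ℂ) else 0) + ε i + s0 * μ i) W ≠ (m : ℂ) := by
    intro W hW hex m hm
    set W0 := W.comap (Φ : (Fin (N + 1) → ℂ) →ₗ[ℂ] Vec ℂ N) with hW0
    have hW0top : W0 ≠ ⊤ := by
      intro h
      apply hW
      rw [eq_top_iff]
      intro x _
      have h1 : Φ.symm x ∈ W0 := by rw [h]; trivial
      rw [hW0, Submodule.mem_comap] at h1
      simpa using h1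
    have hex0 : ∃ i, l i ∈ W0 := by
      obtain ⟨i, hi⟩ := hex
      exact ⟨i, (hmem W i).1 hi⟩
    set r : ℕ := (Finset.univ.filter (fun i => l' i ∈ W ∧ ∃ a, b a = i)).card with hr
    refine hres W0 hW0top hex0 (m - r) ?_
    have h1 : al l' (fun i => (if (∃ a, b a = i) then (1 : ℂ) else 0) + ε i + s0 * μ i) W =
        r + ∑ i, (if l i ∈ W0 then ε i + s0 * μ i else 0) := by
      unfold al
      have h2 : ∀ i, (if l' i ∈ W then (if (∃ a, b a = i) then (1 : ℂ) else 0) + ε i + s0 * μ i
          else 0) = (if (l' i ∈ W ∧ ∃ a, b a = i) then (1 : ℂ) else 0) +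
            (if l i ∈ W0 then ε i + s0 * μ i else 0) := by
        intro i
        by_cases hi : l' i ∈ W
        · rw [if_pos hi, if_pos ((hmem W i).1 hi), add_assoc]
          congr 1
          by_cases hi2 : ∃ a, b a = i
          · rw [if_pos hi2, if_pos ⟨hi, hi2⟩]
          · rw [if_neg hi2, if_neg (fun h => hi2 h.2)]
        · rw [if_neg hi, if_neg (fun h => hi ((hmem W i).2 h)), if_neg (fun h => hi h.1)]
          simp
      rw [Finset.sum_congr rfl fun i _ => h2 i, Finset.sum_add_distrib,
        ← Finset.sum_filter, Finset.sum_const, nsmul_eq_mul, mul_one]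
    rw [h1] at hm
    push_cast
    linear_combination hm
  obtain ⟨κ, L, hL1, hL2, hL2', δ, hδ, hL3⟩ := exists_functional1 (K := ℂ) En hH Φ l c hc hcH
    hgen μ ε s0 hs0 b Ψ hb hres'
  have hmap : map (algebraMap ℂ ℂ) (arrP l μ) = arrP l μ := by
    rw [show algebraMap ℂ ℂ = RingHom.id ℂ from rfl, MvPolynomial.map_id]
  rw [hmap] at hL1 hL2 hL2'
  refine ⟨κ, L, hL1, hL2, hL2', ?_⟩
  -- the value at `1`
  intro h0
  rw [h0, mul_zero] at hL3
  set a : ι → PowerSeries ℂ := fun i =>
    PowerSeries.C ((if (∃ a, b a = i) then (1 : ℂ) else 0) + ε i + s0 * μ i) +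
      PowerSeries.X * PowerSeries.C 1 with ha
  have ha0 : ∀ i, PowerSeries.constantCoeff (a i) =
      (if (∃ a, b a = i) then (1 : ℂ) else 0) + ε i + s0 * μ i := by
    intro i
    simp only [ha, map_add, map_mul, PowerSeries.constantCoeff_C, PowerSeries.constantCoeff_X,
      zero_mul, add_zero]
  have halK : ∀ W : Submodule ℂ (Vec ℂ N), (∃ i, l' i ∈ W) →
      al l' (fun i => algebraMap (PowerSeries ℂ) KK (a i)) W ≠ 0 := by
    rintro W ⟨i0, hi0⟩ h
    have h1 : al l' (fun i => algebraMap (PowerSeries ℂ) KK (a i)) W =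
        algebraMap (PowerSeries ℂ) KK (∑ i, if l' i ∈ W then a i else 0) := by
      unfold al
      rw [map_sum]
      refine Finset.sum_congr rfl fun i _ => ?_
      split_ifs <;> simp
    rw [h1] at h
    have h2 := (IsFractionRing.injective (PowerSeries ℂ) KK) (h.trans (map_zero _).symm)
    have h3 := congrArg (PowerSeries.coeff 1) h2
    rw [map_sum, map_zero] at h3
    have h4 : ∀ i, PowerSeries.coeff 1 (if l' i ∈ W then a i else 0) =
        ((if l' i ∈ W then 1 else 0 : ℕ) : ℂ) := by
      intro i
      by_cases hi : l' i ∈ W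
      · rw [if_pos hi, if_pos hi, Nat.cast_one]
        exact coeff_one_lin _ _
      · rw [if_neg hi, if_neg hi, map_zero, Nat.cast_zero]
    rw [Finset.sum_congr rfl fun i _ => h4 i, ← Nat.cast_sum] at h3
    have h5 : ∑ i, (if l' i ∈ W then 1 else 0) = 0 := by exact_mod_cast h3
    have h6 : (if l' i0 ∈ W then 1 else 0) ≤ ∑ i, (if l' i ∈ W then 1 else 0) :=
      Finset.single_le_sum (f := fun i => if l' i ∈ W then 1 else 0)
        (fun _ _ => Nat.zero_le _) (Finset.mem_univ i0)
    rw [if_pos hi0, h5] at h6
    omega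
  obtain ⟨u, hu, hu1⟩ := hgood RR (fun i => algebraMap (PowerSeries ℂ) KK (a i))
    (fun i => ⟨a i, rfl⟩) halK
  have hspanb : Submodule.span ℂ (Set.range (l' ∘ b)) = ⊤ := by
    refine hb.span_eq_top_of_card_eq_finrank' ?_
    simp
  rw [S_succ _ _ _ hb, hspanb, rho_top, mul_inv_cancel_left₀
    (halK ⊤ ⟨Classical.arbitrary ι, trivial⟩)] at hu1
  choose p hp hp0 using fun j : Fin (N + 1) => S_spec l' a N (fun W hW hfin h => by
    refine hres' W ?_ hW 0 ?_
    · rintro rfl
      rw [finrank_top, hfr] at hfin
      omega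
    · rw [Int.cast_zero]
      simp only [ha0] at h
      exact h) ((l' ∘ b) ∘ j.succAbove) (bd ℂ ι Ψ)
  obtain ⟨u', rfl⟩ := hu
  have h7 : algebraMap (PowerSeries ℂ) KK (u' * ∑ j : Fin (N + 1),
      ((-1 : ℤ) ^ (j : ℕ)) • p j) = 1 := by
    refine Eq.trans ?_ hu1
    rw [map_mul, map_sum]
    congr 1
    refine Finset.sum_congr rfl fun j _ => ?_
    rw [map_zsmul, hp]
  have h8 := (IsFractionRing.injective (PowerSeries ℂ) KK) (h7.trans (map_one _).symm)
  have h9 := congrArg PowerSeries.constantCoeff h8
  rw [map_mul, map_sum, map_one] at h9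
  have h10 : ∑ j : Fin (N + 1), PowerSeries.constantCoeff (((-1 : ℤ) ^ (j : ℕ)) • p j) = 0 := by
    refine Eq.trans ?_ hL3.symm
    refine Finset.sum_congr rfl fun j _ => ?_
    rw [map_zsmul, hp0]
    simp only [ha0]
    rfl
  rw [h10, mul_zero] at h9
  exact zero_ne_one h9

/-! ### The Kummer map -/

section Kummer

variable {n : ℕ} (r : Fin n → ℕ)

/-- The substitution `X_j ↦ X_j ^ r_j`. -/
noncomputable def kum : MvPolynomial (Fin n) ℂ →ₐ[ℂ] MvPolynomial (Fin n) ℂ :=
  aeval fun j => X j ^ r j

/-- multiplication of exponents -/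
noncomputable def mr (v : Fin n →₀ ℕ) : Fin n →₀ ℕ :=
  Finsupp.equivFunOnFinite.symm fun j => r j * v j

/-- division of exponents -/
noncomputable def dr (v : Fin n →₀ ℕ) : Fin n →₀ ℕ :=
  Finsupp.equivFunOnFinite.symm fun j => v j / r j

lemma mr_apply (v : Fin n →₀ ℕ) (j : Fin n) : mr r v j = r j * v j := rfl

lemma dr_apply (v : Fin n →₀ ℕ) (j : Fin n) : dr r v j = v j / r j := rfl

lemma kum_monomial (v : Fin n →₀ ℕ) (a : ℂ) : kum r (monomial v a) = monomial (mr r v) a := by
  rw [kum, aeval_monomial, monomial_eq, Finsupp.prod_fintype _ _ (fun i => pow_zero _),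
    Finsupp.prod_fintype _ _ (fun i => pow_zero _)]
  congr 1
  refine Finset.prod_congr rfl fun j _ => ?_
  rw [← pow_mul, mr_apply]

lemma pderiv_kum (i : Fin n) (h : MvPolynomial (Fin n) ℂ) :
    pderiv i (kum r h) = C (r i : ℂ) * X i ^ (r i - 1) * kum r (pderiv i h) := by
  classical
  induction h using MvPolynomial.induction_on with
  | C a => rw [kum, aeval_C]; simp
  | add p q hp hq => simp only [map_add, hp, hq, mul_add]
  | mul_X p j hp =>
    have hX : kum r (X j) = X j ^ r j := by rw [kum, aeval_X]
    rw [map_mul, Derivation.leibniz, hp, hX, Derivation.leibniz_pow, Derivation.leibniz, map_add,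
      smul_eq_mul, smul_eq_mul, smul_eq_mul, smul_eq_mul, smul_eq_mul, nsmul_eq_mul, map_mul,
      map_mul, hX]
    by_cases hj : i = j
    · subst hj
      rw [pderiv_X_self, map_one, map_natCast]
      ring
    · rw [pderiv_X_of_ne (Ne.symm hj), map_zero]
      ring

lemma IsHomog_dr_degree (w v : Fin n →₀ ℕ) (hr : ∀ j, 1 ≤ r j) (hw : ∀ j, r j ∣ w j) :
    dr r (w + mr r v) = dr r w + v := by
  ext j
  rw [dr_apply, Finsupp.add_apply, Finsupp.add_apply, dr_apply, mr_apply]
  obtain ⟨q, hq⟩ := hw j
  have := hr j
  rw [hq, ← Nat.mul_add, Nat.mul_div_cancel_left _ (by omega), Nat.mul_div_cancel_left _ (by omega)]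

end Kummer

/-- The pull-back of a product of powers of linear forms under `x ↦ (x_j ^ r_j)`. -/
noncomputable def arrK {ι : Type} [Fintype ι] {n : ℕ} (A : ι → Fin n → ℂ) (μ : ι → ℕ)
    (r : Fin n → ℕ) : MvPolynomial (Fin n) ℂ :=
  ∏ i, (∑ j, C (A i j) * X j ^ r j) ^ μ i

/-- The linear forms `∑ A_ij y_j`, together with the coordinates `y_j` with `r_j ≥ 2`. -/
def famK {ι : Type} {n : ℕ} (A : ι → Fin n → ℂ) (r : Fin n → ℕ) :
    ι ⊕ {j : Fin n // 2 ≤ r j} → Fin n → ℂ :=
  Sum.elim A fun j => Pi.single j.1 1

lemma arrK_eq {ι : Type} [Fintype ι] {n : ℕ} (A : ι → Fin n → ℂ) (μ : ι → ℕ)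
    (r : Fin n → ℕ) : arrK A μ r = kum r (arrP A μ) := by
  rw [arrK, arrP, map_prod]
  refine Finset.prod_congr rfl fun i _ => ?_
  rw [map_pow, map_sum]
  congr 1
  refine Finset.sum_congr rfl fun j _ => ?_
  rw [map_mul, kum, aeval_C, aeval_X]
  rfl

open Classical in
/-- **Kummer pull-backs of arrangements have Stokes functionals.** -/
theorem hasStokes_kum {ι : Type} [Fintype ι] {n : ℕ} (hn : 1 ≤ n) (A : ι → Fin n → ℂ)
    (hA : ∀ i, A i ≠ 0) (μ : ι → ℕ) (r : Fin n → ℕ) (hr : ∀ j, 1 ≤ r j)
    (hspan : Submodule.span ℂ (Set.range (famK A r)) = ⊤) (hconn : Conn (k := ℂ) (famK A r))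
    (hd : 1 ≤ ∑ i, μ i) (hd' : 2 ≤ ∑ i, μ i ∨ ∀ j, 2 ≤ r j)
    (hres : ∀ W : Submodule ℂ (Fin n → ℂ), W ≠ ⊤ → (∃ i, famK A r i ∈ W) → ∀ m : ℤ,
      (∑ j : {j : Fin n // 2 ≤ r j},
          (if (Pi.single j.1 1 : Fin n → ℂ) ∈ W then (1 : ℚ) / r j.1 - 1 else 0)) -
        (∑ j, (1 : ℚ) / r j) / (∑ i, μ i : ℕ) * ∑ i, (if A i ∈ W then (μ i : ℚ) else 0) ≠ m) :
    HasStokes (arrK A μ r) := by
  set d : ℕ := ∑ i, μ i with hdd
  have hdC : (d : ℂ) ≠ 0 := by exact_mod_cast (by omega : d ≠ 0)
  have hdQ : (d : ℚ) ≠ 0 := by exact_mod_cast (by omega : d ≠ 0)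
  have hne : Nonempty ι := by
    by_contra h
    rw [not_nonempty_iff] at h
    have : d = 0 := by rw [hdd]; simp
    omega
  set l := famK A r with hl
  set μ' : ι ⊕ {j : Fin n // 2 ≤ r j} → ℕ := Sum.elim μ (fun _ => 0) with hμ'
  set ε : ι ⊕ {j : Fin n // 2 ≤ r j} → ℂ :=
    Sum.elim (fun _ => 0) (fun j => (1 : ℂ) / r j.1 - 1) with hε
  set s0 : ℂ := -(∑ j, (1 : ℂ) / r j) / d with hs0
  have hμ'd : ∑ i, μ' i = d := by
    rw [Fintype.sum_sum_type]
    simp [hμ', hdd]
  have hεsum : ∑ i, ε i = (∑ j, (1 : ℂ) / r j) - n := by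
    rw [Fintype.sum_sum_type]
    simp only [hε, Sum.elim_inl, Sum.elim_inr, Finset.sum_const_zero, zero_add]
    have h1 : ∑ j : {j : Fin n // 2 ≤ r j}, ((1 : ℂ) / r j.1 - 1) =
        ∑ j : Fin n, if 2 ≤ r j then ((1 : ℂ) / r j - 1) else 0 := by
      rw [← Finset.sum_filter]
      exact (Finset.sum_subtype (Finset.univ.filter fun j : Fin n => 2 ≤ r j)
        (fun x => by simp) (fun j => (1 : ℂ) / r j - 1)).symm
    have h2 : ∀ j : Fin n, (if 2 ≤ r j then ((1 : ℂ) / r j - 1) else 0) = (1 : ℂ) / r j - 1 := by
      intro j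
      by_cases h : 2 ≤ r j
      · rw [if_pos h]
      · have : r j = 1 := by have := hr j; omega
        rw [if_neg h, this]; simp
    rw [h1, Finset.sum_congr rfl fun j _ => h2 j, Finset.sum_sub_distrib]
    simp
  have hl0 : ∀ i, l i ≠ 0 := by
    rintro (i | j)
    · exact hA i
    · intro h
      have := congrFun h j.1
      simp [hl, famK] at this
  have hf : arrP l μ' = arrP A μ := by
    unfold arrP
    rw [Fintype.prod_sum_type]
    simp [hl, famK, hμ']
  obtain ⟨κ, L, hL1, hL2, hL2', hL3⟩ := exists_L1 hn l hl0 μ' ε s0 (by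
    rw [hμ'd, hεsum, hs0]; field_simp; ring) ⟨Sum.inl (Classical.arbitrary ι)⟩ hspan hconn (by
      intro W hW hex m hm
      refine hres W hW hex m ?_
      have h1 : ∑ i, (if l i ∈ W then ε i + s0 * μ' i else 0) =
          (((∑ j : {j : Fin n // 2 ≤ r j},
          (if (Pi.single j.1 1 : Fin n → ℂ) ∈ W then (1 : ℚ) / r j.1 - 1 else 0)) -
        (∑ j, (1 : ℚ) / r j) / (d : ℕ) * ∑ i, (if A i ∈ W then (μ i : ℚ) else 0) : ℚ) : ℂ) := by
        rw [Fintype.sum_sum_type]
        simp only [hl, famK, hε, hμ', Sum.elim_inl, Sum.elim_inr, Nat.cast_zero, mul_zero,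
          add_zero, zero_add]
        push_cast
        rw [hs0, add_comm, sub_eq_add_neg, neg_div, neg_mul_eq_neg_mul, Finset.mul_sum]
        congr 1
        · exact Finset.sum_congr rfl fun j _ => by split_ifs <;> simp
        · exact Finset.sum_congr rfl fun i _ => by split_ifs <;> simp
      rw [h1] at hm
      exact_mod_cast hm)
  rw [hf, hμ'd] at hL2 hL2'
  rw [hf] at hL1
  set f := arrP A μ with hff
  have hfh : f.IsHomogeneous d := arrP_homog A μ
  set c : ℕ → ℂ := fun m => ∏ j ∈ Finset.range m, ((j : ℂ) - s0) with hc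
  have hcs : ∀ m, c (m + 1) = c m * ((m : ℂ) - s0) := fun m => Finset.prod_range_succ _ _
  set g : (Fin n →₀ ℕ) → ℂ := fun u =>
    if (∀ j, r j ∣ u j) ∧ d ∣ (dr r u).degree then
      c ((dr r u).degree / d) * L ((dr r u).degree / d) (monomial (dr r u) 1) else 0 with hg
  -- the values
  have hval : ∀ (w : Fin n →₀ ℕ) (h : MvPolynomial (Fin n) ℂ) (e e' : ℕ), h.IsHomogeneous e →
      (dr r w).degree + e = e' →
      LM g (monomial w 1 * kum r h) = if (∀ j, r j ∣ w j) ∧ d ∣ e' then
        c (e' / d) * L (e' / d) (monomial (dr r w) 1 * h) else 0 := by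
    intro w h e e' hh he'
    have hdeg : ∀ v ∈ h.support, v.degree = e := fun v hv => by
      rw [Finsupp.degree_eq_weight_one]
      exact hh (mem_support_iff.1 hv)
    have h1 : LM g (monomial w 1 * kum r h) = ∑ v ∈ h.support, coeff v h *
        (if (∀ j, r j ∣ w j) ∧ d ∣ e' then
          c (e' / d) * L (e' / d) (monomial (dr r w + v) 1) else 0) := by
      conv_lhs => rw [h.as_sum]
      rw [map_sum, Finset.mul_sum, map_sum]
      refine Finset.sum_congr rfl fun v hv => ?_
      rw [kum_monomial, monomial_mul, one_mul, LM_monomial]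
      congr 1
      simp only [hg]
      by_cases hw : ∀ j, r j ∣ w j
      · have h2 : ∀ j, r j ∣ (w + mr r v) j := fun j => by
          rw [Finsupp.add_apply, mr_apply]
          exact (hw j).add (Dvd.intro _ rfl)
        rw [IsHomog_dr_degree r w v hr hw]
        have h3 : (dr r w + v).degree = e' := by rw [map_add, hdeg v hv, he']
        rw [h3]
        simp only [hw, h2, implies_true, true_and]
      · have h2 : ¬ ∀ j, r j ∣ (w + mr r v) j := by
          intro h4
          apply hw
          intro j
          have := h4 j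
          rw [Finsupp.add_apply, mr_apply] at this
          exact (Nat.dvd_add_left (Dvd.intro _ rfl)).1 this
        rw [if_neg (fun h4 => h2 h4.1), if_neg (fun h4 => hw h4.1)]
    rw [h1]
    by_cases hcond : (∀ j, r j ∣ w j) ∧ d ∣ e'
    · simp only [if_pos hcond]
      have h2 : L (e' / d) (monomial (dr r w) 1 * h) =
          ∑ v ∈ h.support, coeff v h * L (e' / d) (monomial (dr r w + v) 1) := by
        conv_lhs => rw [h.as_sum]
        rw [Finset.mul_sum, map_sum]
        refine Finset.sum_congr rfl fun v _ => ?_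
        have e1 : (monomial (dr r w) 1 * monomial v (coeff v h) : MvPolynomial (Fin n) ℂ) =
            coeff v h • monomial (dr r w + v) 1 := by
          rw [monomial_mul, smul_monomial, smul_eq_mul, mul_one, one_mul]
        rw [e1, map_smul, smul_eq_mul]
      rw [h2, Finset.mul_sum]
      exact Finset.sum_congr rfl fun v _ => by ring
    · simp only [if_neg hcond, mul_zero, Finset.sum_const_zero]
  rw [arrK_eq, ← hff]
  refine hasStokes_of_monomial _ (LM g) ?_ ?_
  · intro i u
    have hR : (monomial u 1 : MvPolynomial (Fin n) ℂ) * pderiv i (kum r f) =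
        (r i : ℂ) • (monomial (u + Finsupp.single i (r i - 1)) 1 * kum r (pderiv i f)) := by
      rw [pderiv_kum, X_pow_eq_monomial, smul_eq_C_mul]
      have h1 : (monomial (u + Finsupp.single i (r i - 1)) 1 : MvPolynomial (Fin n) ℂ) =
          monomial u 1 * monomial (Finsupp.single i (r i - 1)) 1 := by
        rw [monomial_mul, one_mul]
      rw [h1]; ring
    rw [hR, map_smul, smul_eq_mul, pderiv_monomial, LM_monomial, one_mul]
    set w := u + Finsupp.single i (r i - 1) with hw
    rcases (by have := hr i; omega : r i = 1 ∨ 2 ≤ r i) with hri | hri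
    · -- `r i = 1`
      have hwu : w = u := by rw [hw, hri]; simp
      rw [hwu, hval u (pderiv i f) (d - 1) ((dr r u).degree + (d - 1)) hfh.pderiv rfl, hri,
        Nat.cast_one, one_mul]
      have hd2 : 2 ≤ d := by
        rcases hd' with h | h
        · exact h
        · have := h i; omega
      by_cases hall : ∀ j, r j ∣ u j
      · set v := dr r u with hv
        have hvi : v i = u i := by rw [hv, dr_apply, hri, Nat.div_one]
        have hall' : ∀ j, r j ∣ (u - Finsupp.single i 1 : Fin n →₀ ℕ) j := by
          intro j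
          by_cases hj : j = i
          · subst hj; rw [hri]; exact one_dvd _
          · rw [Finsupp.tsub_apply, Finsupp.single_apply, if_neg (Ne.symm hj), Nat.sub_zero]
            exact hall j
        have hdr : dr r (u - Finsupp.single i 1) = v - Finsupp.single i 1 := by
          ext j
          rw [dr_apply, Finsupp.tsub_apply, Finsupp.tsub_apply, hv, dr_apply,
            Finsupp.single_apply]
          by_cases hj : i = j
          · subst hj; rw [if_pos rfl, hri, Nat.div_one, Nat.div_one]
          · rw [if_neg hj, Nat.sub_zero, Nat.sub_zero]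
        have hpd : pderiv i (monomial v (1 : ℂ)) =
            (u i : ℂ) • monomial (v - Finsupp.single i 1) 1 := by
          rw [pderiv_monomial, smul_monomial, smul_eq_mul, one_mul, mul_one, hvi]
        have hvh : (monomial v (1 : ℂ)).IsHomogeneous v.degree := isHomogeneous_monomial 1 rfl
        rcases Nat.eq_zero_or_pos v.degree with he0 | he0
        · have hui : u i = 0 := by
            rw [Finsupp.degree_eq_zero_iff] at he0
            rw [← hvi, he0]; rfl
          rw [hui, Nat.cast_zero, zero_mul, if_neg]
          rintro ⟨_, h3⟩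
          rw [he0, zero_add] at h3
          have := Nat.le_of_dvd (by omega) h3
          omega
        · by_cases hde : d ∣ v.degree - 1
          · obtain ⟨m, hm⟩ := hde
            have e1 : v.degree + (d - 1) = d * (m + 1) := by
              rw [Nat.mul_succ, ← hm]; omega
            rw [e1, if_pos ⟨hall, Dvd.intro _ rfl⟩, Nat.mul_div_cancel_left _ (by omega), hcs]
            have h4 := hL2 i (by
              rintro (j | j) hj
              · simp [hε] at hj
              · have : i ≠ j.1 := by rintro rfl; have := j.2; omega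
                simp [hl, famK, Pi.single_apply, this]) m v.degree (monomial v 1) hvh
            have h5 : (v.degree : ℂ) - m * d - 1 = 0 := by
              have : v.degree = d * m + 1 := by omega
              rw [this]; push_cast; ring
            rw [h5, mul_zero, zero_mul, map_add, hL1, hpd, map_smul] at h4
            have h6 : C (s0 - m) * (pderiv i f * monomial v 1) =
                (s0 - (m : ℂ)) • (monomial v 1 * pderiv i f) := by
              rw [smul_eq_C_mul]; ring
            rw [h6, map_smul, smul_eq_mul, smul_eq_mul] at h4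
            by_cases hui : u i = 0
            · rw [hui, Nat.cast_zero, zero_mul] at h4 ⊢
              linear_combination (c m) * h4
            · have hdeg : (v - Finsupp.single i 1).degree = d * m := by
                have h7 : (v - Finsupp.single i 1) + Finsupp.single i 1 = v := by
                  ext j
                  rw [Finsupp.add_apply, Finsupp.tsub_apply, Finsupp.single_apply]
                  by_cases hj : i = j
                  · subst hj; rw [if_pos rfl]; omega
                  · rw [if_neg hj]; omega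
                have h8 := congrArg Finsupp.degree h7
                rw [map_add, Finsupp.degree_single] at h8
                omega
              simp only [hg]
              rw [hdr, hdeg, if_pos ⟨hall', Dvd.intro _ rfl⟩,
                Nat.mul_div_cancel_left _ (by omega)]
              linear_combination (c m) * h4
          · have hde' : ¬ d ∣ v.degree + (d - 1) := by
              intro h3
              apply hde
              have e2 : v.degree + (d - 1) = (v.degree - 1) + d := by omega
              rw [e2] at h3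
              exact (Nat.dvd_add_self_right).1 h3
            rw [if_neg (fun h => hde' h.2)]
            by_cases hui : u i = 0
            · rw [hui, Nat.cast_zero, zero_mul]
            · have hdeg : (v - Finsupp.single i 1).degree = v.degree - 1 := by
                have h7 : (v - Finsupp.single i 1) + Finsupp.single i 1 = v := by
                  ext j
                  rw [Finsupp.add_apply, Finsupp.tsub_apply, Finsupp.single_apply]
                  by_cases hj : i = j
                  · subst hj; rw [if_pos rfl]; omega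
                  · rw [if_neg hj]; omega
                have h8 := congrArg Finsupp.degree h7
                rw [map_add, Finsupp.degree_single] at h8
                omega
              simp only [hg]
              rw [hdr, hdeg, if_neg (fun h => hde h.2), mul_zero]
      · rw [if_neg (fun h => hall h.1)]
        have hall' : ¬ ∀ j, r j ∣ (u - Finsupp.single i 1 : Fin n →₀ ℕ) j := by
          intro h
          apply hall
          intro j
          by_cases hj : j = i
          · subst hj; rw [hri]; exact one_dvd _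
          · have := h j
            rwa [Finsupp.tsub_apply, Finsupp.single_apply, if_neg (Ne.symm hj),
              Nat.sub_zero] at this
        simp only [hg]
        rw [if_neg (fun h => hall' h.1), mul_zero]
    · -- `r i ≥ 2`
      by_cases hall : ∀ j, r j ∣ w j
      · have hwi : r i ∣ w i := hall i
        have hwi' : w i = u i + (r i - 1) := by
          rw [hw, Finsupp.add_apply, Finsupp.single_eq_same]
        have hui : 1 ≤ u i := by
          by_contra h0
          rw [hwi', (by omega : u i = 0), zero_add] at hwi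
          have := Nat.le_of_dvd (by omega) hwi
          omega
        set u' := u - Finsupp.single i 1 with hu'
        have hu'i : u' i = u i - 1 := by
          rw [hu', Finsupp.tsub_apply, Finsupp.single_eq_same]
        have hu'j : ∀ j, j ≠ i → u' j = u j := by
          intro j hj
          rw [hu', Finsupp.tsub_apply, Finsupp.single_apply, if_neg (Ne.symm hj), Nat.sub_zero]
        have hwj : ∀ j, j ≠ i → w j = u j := by
          intro j hj
          rw [hw, Finsupp.add_apply, Finsupp.single_apply, if_neg (Ne.symm hj), Nat.add_zero]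
        have hwiu' : w i = u' i + r i := by omega
        have hall' : ∀ j, r j ∣ u' j := by
          intro j
          by_cases hj : j = i
          · subst hj
            rw [hwiu'] at hwi
            exact (Nat.dvd_add_self_right).1 hwi
          · rw [hu'j j hj, ← hwj j hj]; exact hall j
        set v := dr r u' with hv
        have hdrw : dr r w = v + Finsupp.single i 1 := by
          ext j
          have e1 : dr r w j = w j / r j := rfl
          have e2 : (v + Finsupp.single i 1 : Fin n →₀ ℕ) j =
              u' j / r j + (Finsupp.single i 1 : Fin n →₀ ℕ) j := rfl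
          rw [e1, e2, Finsupp.single_apply]
          by_cases hj : i = j
          · subst hj
            rw [if_pos rfl, hwiu', Nat.add_div_right _ (by omega)]
          · rw [if_neg hj, hwj j (Ne.symm hj), hu'j j (Ne.symm hj), Nat.add_zero]
        have hdegw : (dr r w).degree + (d - 1) = v.degree + d := by
          rw [hdrw, map_add, Finsupp.degree_single]; omega
        rw [hval w (pderiv i f) (d - 1) (v.degree + d) hfh.pderiv hdegw, hdrw]
        simp only [hg]
        rw [← hv]
        by_cases hde : d ∣ v.degree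
        · obtain ⟨m, hm⟩ := hde
          have e1 : v.degree + d = d * (m + 1) := by rw [Nat.mul_succ, ← hm]
          rw [e1, hm, if_pos ⟨hall', Dvd.intro _ rfl⟩, if_pos ⟨hall, Dvd.intro _ rfl⟩,
            Nat.mul_div_cancel_left _ (by omega), Nat.mul_div_cancel_left _ (by omega), hcs]
          have hvh : (monomial v (1 : ℂ)).IsHomogeneous v.degree := isHomogeneous_monomial 1 rfl
          have h4 := hL2' i (by
            rintro (j | j) hj hji
            · simp [hε] at hj
            · have : i = j.1 := by
                by_contra hne'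
                apply hji
                simp [hl, famK, Pi.single_apply, hne']
              subst this
              rfl) m v.degree (monomial v 1) hvh
          have h5 : (v.degree : ℂ) - m * d = 0 := by rw [hm]; push_cast; ring
          have hE : ∑ j, ε j * l j i = (1 : ℂ) / r i - 1 := by
            rw [Fintype.sum_sum_type]
            simp only [hε, hl, famK, Sum.elim_inl, Sum.elim_inr, zero_mul,
              Finset.sum_const_zero, zero_add]
            rw [Finset.sum_eq_single (⟨i, hri⟩ : {j : Fin n // 2 ≤ r j})]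
            · simp
            · intro j _ hj
              have : i ≠ j.1 := fun h => hj (Subtype.ext h.symm)
              simp [Pi.single_apply, this]
            · intro h; exact absurd (Finset.mem_univ _) h
          have hXv : (X i * monomial v (1 : ℂ) : MvPolynomial (Fin n) ℂ) =
              monomial (v + Finsupp.single i 1) 1 := by
            rw [X, monomial_mul, one_mul, add_comm]
          have hpd : pderiv i (monomial (v + Finsupp.single i 1) (1 : ℂ)) =
              ((v i : ℂ) + 1) • monomial v 1 := by
            rw [pderiv_monomial, smul_monomial, smul_eq_mul, one_mul, mul_one]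
            congr 1
            · ext j; simp
            · simp
          rw [h5, mul_zero, zero_mul, hE, hXv, map_add, hL1, hpd, map_smul] at h4
          have h6 : C (s0 - m) * (pderiv i f * monomial (v + Finsupp.single i 1) 1) =
              (s0 - (m : ℂ)) • (monomial (v + Finsupp.single i 1) 1 * pderiv i f) := by
            rw [smul_eq_C_mul]; ring
          rw [h6, map_smul, smul_eq_mul, smul_eq_mul] at h4
          have hvi : (u i : ℂ) = r i * ((v i : ℂ) + 1 + (1 / r i - 1)) := by
            have h7 : u' i = r i * v i := by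
              rw [hv, dr_apply]
              exact (Nat.mul_div_cancel' (hall' i)).symm
            have h8 : u i = r i * v i + 1 := by omega
            have hrC : (r i : ℂ) ≠ 0 := by exact_mod_cast (by omega : r i ≠ 0)
            rw [h8]; push_cast; field_simp; ring
          rw [hvi]
          linear_combination (r i : ℂ) * (c m) * h4
        · rw [if_neg (fun h => hde h.2),
            if_neg (fun h => hde ((Nat.dvd_add_self_right).1 h.2)), mul_zero, mul_zero]
      · rw [hval w (pderiv i f) (d - 1) _ hfh.pderiv rfl, if_neg (fun h => hall h.1), mul_zero]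
        by_cases hui : u i = 0
        · rw [hui, Nat.cast_zero, zero_mul]
        · have hall' : ¬ ∀ j, r j ∣ (u - Finsupp.single i 1 : Fin n →₀ ℕ) j := by
            intro h
            apply hall
            intro j
            have h1 := h j
            rw [Finsupp.tsub_apply, Finsupp.single_apply] at h1
            rw [hw, Finsupp.add_apply, Finsupp.single_apply]
            by_cases hj : i = j
            · subst hj
              rw [if_pos rfl] at h1 ⊢
              have : u i + (r i - 1) = (u i - 1) + r i := by omega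
              rw [this]
              exact (Nat.dvd_add_self_right).2 h1
            · rw [if_neg hj] at h1 ⊢
              simpa using h1
          simp only [hg]
          rw [if_neg (fun h => hall' h.1), mul_zero]
  · have h1 : (1 : MvPolynomial (Fin n) ℂ) = monomial 0 1 * kum r 1 := by
      have h2 : kum r (1 : MvPolynomial (Fin n) ℂ) = 1 := map_one (kum r)
      have h3 : (monomial 0 1 : MvPolynomial (Fin n) ℂ) = 1 := rfl
      rw [h2, h3, mul_one]
    have hdr0 : dr r 0 = 0 := by ext j; simp [dr_apply]
    rw [h1, hval 0 1 0 0 (isHomogeneous_one _ _) (by rw [hdr0]; simp), if_pos ⟨by simp, dvd_zero _⟩,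
      Nat.zero_div, hdr0]
    simp only [hc, Finset.range_zero, Finset.prod_empty, one_mul, mul_one]
    exact hL3

end Pool.Agent.helper67.IF
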