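import Mathlib
import Pool.Agent.helper67.ND.Defs
import Pool.Agent.helper67.IF.Main
import Pool.Agent.helper67.IF.Calc
import Pool.Agent.helper67.IF.Susp
import Pool.Agent.helper67.IF.Kum

/-!
# Initial forms and roots of the local Bernstein-Sato polynomial
-/

set_option autoImplicit false

namespace Pool.Agent.Results.MP_6163c8_ag.InitialForms

open MvPolynomial
open Pool.Agent.helper67.ND Pool.Agent.helper67.IF

open Classical in
/-- The conditions on `∏ i, (∑ j, A i j * x j ^ r j) ^ μ i`: the linear forms `∑ j, A i j * y j`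
together with the coordinates `y j` with `r j ≥ 2` span the space of linear forms, are
indecomposable, and are nonresonant with respect to the proper subspaces. -/
structure ArrData {ι : Type} [Fintype ι] {n : ℕ} (A : ι → Fin n → ℂ) (μ : ι → ℕ)
    (r : Fin n → ℕ) : Prop where
  one_le : 1 ≤ n
  ne_zero : ∀ i, A i ≠ 0
  one_le_r : ∀ j, 1 ≤ r j
  span : Submodule.span ℂ (Set.range (famK A r)) = ⊤
  conn : Conn (k := ℂ) (famK A r)
  one_le_deg : 1 ≤ ∑ i, μ i
  singular : 2 ≤ ∑ i, μ i ∨ ∀ j, 2 ≤ r j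
  nonres : ∀ W : Submodule ℂ (Fin n → ℂ), W ≠ ⊤ → (∃ i, famK A r i ∈ W) → ∀ m : ℤ,
      (∑ j : {j : Fin n // 2 ≤ r j},
          (if (Pi.single j.1 1 : Fin n → ℂ) ∈ W then (1 : ℚ) / r j.1 - 1 else 0)) -
        (∑ j, (1 : ℚ) / r j) / (∑ i, μ i : ℕ) * ∑ i, (if A i ∈ W then (μ i : ℚ) else 0) ≠ m

/-- The class of initial forms. -/
inductive Cls : (n : ℕ) → MvPolynomial (Fin n) ℂ → Prop
  /-- (Kummer pull-backs of) hyperplane arrangements with multiplicities -/
  | arr {n : ℕ} {ι : Type} [Fintype ι] (A : ι → Fin n → ℂ) (μ : ι → ℕ) (r : Fin n → ℕ)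
      (h : ArrData A μ r) : Cls n (∏ i, (∑ j, C (A i j) * X j ^ r j) ^ μ i)
  /-- simplices -/
  | simplex {n : ℕ} (m : Fin n → (Fin n →₀ ℕ)) (c : Fin n → ℂ) (l : Fin n → ℚ)
      (hm : LinearIndependent ℚ (fun k : Fin n => fun i : Fin n => ((m k i : ℕ) : ℚ)))
      (hc : ∀ k, c k ≠ 0) (hl : ∀ i, ∑ k, l k * (m k i : ℚ) = 1)
      (hl' : ∀ k (j : ℕ), 1 ≤ j → l k ≠ j) : Cls n (∑ k, monomial (m k) (c k))
  /-- sums in separate variables -/
  | sum {n n' k : ℕ} (e : Fin n ⊕ Fin n' ≃ Fin k) {g : MvPolynomial (Fin n) ℂ}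
      {h : MvPolynomial (Fin n') ℂ} (hg : Cls n g) (hh : Cls n' h) :
      Cls k (rename (fun i => e (Sum.inl i)) g + rename (fun i => e (Sum.inr i)) h)
  /-- `z ^ c * (g + κ * z ^ p)` with a new variable `z` -/
  | susp {n k : ℕ} (e : Fin n ⊕ Unit ≃ Fin k) {g : MvPolynomial (Fin n) ℂ} (hg : Cls n g)
      (b : Fin n → ℕ) (m : ℕ) (hm : 1 ≤ m) (hb : g.IsWeightedHomogeneous b m)
      (c p : ℕ) (hp : 1 ≤ p) (hcp : 2 ≤ c + p) (κ : ℂ) (hκ : κ ≠ 0) :
      Cls k (X (e (Sum.inr ())) ^ c *
        (rename (fun i => e (Sum.inl i)) g + C κ * X (e (Sum.inr ())) ^ p))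
  /-- invertible linear substitutions -/
  | lin {n : ℕ} {g : MvPolynomial (Fin n) ℂ} (hg : Cls n g) (B B' : Matrix (Fin n) (Fin n) ℂ)
      (hB : B * B' = 1) (hB' : B' * B = 1) :
      Cls n (aeval (fun i => ∑ j, C (B i j) * X j) g)

/-- Every polynomial of the class has a Stokes functional. -/
theorem Cls.hasStokes {n : ℕ} {f0 : MvPolynomial (Fin n) ℂ} (h : Cls n f0) : HasStokes f0 := by
  induction h with
  | arr A μ r h =>
    exact hasStokes_kum h.one_le A h.ne_zero μ r h.one_le_r h.span h.conn h.one_le_deg h.singular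
      (by convert h.nonres)
  | simplex m c l hm hc hl hl' =>
    refine hasStokes_simplex m hm c hc (fun k => (l k : ℂ)) (fun i => ?_) (fun k j hj h => ?_)
    · exact_mod_cast hl i
    · exact hl' k j hj (by exact_mod_cast h)
  | sum e hg hh ihg ihh =>
    refine HasStokes.sum (e1 := fun i => e (Sum.inl i)) (e2 := fun i => e (Sum.inr i)) ?_ ihg ihh
    refine ⟨e.injective.comp Sum.inl_injective, e.injective.comp Sum.inr_injective, ?_, ?_⟩
    · intro i j h
      have := e.injective h
      simp at this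
    · intro r
      rcases h : e.symm r with i | j
      · exact Or.inl ⟨i, by rw [← h, e.apply_symm_apply]⟩
      · exact Or.inr ⟨j, by rw [← h, e.apply_symm_apply]⟩
  | susp e hg b m hm hb c p hp hcp κ hκ ih =>
    refine HasStokes.susp (e1 := fun i => e (Sum.inl i)) (z := e (Sum.inr ())) ?_ ih hm hb c p hp
      hcp κ hκ
    refine ⟨e.injective.comp Sum.inl_injective, fun _ _ _ => rfl, ?_, ?_⟩
    · intro i j h
      have := e.injective h
      simp at this
    · intro r
      rcases h : e.symm r with i | j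
      · exact Or.inl ⟨i, by rw [← h, e.apply_symm_apply]⟩
      · exact Or.inr ⟨(), by rw [← e.apply_symm_apply r, h]⟩
  | lin hg B B' hB hB' ih => exact ih.lin B B' hB hB'

/-- If the initial form `f0` of the germ `f`, with respect to positive weights `a`, belongs to the
class, then `- (a₁ + … + aₙ) / N` is a root of the local Bernstein-Sato polynomial of `f`. -/
theorem result {n : ℕ} (hn : 1 ≤ n) (f0 : MvPolynomial (Fin n) ℂ) (h0 : Cls n f0)
    (a : Fin n → ℕ) (ha : ∀ i, 1 ≤ a i) (N : ℕ) (hw : f0.IsWeightedHomogeneous a N)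
    (f : (Fin n → ℂ) → ℂ) (hf : AnalyticAt ℂ f 0) (hin : HasInitialForm a N f f0)
    (b : Polynomial ℂ) (hb : IsBernstein f b) :
    b.eval (-(∑ i, (a i : ℂ)) / N) = 0 :=
  initial_form hn ha hf hw hin h0.hasStokes hb

open Filter Topology Asymptotics in
/-- The special case of tangent cones: if the tangent cone of the germ `f` at `0` is a spanning
indecomposable hyperplane arrangement with multiplicities, of degree `d` prime to `n`, then
`- n / d` is a root of the local Bernstein-Sato polynomial of `f`. -/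
theorem tangentCone {n : ℕ} (hn : 1 ≤ n) {ι : Type} [Fintype ι] (A : ι → Fin n → ℂ)
    (hA : ∀ i, A i ≠ 0) (μ : ι → ℕ) (hμ : ∀ i, 1 ≤ μ i)
    (hspan : Submodule.span ℂ (Set.range A) = ⊤) (hconn : Conn (k := ℂ) A)
    (hgcd : Nat.Coprime n (∑ i, μ i)) (hd : 2 ≤ ∑ i, μ i)
    (f : (Fin n → ℂ) → ℂ) (hf : AnalyticAt ℂ f 0)
    (hO : (fun z => f z - ∏ i, (∑ j, A i j * z j) ^ μ i) =O[𝓝 0]
      (fun z : Fin n → ℂ => ‖z‖ ^ (∑ i, μ i + 1)))
    (b : Polynomial ℂ) (hb : IsBernstein f b) : b.eval (-(n : ℂ) / (∑ i, μ i : ℕ)) = 0 := by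
  classical
  set d : ℕ := ∑ i, μ i with hdd
  have hempty : IsEmpty {j : Fin n // 2 ≤ (fun _ : Fin n => 1) j} :=
    ⟨fun j => absurd j.2 (by simp)⟩
  have hrange : Set.range (famK A (fun _ => 1)) = Set.range A := by
    ext v
    constructor
    · rintro ⟨i | j, rfl⟩
      · exact ⟨i, rfl⟩
      · exact (hempty.false j).elim
    · rintro ⟨i, rfl⟩
      exact ⟨Sum.inl i, rfl⟩
  have hdata : ArrData A μ (fun _ => 1) := by
    refine ⟨hn, hA, fun _ => le_rfl, by rw [hrange]; exact hspan, ?_, by omega, Or.inl hd, ?_⟩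
    · -- indecomposability
      intro s hs hs'
      have himg : ∀ t : Set (ι ⊕ {j : Fin n // 2 ≤ (fun _ : Fin n => 1) j}),
          famK A (fun _ => 1) '' t = A '' (Sum.inl ⁻¹' t) := by
        intro t
        ext v
        constructor
        · rintro ⟨i | j, hi, rfl⟩
          · exact ⟨i, hi, rfl⟩
          · exact (hempty.false j).elim
        · rintro ⟨i, hi, rfl⟩
          exact ⟨Sum.inl i, hi, rfl⟩
      rw [himg, himg, Set.preimage_compl]
      refine hconn _ ?_ ?_
      · obtain ⟨i | j, hi⟩ := hs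
        · exact ⟨i, hi⟩
        · exact (hempty.false j).elim
      · obtain ⟨i | j, hi⟩ := hs'
        · exact ⟨i, hi⟩
        · exact (hempty.false j).elim
    · intro W hW hex m hm
      obtain ⟨i0 | j, hi0⟩ := hex
      swap
      · exact (hempty.false j).elim
      change A i0 ∈ W at hi0
      rw [← hdd] at hm
      set q : ℕ := ∑ i, (if A i ∈ W then μ i else 0) with hq
      have hq1 : 1 ≤ q := by
        have h1 : (if A i0 ∈ W then μ i0 else 0) ≤ q :=
          Finset.single_le_sum (f := fun i => if A i ∈ W then μ i else 0)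
            (fun _ _ => Nat.zero_le _) (Finset.mem_univ i0)
        rw [if_pos hi0] at h1
        exact (hμ i0).trans h1
      have hq2 : q < d := by
        have hex' : ∃ i, A i ∉ W := by
          by_contra hcon
          push Not at hcon
          apply hW
          rw [eq_top_iff, ← hspan, Submodule.span_le]
          rintro _ ⟨i, rfl⟩
          exact hcon i
        obtain ⟨i1, hi1⟩ := hex'
        refine Finset.sum_lt_sum (fun i _ => ?_) ⟨i1, Finset.mem_univ _, ?_⟩
        · split_ifs
          · exact le_rfl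
          · exact Nat.zero_le _
        · rw [if_neg hi1]; exact hμ i1
      have h1 : (∑ i, (if A i ∈ W then (μ i : ℚ) else 0)) = q := by
        rw [hq]; push_cast
        exact Finset.sum_congr rfl fun i _ => by split_ifs <;> simp
      rw [Finset.univ_eq_empty, Finset.sum_empty, h1] at hm
      have hdQ : (d : ℚ) ≠ 0 := by exact_mod_cast (by omega : d ≠ 0)
      have h2 : ((n * q : ℕ) : ℤ) = d * (-m) := by
        have h3 : ((n * q : ℕ) : ℚ) = d * (-m) := by
          simp at hm
          field_simp at hm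
          push_cast
          linear_combination -hm
        exact_mod_cast h3
      have h3 : d ∣ n * q := by
        have : (d : ℤ) ∣ ((n * q : ℕ) : ℤ) := ⟨_, h2⟩
        exact_mod_cast this
      have h4 := (hgcd.symm).dvd_of_dvd_mul_left h3
      have := Nat.le_of_dvd (by omega) h4
      omega
  have hcls := Cls.arr A μ (fun _ => 1) hdata
  simp only [pow_one] at hcls
  have hhom : (∏ i, (∑ j, C (A i j) * X j) ^ μ i : MvPolynomial (Fin n) ℂ).IsWeightedHomogeneous
      (fun _ => 1) d := arrP_homog A μ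
  have h := result hn _ hcls (fun _ => 1) (fun _ => le_rfl) d hhom f hf (fun z => by
    have h1 := isBigO_scal (a := fun _ : Fin n => 1) (fun _ => le_rfl) hO z
    refine h1.congr_left fun t => ?_
    have h2 : ∏ i, (∑ j, A i j * (scal (fun _ : Fin n => 1) t z) j) ^ μ i =
        t ^ d * eval z (∏ i, (∑ j, C (A i j) * X j) ^ μ i) := by
      rw [← eval_scal_homog hhom]
      simp
    rw [h2]
    rfl) b hb
  simpa using h

end Pool.Agent.Results.MP_6163c8_ag.InitialForms
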